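import Mathlib

set_option autoImplicit false

namespace Pool.Agent.Lib.Pfab339

/-- An entry of a weighted structure: `x` = number of ways to use it, `y` = number of ways not to
use it, `n` = its extra order. -/
@[ext] structure Ent where
  x : ℕ
  y : ℕ
  n : ℕ

namespace Ent

/-- the zero entry -/
def zero : Ent := ⟨0, 1, 0⟩

/-- a plain entry 1 -/
def free : Ent := ⟨1, 1, 0⟩

/-- hang `g` as a child below `h` -/
def comb (h g : Ent) : Ent := ⟨h.x * g.x + h.y * g.y, h.y * g.x, h.n + g.n + 1⟩

/-- merge two parallel gadgets -/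
def merge (h g : Ent) : Ent := ⟨h.x * g.y + g.x * h.y, h.y * g.y, h.n + g.n⟩

end Ent

/-- gadgets coming from rooted weighted trees -/
inductive TT : Ent → Prop
  | base : TT Ent.zero
  | add {h : Ent} : TT h → TT (Ent.comb h Ent.free)
  | child {h g : Ent} : TT h → TT g → 1 ≤ g.x → TT (Ent.comb h g)

theorem TT.y_pos {e : Ent} (h : TT e) : 1 ≤ e.y := by
  induction h with
  | base => simp [Ent.zero]
  | add h ih => simp only [Ent.comb, Ent.free]; omega
  | child h g hx ih1 ih2 => simp only [Ent.comb]; exact Nat.one_le_iff_ne_zero.2 (by positivity)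

theorem TT.eq_zero_or {e : Ent} (h : TT e) : e = Ent.zero ∨ (1 ≤ e.x ∧ 1 ≤ e.n) := by
  cases h with
  | base => left; rfl
  | @add h hh =>
    right
    have := hh.y_pos
    simp only [Ent.comb, Ent.free]; omega
  | @child h g hh hg hx =>
    right
    have h1 := hh.y_pos
    have h2 := hg.y_pos
    simp only [Ent.comb]
    refine ⟨?_, by omega⟩
    have : 1 ≤ h.y * g.y := Nat.one_le_iff_ne_zero.2 (by positivity)
    omega

theorem TT.merge {a b : Ent} (ha : TT a) (hb : TT b) : TT (Ent.merge a b) := by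
  induction hb with
  | base =>
    have : Ent.merge a Ent.zero = a := by
      ext <;> simp [Ent.merge, Ent.zero]
    rw [this]; exact ha
  | @add h hh ih =>
    have : Ent.merge a (Ent.comb h Ent.free) = Ent.comb (Ent.merge a h) Ent.free := by
      ext <;> simp [Ent.merge, Ent.comb, Ent.free] <;> ring
    rw [this]; exact TT.add ih
  | @child h g hh hg hx ih1 ih2 =>
    have : Ent.merge a (Ent.comb h g) = Ent.comb (Ent.merge a h) g := by
      ext <;> simp [Ent.merge, Ent.comb] <;> ring
    rw [this]; exact TT.child ih1 hg hx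

/-- legal entries -/
def Kind (e : Ent) : Prop := e = Ent.free ∨ TT e

theorem Kind.y_pos {e : Ent} (h : Kind e) : 1 ≤ e.y := by
  rcases h with h | h
  · rw [h]; simp [Ent.free]
  · exact h.y_pos

theorem Kind.zero_of_x {e : Ent} (h : Kind e) (hx : e.x = 0) : e = Ent.zero := by
  rcases h with h | h
  · rw [h] at hx; simp [Ent.free] at hx
  · rcases h.eq_zero_or with h1 | h1
    · exact h1
    · omega

theorem Kind.free_or_cost {e : Ent} (h : Kind e) (hx : 1 ≤ e.x) : e = Ent.free ∨ (TT e ∧ 1 ≤ e.n) := by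
  rcases h with h | h
  · left; exact h
  · rcases h.eq_zero_or with h1 | h1
    · rw [h1] at hx; simp [Ent.zero] at hx
    · right; exact ⟨h, h1.2⟩

theorem Kind.tt_of_n {e : Ent} (h : Kind e) (hn : 1 ≤ e.n) : TT e ∧ 1 ≤ e.x := by
  rcases h with h | h
  · rw [h] at hn; simp [Ent.free] at hn
  · rcases h.eq_zero_or with h1 | h1
    · rw [h1] at hn; simp [Ent.zero] at hn
    · exact ⟨h, h1.1⟩

theorem Kind.comb {h g : Ent} (hh : TT h) (hg : Kind g) (hx : 1 ≤ g.x) : TT (Ent.comb h g) := by
  rcases hg with hg | hg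
  · rw [hg]; exact TT.add hh
  · exact TT.child hh hg hx

@[simp] theorem free_x : Ent.free.x = 1 := rfl
@[simp] theorem free_y : Ent.free.y = 1 := rfl
@[simp] theorem free_n : Ent.free.n = 0 := rfl
@[simp] theorem zero_x : Ent.zero.x = 0 := rfl
@[simp] theorem zero_y : Ent.zero.y = 1 := rfl
@[simp] theorem zero_n : Ent.zero.n = 0 := rfl

/-- the weight of an entry -/
def wt (e : Ent) : ℚ := (e.x : ℚ) / e.y

@[simp] theorem wt_free : wt Ent.free = 1 := by simp [wt]
@[simp] theorem wt_zero : wt Ent.zero = 0 := by simp [wt]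

theorem wt_nonneg (e : Ent) : 0 ≤ wt e := by unfold wt; positivity

theorem Kind.y_mul_wt {e : Ent} (h : Kind e) : (e.y : ℚ) * wt e = e.x := by
  have := h.y_pos
  have h2 : (e.y : ℚ) ≠ 0 := by positivity
  unfold wt; field_simp

theorem TT.comb_n {h g : Ent} : (Ent.comb h g).n = h.n + g.n + 1 := rfl

end Pool.Agent.Lib.Pfab339
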