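import Mathlib
import Pool.Agent.Lib.Pfab339.Ent

set_option autoImplicit false
set_option linter.unusedSectionVars false

namespace Pool.Agent.Lib.Pfab339

open Finset

variable {α : Type} [DecidableEq α]

/-- transposed array -/
def tr (E : α → α → Ent) : α → α → Ent := fun i j => E j i

@[simp] theorem tr_tr (E : α → α → Ent) : tr (tr E) = E := rfl
@[simp] theorem tr_apply (E : α → α → Ent) (i j : α) : tr E i j = E j i := rfl

/-- `(S, T)` is a block certifying that the entry `(i, j)` cannot be dropped -/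
structure Blk (R C : Finset α) (E : α → α → Ent) (i j : α) (S T : Finset α) : Prop where
  subR : S ⊆ R
  subC : T ⊆ C
  memS : i ∈ S
  memT : j ∈ T
  card : R.card ≤ S.card + T.card
  zero : ∀ a ∈ S, ∀ b ∈ T, 1 ≤ (E a b).x → a = i ∧ b = j

structure Good (R C : Finset α) (E : α → α → Ent) : Prop where
  card : R.card = C.card
  kind : ∀ i ∈ R, ∀ j ∈ C, Kind (E i j)
  prot : ∀ i ∈ R, ∀ j ∈ C, E i j = Ent.free → ∃ S T, Blk R C E i j S T
  noC4 : ∀ i ∈ R, ∀ i' ∈ R, ∀ j ∈ C, ∀ j' ∈ C, i ≠ i' → j ≠ j' → E i j = Ent.free →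
    E i j' = Ent.free → E i' j = Ent.free → E i' j' = Ent.free → False

def FI (R C : Finset α) (E : α → α → Ent) : Prop :=
  ∀ S T : Finset α, S ⊆ R → T ⊆ C → S.Nonempty → T.Nonempty →
    (∀ a ∈ S, ∀ b ∈ T, (E a b).x = 0) → S.card + T.card < R.card

/-- at most one costly entry in each row -/
def One (R C : Finset α) (E : α → α → Ent) : Prop :=
  ∀ i ∈ R, ∀ j ∈ C, ∀ j' ∈ C, 1 ≤ (E i j).n → 1 ≤ (E i j').n → j = j'

/-- row `r` has exactly the two nonzero entries at `c` and `c'`, the latter being free -/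
structure Line (R C : Finset α) (E : α → α → Ent) (r c c' : α) : Prop where
  memr : r ∈ R
  memc : c ∈ C
  memc' : c' ∈ C
  ne : c ≠ c'
  nz : 1 ≤ (E r c).x
  free : E r c' = Ent.free
  only : ∀ j ∈ C, 1 ≤ (E r j).x → j = c ∨ j = c'

theorem Blk.tr {R C : Finset α} {E : α → α → Ent} {i j : α} {S T : Finset α}
    (hRC : R.card = C.card) (h : Blk R C E i j S T) : Blk C R (tr E) j i T S where
  subR := h.subC
  subC := h.subR
  memS := h.memT
  memT := h.memS
  card := by rw [← hRC, add_comm]; exact h.card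
  zero := fun a ha b hb hx => (h.zero b hb a ha hx).symm

theorem Good.tr {R C : Finset α} {E : α → α → Ent} (h : Good R C E) : Good C R (tr E) where
  card := h.card.symm
  kind := fun i hi j hj => h.kind j hj i hi
  prot := fun i hi j hj hf => by
    obtain ⟨S, T, hb⟩ := h.prot j hj i hi hf
    exact ⟨T, S, hb.tr h.card⟩
  noC4 := fun i hi i' hi' j hj j' hj' hii hjj h1 h2 h3 h4 =>
    h.noC4 j hj j' hj' i hi i' hi' hjj hii h1 h3 h2 h4

theorem FI.tr {R C : Finset α} {E : α → α → Ent} (hRC : R.card = C.card) (h : FI R C E) :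
    FI C R (tr E) := by
  intro S T hS hT hSn hTn hz
  have := h T S hT hS hTn hSn (fun a ha b hb => hz b hb a ha)
  omega

theorem FI.row_two {R C : Finset α} {E : α → α → Ent} (hRC : R.card = C.card) (h : FI R C E)
    (h2 : 2 ≤ R.card) {r : α} (hr : r ∈ R) (c : α) :
    ∃ c2 ∈ C, c2 ≠ c ∧ 1 ≤ (E r c2).x := by
  by_contra hcon
  push Not at hcon
  have hne : (C.erase c).Nonempty := by
    rw [← Finset.card_pos]
    have := Finset.pred_card_le_card_erase (s := C) (a := c)
    omega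
  have := h {r} (C.erase c) (by simpa using hr) (Finset.erase_subset _ _) (by simp) hne
    (by
      intro a ha b hb
      have ha' : a = r := by simpa using ha
      subst ha'
      have hb' := Finset.mem_erase.1 hb
      have := hcon b hb'.2 hb'.1
      omega)
  have h3 := Finset.pred_card_le_card_erase (s := C) (a := c)
  rw [Finset.card_singleton] at this
  omega

theorem FI.col_two {R C : Finset α} {E : α → α → Ent} (hRC : R.card = C.card) (h : FI R C E)
    (h2 : 2 ≤ R.card) {c : α} (hc : c ∈ C) (r : α) :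
    ∃ r2 ∈ R, r2 ≠ r ∧ 1 ≤ (E r2 c).x :=
  FI.row_two (E := Pool.Agent.Lib.Pfab339.tr E) hRC.symm (h.tr hRC) (by omega) hc r

/-- key uncrossing step -/
theorem uncross {R C : Finset α} {E : α → α → Ent} (hRC : R.card = C.card) (hFI : FI R C E)
    {i0 j0 : α} {S T : Finset α} (hb : Blk R C E i0 j0 S T)
    (hmin : ∀ i ∈ R, ∀ j ∈ C, E i j = Ent.free → ∀ S' T' : Finset α, Blk R C E i j S' T' →
      T.card ≤ S'.card)
    {i2 : α} (hi2 : i2 ∈ R) (h02 : i2 ≠ i0) (hf2 : E i2 j0 = Ent.free)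
    (hprot : ∃ S T, Blk R C E i2 j0 S T)
    (hf0 : 1 ≤ (E i0 j0).x)
    {i3 : α} (hi3 : i3 ∈ R) (h03 : i3 ≠ i0) (h23 : i3 ≠ i2) (hnz3 : 1 ≤ (E i3 j0).x) : False := by
  obtain ⟨S2, T2, hb2⟩ := hprot
  have hi2x : 1 ≤ (E i2 j0).x := by rw [hf2]; simp
  have h0S2 : i0 ∉ S2 := fun h => h02 (hb2.zero i0 h j0 hb2.memT hf0).1.symm
  have h2S : i2 ∉ S := fun h => h02 (hb.zero i2 h j0 hb.memT hi2x).1
  have hj0 : j0 ∈ C := hb.subC hb.memT
  have hcS := Finset.card_union_add_card_inter S S2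
  have hcT := Finset.card_union_add_card_inter T T2
  have hb1 := hb.card
  have hb2c := hb2.card
  by_cases hne : (S ∩ S2).Nonempty
  · have hz : ∀ a ∈ S ∩ S2, ∀ b ∈ T ∪ T2, (E a b).x = 0 := by
      intro a ha b hb'
      rw [Finset.mem_inter] at ha
      by_contra hx
      have hx' : 1 ≤ (E a b).x := by omega
      rcases Finset.mem_union.1 hb' with hbT | hbT
      · have := (hb.zero a ha.1 b hbT hx').1
        rw [this] at ha; exact h0S2 ha.2
      · have := (hb2.zero a ha.2 b hbT hx').1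
        rw [this] at ha; exact h2S ha.1
    have h1 := hFI (S ∩ S2) (T ∪ T2) (Finset.inter_subset_left.trans hb.subR)
      (Finset.union_subset hb.subC hb2.subC) hne ⟨j0, Finset.mem_union_left _ hb.memT⟩ hz
    -- now T ∩ T2 = {j0}
    have hz2 : ∀ a ∈ S ∪ S2, ∀ b ∈ (T ∩ T2).erase j0, (E a b).x = 0 := by
      intro a ha b hb'
      rw [Finset.mem_erase, Finset.mem_inter] at hb'
      by_contra hx
      have hx' : 1 ≤ (E a b).x := by omega
      rcases Finset.mem_union.1 ha with haS | haS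
      · exact hb'.1 (hb.zero a haS b hb'.2.1 hx').2
      · exact hb'.1 (hb2.zero a haS b hb'.2.2 hx').2
    have hj0m : j0 ∈ T ∩ T2 := Finset.mem_inter.2 ⟨hb.memT, hb2.memT⟩
    have hce := Finset.card_erase_of_mem hj0m
    have hpos : 1 ≤ (T ∩ T2).card := Finset.card_pos.2 ⟨j0, hj0m⟩
    have hSu : S ∪ S2 ⊆ R := Finset.union_subset hb.subR hb2.subR
    have hSuc := Finset.card_le_card hSu
    by_cases hne2 : ((T ∩ T2).erase j0).Nonempty
    · have h3 := hFI (S ∪ S2) ((T ∩ T2).erase j0) hSu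
        ((Finset.erase_subset _ _).trans (Finset.inter_subset_left.trans hb.subC))
        ⟨i0, Finset.mem_union_left _ hb.memS⟩ hne2 hz2
      omega
    · rw [Finset.not_nonempty_iff_eq_empty] at hne2
      rw [hne2] at hce
      simp only [Finset.card_empty] at hce
      have hRe : S ∪ S2 = R := Finset.eq_of_subset_of_card_le hSu (by omega)
      rw [← hRe] at hi3
      rcases Finset.mem_union.1 hi3 with h | h
      · exact h03 (hb.zero i3 h j0 hb.memT hnz3).1
      · exact h23 (hb2.zero i3 h j0 hb2.memT hnz3).1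
  · rw [Finset.not_nonempty_iff_eq_empty] at hne
    rw [hne] at hcS
    simp only [Finset.card_empty] at hcS
    have hSu : S ∪ S2 ⊆ R := Finset.union_subset hb.subR hb2.subR
    have hSuc := Finset.card_le_card hSu
    have hm := hmin i2 hi2 j0 hj0 hf2 S2 T2 hb2
    have hRe : S ∪ S2 = R := Finset.eq_of_subset_of_card_le hSu (by omega)
    rw [← hRe] at hi3
    rcases Finset.mem_union.1 hi3 with h | h
    · exact h03 (hb.zero i3 h j0 hb.memT hnz3).1
    · exact h23 (hb2.zero i3 h j0 hb2.memT hnz3).1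

/-- a column whose block is minimal is a line of the transposed structure -/
theorem line_of_min {R C : Finset α} {E : α → α → Ent} (hG : Good R C E) (hFI : FI R C E)
    (hOne : One C R (tr E)) (h2 : 2 ≤ R.card)
    {i0 j0 : α} (hi0 : i0 ∈ R) (hj0 : j0 ∈ C) (hf0 : E i0 j0 = Ent.free) {S T : Finset α}
    (hb : Blk R C E i0 j0 S T)
    (hmin : ∀ i ∈ R, ∀ j ∈ C, E i j = Ent.free → ∀ S' T' : Finset α, Blk R C E i j S' T' →
      T.card ≤ S'.card) :
    ∃ r c c', Line C R (tr E) r c c' := by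
  have hf0x : 1 ≤ (E i0 j0).x := by rw [hf0]; simp
  obtain ⟨i1, hi1, hi1ne, hi1x⟩ := hFI.col_two hG.card h2 hj0 i0
  by_cases hex : ∃ i2 ∈ R, i2 ≠ i0 ∧ E i2 j0 = Ent.free
  · obtain ⟨i2, hi2, hi2ne, hf2⟩ := hex
    refine ⟨j0, i2, i0, hj0, hi2, hi0, hi2ne, by simp [hf2], by simpa using hf0, ?_⟩
    intro i3 hi3 hx3
    by_contra hcon
    push Not at hcon
    exact uncross hG.card hFI hb hmin hi2 hi2ne hf2 (hG.prot i2 hi2 j0 hj0 hf2) hf0x hi3 hcon.2
      hcon.1 hx3
  · push Not at hex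
    refine ⟨j0, i1, i0, hj0, hi1, hi0, hi1ne, hi1x, by simpa using hf0, ?_⟩
    intro i3 hi3 hx3
    by_contra hcon
    push Not at hcon
    have hx3' : 1 ≤ (E i3 j0).x := hx3
    have k1 : 1 ≤ (E i1 j0).n := by
      rcases (hG.kind i1 hi1 j0 hj0).free_or_cost hi1x with h | h
      · exact absurd h (hex i1 hi1 hi1ne)
      · exact h.2
    have k3 : 1 ≤ (E i3 j0).n := by
      rcases (hG.kind i3 hi3 j0 hj0).free_or_cost hx3' with h | h
      · exact absurd h (hex i3 hi3 hcon.2)
      · exact h.2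
    exact hcon.1 (hOne j0 hj0 i3 hi3 i1 hi1 k3 k1)

/-- existence of a line -/
theorem exists_line {R C : Finset α} {E : α → α → Ent} (hG : Good R C E) (hFI : FI R C E)
    (hOneR : One R C E) (hOneC : One C R (tr E)) (h2 : 2 ≤ R.card) :
    (∃ r c c', Line R C E r c c') ∨ (∃ r c c', Line C R (tr E) r c c') := by
  -- some free entry exists
  have hfree : ∃ i ∈ R, ∃ j ∈ C, E i j = Ent.free := by
    obtain ⟨r, hr⟩ : R.Nonempty := Finset.card_pos.1 (by omega)
    obtain ⟨c1, hc1, -, hx1⟩ := hFI.row_two hG.card h2 hr r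
    obtain ⟨c2, hc2, hne2, hx2⟩ := hFI.row_two hG.card h2 hr c1
    rcases (hG.kind r hr c1 hc1).free_or_cost hx1 with h | h
    · exact ⟨r, hr, c1, hc1, h⟩
    · rcases (hG.kind r hr c2 hc2).free_or_cost hx2 with h' | h'
      · exact ⟨r, hr, c2, hc2, h'⟩
      · exact absurd (hOneR r hr c2 hc2 c1 hc1 h'.2 h.2) hne2
  let P : ℕ → Prop := fun k => ∃ i ∈ R, ∃ j ∈ C, E i j = Ent.free ∧ ∃ S T, Blk R C E i j S T ∧
    (S.card = k ∨ T.card = k)
  have hP : ∃ k, P k := by
    obtain ⟨i, hi, j, hj, hf⟩ := hfree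
    obtain ⟨S, T, hb⟩ := hG.prot i hi j hj hf
    exact ⟨S.card, i, hi, j, hj, hf, S, T, hb, Or.inl rfl⟩
  classical
  obtain ⟨i0, hi0, j0, hj0, hf0, S, T, hb, hcard⟩ := Nat.find_spec hP
  have hmin : ∀ i ∈ R, ∀ j ∈ C, E i j = Ent.free → ∀ S' T' : Finset α, Blk R C E i j S' T' →
      Nat.find hP ≤ S'.card ∧ Nat.find hP ≤ T'.card := by
    intro i hi j hj hf S' T' hb'
    exact ⟨Nat.find_min' hP ⟨i, hi, j, hj, hf, S', T', hb', Or.inl rfl⟩,
      Nat.find_min' hP ⟨i, hi, j, hj, hf, S', T', hb', Or.inr rfl⟩⟩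
  rcases hcard with hc | hc
  · -- S minimal: transpose
    left
    have := line_of_min (E := tr E) hG.tr (hFI.tr hG.card) (by simpa using hOneR)
      (by have := hG.card; omega) hj0 hi0 (by simpa using hf0) (hb.tr hG.card) (by
        intro i hi j hj hf S' T' hb'
        have := (hmin j hj i hi (by simpa using hf) T' S' (by
          have := hb'.tr hG.card.symm
          simpa using this)).2
        omega)
    simpa using this
  · right
    exact line_of_min hG hFI hOneC h2 hi0 hj0 hf0 hb (by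
      intro i hi j hj hf S' T' hb'
      have := (hmin i hi j hj hf S' T' hb').1
      omega)

end Pool.Agent.Lib.Pfab339
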