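import Mathlib
import Pool.Agent.Lib.Pfab339.Struct

set_option autoImplicit false
set_option linter.unusedSectionVars false

namespace Pool.Agent.Lib.Pfab339

open Finset

variable {α : Type} [DecidableEq α]

/-- two-column row argument -/
theorem ext_arg {R C : Finset α} {E : α → α → Ent} (hFI : FI R C E)
    {r c c' i : α} (hr : r ∈ R) (hnz : 1 ≤ (E r c).x)
    (honly : ∀ j ∈ C, 1 ≤ (E r j).x → j = c ∨ j = c')
    (hir : i ≠ r) {S T : Finset α} (hb : Blk R C E i c S T) (hc' : c' ∉ T) :
    T = {c} ∧ S = R.erase r := by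
  have hrS : r ∉ S := fun h => hir (hb.zero r h c hb.memT hnz).1.symm
  have hcT := Finset.card_erase_of_mem hb.memT
  have hTpos : 1 ≤ T.card := Finset.card_pos.2 ⟨c, hb.memT⟩
  have hcS : (insert r S).card = S.card + 1 := Finset.card_insert_of_notMem hrS
  have hb1 := hb.card
  have hz : ∀ a ∈ insert r S, ∀ b ∈ T.erase c, (E a b).x = 0 := by
    intro a ha b hb'
    rw [Finset.mem_erase] at hb'
    by_contra hx
    have hx' : 1 ≤ (E a b).x := by omega
    rcases Finset.mem_insert.1 ha with h | h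
    · rw [h] at hx'
      rcases honly b (hb.subC hb'.2) hx' with h1 | h1
      · exact hb'.1 h1
      · rw [h1] at hb'; exact hc' hb'.2
    · exact hb'.1 (hb.zero a h b hb'.2 hx').2
  have hTe : T.erase c = ∅ := by
    by_contra hne
    have := hFI (insert r S) (T.erase c) (Finset.insert_subset hr hb.subR)
      ((Finset.erase_subset _ _).trans hb.subC) ⟨r, Finset.mem_insert_self _ _⟩
      (Finset.nonempty_iff_ne_empty.2 hne) hz
    omega
  have hT : T = {c} := by
    rw [← Finset.insert_erase hb.memT, hTe]; rfl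
  refine ⟨hT, ?_⟩
  have hsub : S ⊆ R.erase r := fun a ha => Finset.mem_erase.2 ⟨fun h => hrS (h ▸ ha), hb.subR ha⟩
  apply Finset.eq_of_subset_of_card_le hsub
  rw [Finset.card_erase_of_mem hr]
  rw [hTe, Finset.card_empty] at hcT
  omega

/-- no free 4-cycle in a fully indecomposable structure of order at least 3 -/
theorem no_c4_row {R C : Finset α} {E : α → α → Ent} (hRC : R.card = C.card) (hFI : FI R C E)
    {r r2 c1 c2 : α} (hr2 : r2 ∈ R) (hrr : r ≠ r2) (hcc : c1 ≠ c2)
    (hf1 : E r c1 = Ent.free) (hf2 : E r c2 = Ent.free)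
    (hx1 : 1 ≤ (E r2 c1).x) (hx2 : 1 ≤ (E r2 c2).x)
    (hp1 : ∃ S T, Blk R C E r c1 S T) (hp2 : ∃ S T, Blk R C E r c2 S T) :
    ∀ j ∈ C, 1 ≤ (E r j).x → j = c1 ∨ j = c2 := by
  obtain ⟨S1, T1, b1⟩ := hp1
  obtain ⟨S2, T2, b2⟩ := hp2
  have hr2S1 : r2 ∉ S1 := fun h => hrr (b1.zero r2 h c1 b1.memT hx1).1.symm
  have hr2S2 : r2 ∉ S2 := fun h => hrr (b2.zero r2 h c2 b2.memT hx2).1.symm
  have hc2T1 : c2 ∉ T1 := fun h => hcc (b1.zero r b1.memS c2 h (by rw [hf2]; simp)).2.symm
  have hc1T2 : c1 ∉ T2 := fun h => hcc (b2.zero r b2.memS c1 h (by rw [hf1]; simp)).2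
  have hcS := Finset.card_union_add_card_inter S1 S2
  have hcT := Finset.card_union_add_card_inter T1 T2
  have k1 := b1.card
  have k2 := b2.card
  have hz : ∀ a ∈ S1 ∪ S2, ∀ b ∈ T1 ∩ T2, (E a b).x = 0 := by
    intro a ha b hb
    rw [Finset.mem_inter] at hb
    by_contra hx
    have hx' : 1 ≤ (E a b).x := by omega
    rcases Finset.mem_union.1 ha with h | h
    · have := (b1.zero a h b hb.1 hx').2
      rw [this] at hb; exact hc1T2 hb.2
    · have := (b2.zero a h b hb.2 hx').2
      rw [this] at hb; exact hc2T1 hb.1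
  have hSu : S1 ∪ S2 ⊆ R.erase r2 := by
    intro a ha
    refine Finset.mem_erase.2 ⟨?_, ?_⟩
    · intro h
      rw [h] at ha
      rcases Finset.mem_union.1 ha with h | h
      · exact hr2S1 h
      · exact hr2S2 h
    · rcases Finset.mem_union.1 ha with h | h
      · exact b1.subR h
      · exact b2.subR h
  have hSuc := Finset.card_le_card hSu
  rw [Finset.card_erase_of_mem hr2] at hSuc
  have hRpos : 1 ≤ R.card := Finset.card_pos.2 ⟨r2, hr2⟩
  have key : R.card + 1 ≤ (S1 ∩ S2).card + (T1 ∪ T2).card := by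
    by_cases hne : (T1 ∩ T2).Nonempty
    · have := hFI (S1 ∪ S2) (T1 ∩ T2) (hSu.trans (Finset.erase_subset _ _))
        (Finset.inter_subset_left.trans b1.subC) ⟨r, Finset.mem_union_left _ b1.memS⟩ hne hz
      omega
    · rw [Finset.not_nonempty_iff_eq_empty] at hne
      rw [hne, Finset.card_empty] at hcT
      omega
  have hrm : r ∈ S1 ∩ S2 := Finset.mem_inter.2 ⟨b1.memS, b2.memS⟩
  have hce := Finset.card_erase_of_mem hrm
  have hspos : 1 ≤ (S1 ∩ S2).card := Finset.card_pos.2 ⟨r, hrm⟩
  have hTu : T1 ∪ T2 ⊆ C := Finset.union_subset b1.subC b2.subC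
  have hTuc := Finset.card_le_card hTu
  have hse : (S1 ∩ S2).erase r = ∅ := by
    by_contra hne
    have := hFI ((S1 ∩ S2).erase r) (T1 ∪ T2)
      ((Finset.erase_subset _ _).trans (Finset.inter_subset_left.trans b1.subR)) hTu
      (Finset.nonempty_iff_ne_empty.2 hne) ⟨c1, Finset.mem_union_left _ b1.memT⟩ (by
        intro a ha b hb
        rw [Finset.mem_erase, Finset.mem_inter] at ha
        by_contra hx
        have hx' : 1 ≤ (E a b).x := by omega
        rcases Finset.mem_union.1 hb with h | h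
        · exact ha.1 (b1.zero a ha.2.1 b h hx').1
        · exact ha.1 (b2.zero a ha.2.2 b h hx').1)
    omega
  rw [hse, Finset.card_empty] at hce
  have hTe : T1 ∪ T2 = C := Finset.eq_of_subset_of_card_le hTu (by omega)
  intro j hj hx
  rw [← hTe] at hj
  rcases Finset.mem_union.1 hj with h | h
  · left; exact (b1.zero r b1.memS j h hx).2
  · right; exact (b2.zero r b2.memS j h hx).2

theorem card_two_of_c4 {R C : Finset α} {E : α → α → Ent} (hRC : R.card = C.card)
    (hFI : FI R C E)
    (hprot : ∀ i ∈ R, ∀ j ∈ C, E i j = Ent.free → ∃ S T, Blk R C E i j S T)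
    {i i' j j' : α} (hi : i ∈ R) (hi' : i' ∈ R) (hj : j ∈ C) (hj' : j' ∈ C)
    (hii : i ≠ i') (hjj : j ≠ j') (h1 : E i j = Ent.free) (h2 : E i j' = Ent.free)
    (h3 : E i' j = Ent.free) (h4 : E i' j' = Ent.free) : R.card = 2 := by
  have hA := no_c4_row hRC hFI hi' hii hjj h1 h2 (by rw [h3]; simp) (by rw [h4]; simp)
    (hprot i hi j hj h1) (hprot i hi j' hj' h2)
  have hB := no_c4_row hRC hFI hi hii.symm hjj h3 h4 (by rw [h1]; simp) (by rw [h2]; simp)
    (hprot i' hi' j hj h3) (hprot i' hi' j' hj' h4)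
  by_contra hne
  have hRge : 2 ≤ R.card := by
    have : ({i, i'} : Finset α) ⊆ R := by
      intro a ha
      rcases Finset.mem_insert.1 ha with h | h
      · rw [h]; exact hi
      · rw [Finset.mem_singleton.1 h]; exact hi'
    have := Finset.card_le_card this
    rwa [Finset.card_pair hii] at this
  have hsub : (C \ {j, j'}).Nonempty := by
    rw [← Finset.card_pos]
    have := Finset.le_card_sdiff ({j, j'} : Finset α) C
    rw [Finset.card_pair hjj] at this
    omega
  have hcard := Finset.le_card_sdiff ({j, j'} : Finset α) C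
  rw [Finset.card_pair hjj] at hcard
  have := hFI {i, i'} (C \ {j, j'}) (by
      intro a ha
      rcases Finset.mem_insert.1 ha with h | h
      · rw [h]; exact hi
      · rw [Finset.mem_singleton.1 h]; exact hi') Finset.sdiff_subset ⟨i, by simp⟩ hsub (by
      intro a ha b hb
      rw [Finset.mem_sdiff] at hb
      by_contra hx
      have hx' : 1 ≤ (E a b).x := by omega
      apply hb.2
      rcases Finset.mem_insert.1 ha with h | h
      · rw [h] at hx'
        rcases hA b hb.1 hx' with h' | h' <;> simp [h']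
      · rw [Finset.mem_singleton.1 h] at hx'
        rcases hB b hb.1 hx' with h' | h' <;> simp [h'])
  rw [Finset.card_pair hii] at this
  omega

/-- change one entry -/
def upd (E : α → α → Ent) (a b : α) (e : Ent) : α → α → Ent :=
  fun i j => if i = a ∧ j = b then e else E i j

theorem upd_self (E : α → α → Ent) (a b : α) (e : Ent) : upd E a b e a b = e := by simp [upd]

theorem upd_ne (E : α → α → Ent) {a b i j : α} (e : Ent) (h : ¬ (i = a ∧ j = b)) :
    upd E a b e i j = E i j := by simp [upd, h]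

/-- the peeling operation keeps the class -/
theorem Good.peel {R C : Finset α} {E : α → α → Ent} (hG : Good R C E)
    {r c c' r1 : α} (hr : r ∈ R) (hc : c ∈ C)
    (hx : 1 ≤ (E r c).x) (hx' : 1 ≤ (E r c').x) (hx1 : 1 ≤ (E r1 c).x)
    (e : Ent) (he : TT e) (hex : 1 ≤ e.n) :
    Good (R.erase r) (C.erase c) (upd E r1 c' e) where
  card := by rw [Finset.card_erase_of_mem hr, Finset.card_erase_of_mem hc, hG.card]
  kind := by
    intro i hi j hj
    by_cases h : i = r1 ∧ j = c'
    · rw [h.1, h.2, upd_self]; exact Or.inr he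
    · rw [upd_ne E e h]
      exact hG.kind i (Finset.mem_of_mem_erase hi) j (Finset.mem_of_mem_erase hj)
  prot := by
    intro i hi j hj hf
    by_cases h : i = r1 ∧ j = c'
    · rw [h.1, h.2, upd_self] at hf
      rw [hf] at hex; simp at hex
    rw [upd_ne E e h] at hf
    rw [Finset.mem_erase] at hi hj
    obtain ⟨S, T, hb⟩ := hG.prot i hi.2 j hj.2 hf
    have hRc := Finset.card_erase_of_mem hr
    have hbc := hb.card
    have hRpos : 1 ≤ R.card := Finset.card_pos.2 ⟨r, hr⟩
    -- in all cases produce a block avoiding r, c and (r1, c')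
    have key : ∃ S' T' : Finset α, S' ⊆ S ∧ T' ⊆ T ∧ r ∉ S' ∧ c ∉ T' ∧ i ∈ S' ∧ j ∈ T' ∧
        ¬ (r1 ∈ S' ∧ c' ∈ T') ∧ S.card + T.card ≤ S'.card + T'.card + 1 := by
      by_cases hrS : r ∈ S
      · have hcT : c ∉ T := fun h' => hi.1 (hb.zero r hrS c h' hx).1.symm
        have hc'T : c' ∉ T := fun h' => hi.1 (hb.zero r hrS c' h' hx').1.symm
        refine ⟨S.erase r, T, Finset.erase_subset _ _, Finset.Subset.refl _, by simp, hcT,
          Finset.mem_erase.2 ⟨hi.1, hb.memS⟩, hb.memT, fun h' => hc'T h'.2, ?_⟩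
        rw [Finset.card_erase_of_mem hrS]
        have : 1 ≤ S.card := Finset.card_pos.2 ⟨r, hrS⟩
        omega
      · by_cases hcT : c ∈ T
        · have hr1S : r1 ∉ S := fun h' => hj.1 (hb.zero r1 h' c hcT hx1).2.symm
          refine ⟨S, T.erase c, Finset.Subset.refl _, Finset.erase_subset _ _, hrS, by simp,
            hb.memS, Finset.mem_erase.2 ⟨hj.1, hb.memT⟩, fun h' => hr1S h'.1, ?_⟩
          rw [Finset.card_erase_of_mem hcT]
          have : 1 ≤ T.card := Finset.card_pos.2 ⟨c, hcT⟩
          omega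
        · by_cases hpos : r1 ∈ S ∧ c' ∈ T
          · by_cases hi1 : i = r1
            · have hjc : j ≠ c' := fun h' => h ⟨hi1, h'⟩
              refine ⟨S, T.erase c', Finset.Subset.refl _, Finset.erase_subset _ _, hrS,
                fun h' => hcT (Finset.mem_of_mem_erase h'),
                hb.memS, Finset.mem_erase.2 ⟨hjc, hb.memT⟩, fun h' => ?_, ?_⟩
              · exact (Finset.mem_erase.1 h'.2).1 rfl
              · rw [Finset.card_erase_of_mem hpos.2]
                have : 1 ≤ T.card := Finset.card_pos.2 ⟨c', hpos.2⟩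
                omega
            · refine ⟨S.erase r1, T, Finset.erase_subset _ _, Finset.Subset.refl _,
                fun h' => hrS (Finset.mem_of_mem_erase h'), hcT,
                Finset.mem_erase.2 ⟨hi1, hb.memS⟩, hb.memT, fun h' => ?_, ?_⟩
              · exact (Finset.mem_erase.1 h'.1).1 rfl
              · rw [Finset.card_erase_of_mem hpos.1]
                have : 1 ≤ S.card := Finset.card_pos.2 ⟨r1, hpos.1⟩
                omega
          · exact ⟨S, T, Finset.Subset.refl _, Finset.Subset.refl _, hrS, hcT, hb.memS, hb.memT,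
              hpos, by omega⟩
    obtain ⟨S', T', hS', hT', hrS', hcT', hiS', hjT', hno, hcard⟩ := key
    refine ⟨S', T', ?_, ?_, hiS', hjT', ?_, ?_⟩
    · intro a ha
      exact Finset.mem_erase.2 ⟨fun h' => hrS' (h' ▸ ha), hb.subR (hS' ha)⟩
    · intro a ha
      exact Finset.mem_erase.2 ⟨fun h' => hcT' (h' ▸ ha), hb.subC (hT' ha)⟩
    · omega
    · intro a ha b hb' hxx
      have hne : ¬ (a = r1 ∧ b = c') := fun h' => hno ⟨h'.1 ▸ ha, h'.2 ▸ hb'⟩
      rw [upd_ne E e hne] at hxx
      exact hb.zero a (hS' ha) b (hT' hb') hxx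
  noC4 := by
    intro i hi i' hi' j hj j' hj' hii hjj h1 h2 h3 h4
    have hne : ∀ a b, upd E r1 c' e a b = Ent.free → E a b = Ent.free := by
      intro a b hab
      by_cases h : a = r1 ∧ b = c'
      · rw [h.1, h.2, upd_self] at hab
        rw [hab] at hex; simp at hex
      · rwa [upd_ne E e h] at hab
    exact hG.noC4 i (Finset.mem_of_mem_erase hi) i' (Finset.mem_of_mem_erase hi')
      j (Finset.mem_of_mem_erase hj) j' (Finset.mem_of_mem_erase hj') hii hjj
      (hne _ _ h1) (hne _ _ h2) (hne _ _ h3) (hne _ _ h4)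

end Pool.Agent.Lib.Pfab339
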