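import Mathlib
import Pool.Agent.Lib.Pfab339.Ops

set_option autoImplicit false
set_option linter.unusedSectionVars false

namespace Pool.Agent.Lib.Pfab339

open Finset

variable {α : Type} [DecidableEq α]

/-- merge column `c` into column `c'` -/
def con (E : α → α → Ent) (c c' : α) : α → α → Ent :=
  fun i j => if j = c' then (if 1 ≤ (E i c).x then E i c else E i c') else E i j

theorem con_ne (E : α → α → Ent) {c c' i j : α} (h : j ≠ c') : con E c c' i j = E i j := by
  simp [con, h]

theorem con_eq_left (E : α → α → Ent) {c c' i : α} (h : 1 ≤ (E i c).x) :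
    con E c c' i c' = E i c := by
  simp [con, h]

theorem con_eq_right (E : α → α → Ent) {c c' i : α} (h : ¬ 1 ≤ (E i c).x) :
    con E c c' i c' = E i c' := by
  simp [con, h]

/-- every free entry of column `c` (off row `r`) has a companion -/
def Comp (R : Finset α) (E : α → α → Ent) (r c : α) : Prop :=
  ∀ i ∈ R, i ≠ r → E i c = Ent.free → ∃ i2 ∈ R, i2 ≠ r ∧ i2 ≠ i ∧ 1 ≤ (E i2 c).x

theorem mem_of_comp {R C : Finset α} {E : α → α → Ent} (hFI : FI R C E)
    {r c c' i : α} (hr : r ∈ R) (hnz : 1 ≤ (E r c).x)
    (honly : ∀ j ∈ C, 1 ≤ (E r j).x → j = c ∨ j = c') (hK : Comp R E r c)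
    (hi : i ∈ R) (hir : i ≠ r) (hf : E i c = Ent.free)
    {S T : Finset α} (hb : Blk R C E i c S T) : c' ∈ T := by
  by_contra hc'
  obtain ⟨hT, hS⟩ := ext_arg hFI hr hnz honly hir hb hc'
  obtain ⟨i2, hi2, hi2r, hi2i, hx⟩ := hK i hi hir hf
  have : i2 ∈ S := by rw [hS]; exact Finset.mem_erase.2 ⟨hi2r, hi2⟩
  exact hi2i (hb.zero i2 this c hb.memT hx).1

theorem con_disjoint {R C : Finset α} {E : α → α → Ent} (hG : Good R C E) (hFI : FI R C E)
    (hOne : One R C E) {r c c' : α} (hr : r ∈ R) (hc : c ∈ C) (hc' : c' ∈ C) (hcc : c ≠ c')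
    (hnz : 1 ≤ (E r c).x) (hnz' : 1 ≤ (E r c').x)
    (honly : ∀ j ∈ C, 1 ≤ (E r j).x → j = c ∨ j = c') (hK : Comp R E r c) (hK' : Comp R E r c')
    {i : α} (hi : i ∈ R) (hir : i ≠ r) (h1 : 1 ≤ (E i c).x) (h2 : 1 ≤ (E i c').x) : False := by
  rcases (hG.kind i hi c hc).free_or_cost h1 with hf | hcost
  · obtain ⟨S, T, hb⟩ := hG.prot i hi c hc hf
    have := mem_of_comp hFI hr hnz honly hK hi hir hf hb
    exact hcc (hb.zero i hb.memS c' this h2).2.symm
  · rcases (hG.kind i hi c' hc').free_or_cost h2 with hf | hcost'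
    · obtain ⟨S, T, hb⟩ := hG.prot i hi c' hc' hf
      have := mem_of_comp (c' := c) hFI hr hnz' (fun j hj hx => (honly j hj hx).symm) hK' hi hir
        hf hb
      exact hcc (hb.zero i hb.memS c this h1).2
    · exact hcc (hOne i hi c hc c' hc' hcost.2 hcost'.2)

theorem FI.contract {R C : Finset α} {E : α → α → Ent} (hFI : FI R C E)
    {r c c' : α} (hr : r ∈ R) (hc : c ∈ C)
    (honly : ∀ j ∈ C, 1 ≤ (E r j).x → j = c ∨ j = c') :
    FI (R.erase r) (C.erase c) (con E c c') := by
  intro S T hS hT hSn hTn hz
  rw [Finset.card_erase_of_mem hr]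
  have hrS : r ∉ S := fun h => (Finset.mem_erase.1 (hS h)).1 rfl
  have hcT : c ∉ T := fun h => (Finset.mem_erase.1 (hT h)).1 rfl
  by_cases hc'T : c' ∈ T
  · have h1 := hFI S (insert c T) (hS.trans (Finset.erase_subset _ _))
      (Finset.insert_subset hc (hT.trans (Finset.erase_subset _ _))) hSn
      (Finset.insert_nonempty _ _) (by
        intro a ha b hb
        rcases Finset.mem_insert.1 hb with h | h
        · rw [h]
          by_contra hx
          have hx' : 1 ≤ (E a c).x := by omega
          have := hz a ha c' hc'T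
          rw [con_eq_left E hx'] at this
          omega
        · by_cases hbc : b = c'
          · rw [hbc]
            have h3 := hz a ha c' hc'T
            by_cases hx : 1 ≤ (E a c).x
            · rw [con_eq_left E hx] at h3; omega
            · rwa [con_eq_right E hx] at h3
          · have h3 := hz a ha b h
            rwa [con_ne E hbc] at h3)
    rw [Finset.card_insert_of_notMem hcT] at h1
    omega
  · have h1 := hFI (insert r S) T (Finset.insert_subset hr (hS.trans (Finset.erase_subset _ _)))
      (hT.trans (Finset.erase_subset _ _)) (Finset.insert_nonempty _ _) hTn (by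
        intro a ha b hb
        have hbc' : b ≠ c' := fun h => hc'T (h ▸ hb)
        rcases Finset.mem_insert.1 ha with h | h
        · rw [h]
          by_contra hx
          have hx' : 1 ≤ (E r b).x := by omega
          rcases honly b (Finset.mem_of_mem_erase (hT hb)) hx' with h' | h'
          · exact hcT (h' ▸ hb)
          · exact hbc' h'
        · have h3 := hz a h b hb
          rwa [con_ne E hbc'] at h3)
    rw [Finset.card_insert_of_notMem hrS] at h1
    omega

theorem Good.contract {R C : Finset α} {E : α → α → Ent} (hG : Good R C E) (hFI : FI R C E)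
    (hOne : One R C E) {r c c' : α} (hr : r ∈ R) (hc : c ∈ C) (hc' : c' ∈ C) (hcc : c ≠ c')
    (hnz : 1 ≤ (E r c).x) (hnz' : 1 ≤ (E r c').x)
    (honly : ∀ j ∈ C, 1 ≤ (E r j).x → j = c ∨ j = c') (hK : Comp R E r c) (hK' : Comp R E r c')
    (h2 : 2 ≤ R.card) :
    Good (R.erase r) (C.erase c) (con E c c') := by
  have hFI' := hFI.contract hr hc honly
  have hdis := fun {i : α} (hi : i ∈ R) (hir : i ≠ r) (h1 : 1 ≤ (E i c).x) (h2 : 1 ≤ (E i c').x) =>
    con_disjoint hG hFI hOne hr hc hc' hcc hnz hnz' honly hK hK' hi hir h1 h2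
  have hcard : (R.erase r).card = (C.erase c).card := by
    rw [Finset.card_erase_of_mem hr, Finset.card_erase_of_mem hc, hG.card]
  have hprot : ∀ i ∈ R.erase r, ∀ j ∈ C.erase c, con E c c' i j = Ent.free →
      ∃ S T, Blk (R.erase r) (C.erase c) (con E c c') i j S T := by
    intro i hi j hj hf
    rw [Finset.mem_erase] at hi hj
    have hRc := Finset.card_erase_of_mem hr
    have hRpos : 1 ≤ R.card := Finset.card_pos.2 ⟨r, hr⟩
    by_cases hjc : j = c'
    · subst hjc
      by_cases hx : 1 ≤ (E i c).x
      · -- comes from column c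
        rw [con_eq_left E hx] at hf
        obtain ⟨S, T, hb⟩ := hG.prot i hi.2 c hc hf
        have hc'T := mem_of_comp hFI hr hnz honly hK hi.2 hi.1 hf hb
        have hrS : r ∉ S := fun h => hi.1 (hb.zero r h c hb.memT hnz).1.symm
        have hbc := hb.card
        have hTpos : 1 ≤ T.card := Finset.card_pos.2 ⟨c, hb.memT⟩
        refine ⟨S, T.erase c, ?_, ?_, hb.memS, Finset.mem_erase.2 ⟨hcc.symm, hc'T⟩, ?_, ?_⟩
        · intro a ha
          exact Finset.mem_erase.2 ⟨fun h => hrS (h ▸ ha), hb.subR ha⟩
        · exact Finset.erase_subset_erase _ hb.subC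
        · rw [Finset.card_erase_of_mem hb.memT]; omega
        · intro a ha b hb' hxx
          rw [Finset.mem_erase] at hb'
          by_cases hbj : b = j
          · subst hbj
            by_cases hxa : 1 ≤ (E a c).x
            · exact ⟨(hb.zero a ha c hb.memT hxa).1, rfl⟩
            · rw [con_eq_right E hxa] at hxx
              exact absurd (hb.zero a ha b hb'.2 hxx).2 hb'.1
          · rw [con_ne E hbj] at hxx
            exact absurd (hb.zero a ha b hb'.2 hxx).2 hb'.1
      · rw [con_eq_right E hx] at hf
        obtain ⟨S, T, hb⟩ := hG.prot i hi.2 j hc' hf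
        have hcT := mem_of_comp (c' := c) hFI hr hnz' (fun j hj hx => (honly j hj hx).symm) hK'
          hi.2 hi.1 hf hb
        have hrS : r ∉ S := fun h => hi.1 (hb.zero r h j hb.memT hnz').1.symm
        have hbc := hb.card
        have hTpos : 1 ≤ T.card := Finset.card_pos.2 ⟨c, hcT⟩
        refine ⟨S, T.erase c, ?_, ?_, hb.memS, Finset.mem_erase.2 ⟨hcc.symm, hb.memT⟩, ?_, ?_⟩
        · intro a ha
          exact Finset.mem_erase.2 ⟨fun h => hrS (h ▸ ha), hb.subR ha⟩
        · exact Finset.erase_subset_erase _ hb.subC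
        · rw [Finset.card_erase_of_mem hcT]; omega
        · intro a ha b hb' hxx
          rw [Finset.mem_erase] at hb'
          by_cases hbj : b = j
          · subst hbj
            by_cases hxa : 1 ≤ (E a c).x
            · exact absurd (hb.zero a ha c hcT hxa).2 hcc
            · rw [con_eq_right E hxa] at hxx
              exact ⟨(hb.zero a ha b hb'.2 hxx).1, rfl⟩
          · rw [con_ne E hbj] at hxx
            exact absurd (hb.zero a ha b hb'.2 hxx).2 hbj
    · rw [con_ne E hjc] at hf
      obtain ⟨S, T, hb⟩ := hG.prot i hi.2 j hj.2 hf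
      have hbc := hb.card
      by_cases hrS : r ∈ S
      · have hcT : c ∉ T := fun h => hi.1 (hb.zero r hrS c h hnz).1.symm
        have hc'T : c' ∉ T := fun h => hi.1 (hb.zero r hrS c' h hnz').1.symm
        have hSpos : 1 ≤ S.card := Finset.card_pos.2 ⟨r, hrS⟩
        refine ⟨S.erase r, T, Finset.erase_subset_erase _ hb.subR, ?_,
          Finset.mem_erase.2 ⟨hi.1, hb.memS⟩, hb.memT, ?_, ?_⟩
        · intro a ha
          exact Finset.mem_erase.2 ⟨fun h => hcT (h ▸ ha), hb.subC ha⟩
        · rw [Finset.card_erase_of_mem hrS]; omega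
        · intro a ha b hb' hxx
          have hbc' : b ≠ c' := fun h => hc'T (h ▸ hb')
          rw [con_ne E hbc'] at hxx
          exact hb.zero a (Finset.mem_of_mem_erase ha) b hb' hxx
      · have hSsub : S ⊆ R.erase r := fun a ha =>
          Finset.mem_erase.2 ⟨fun h => hrS (h ▸ ha), hb.subR ha⟩
        by_cases hcT : c ∈ T
        · have hTpos : 1 ≤ T.card := Finset.card_pos.2 ⟨c, hcT⟩
          refine ⟨S, T.erase c, hSsub, Finset.erase_subset_erase _ hb.subC, hb.memS,
            Finset.mem_erase.2 ⟨hj.1, hb.memT⟩, ?_, ?_⟩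
          · rw [Finset.card_erase_of_mem hcT]; omega
          · intro a ha b hb' hxx
            rw [Finset.mem_erase] at hb'
            by_cases hbc' : b = c'
            · subst hbc'
              by_cases hxa : 1 ≤ (E a c).x
              · exact absurd (hb.zero a ha c hcT hxa).2.symm hj.1
              · rw [con_eq_right E hxa] at hxx
                exact absurd (hb.zero a ha b hb'.2 hxx).2.symm hjc
            · rw [con_ne E hbc'] at hxx
              exact hb.zero a ha b hb'.2 hxx
        · refine ⟨S, T.erase c', hSsub, ?_, hb.memS, Finset.mem_erase.2 ⟨hjc, hb.memT⟩, ?_, ?_⟩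
          · intro a ha
            rw [Finset.mem_erase] at ha
            exact Finset.mem_erase.2 ⟨fun h => hcT (h ▸ ha.2), hb.subC ha.2⟩
          · have := Finset.pred_card_le_card_erase (s := T) (a := c')
            omega
          · intro a ha b hb' hxx
            rw [Finset.mem_erase] at hb'
            rw [con_ne E hb'.1] at hxx
            exact hb.zero a ha b hb'.2 hxx
  refine ⟨hcard, ?_, hprot, ?_⟩
  · intro i hi j hj
    have hi' := Finset.mem_of_mem_erase hi
    have hj' := Finset.mem_of_mem_erase hj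
    by_cases hjc : j = c'
    · subst hjc
      by_cases hx : 1 ≤ (E i c).x
      · rw [con_eq_left E hx]; exact hG.kind i hi' c hc
      · rw [con_eq_right E hx]; exact hG.kind i hi' j hj'
    · rw [con_ne E hjc]; exact hG.kind i hi' j hj'
  · intro i hi i' hi' j hj j' hj' hii hjj h1 h2' h3 h4
    have hcard2 := card_two_of_c4 hcard hFI' hprot hi hi' hj hj' hii hjj h1 h2' h3 h4
    have hR : R.erase r = {i, i'} := by
      symm
      apply Finset.eq_of_subset_of_card_le
      · intro a ha
        rcases Finset.mem_insert.1 ha with h | h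
        · rw [h]; exact hi
        · rw [Finset.mem_singleton.1 h]; exact hi'
      · rw [Finset.card_pair hii, hcard2]
    have hC : C.erase c = {j, j'} := by
      symm
      apply Finset.eq_of_subset_of_card_le
      · intro a ha
        rcases Finset.mem_insert.1 ha with h | h
        · rw [h]; exact hj
        · rw [Finset.mem_singleton.1 h]; exact hj'
      · rw [Finset.card_pair hjj, ← hcard, hcard2]
    have hfi : con E c c' i c' = Ent.free := by
      have : c' ∈ C.erase c := Finset.mem_erase.2 ⟨hcc.symm, hc'⟩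
      rw [hC] at this
      rcases Finset.mem_insert.1 this with h | h
      · rw [h]; rw [h] at h1; exact h1
      · have h := Finset.mem_singleton.1 h
        rw [h]; rw [h] at h2'; exact h2'
    have hiR := Finset.mem_of_mem_erase hi
    have hi'R := Finset.mem_of_mem_erase hi'
    have hir := (Finset.mem_erase.1 hi).1
    have hi'r := (Finset.mem_erase.1 hi').1
    have hmem : ∀ a ∈ R, a ≠ r → a = i ∨ a = i' := by
      intro a ha har
      have : a ∈ R.erase r := Finset.mem_erase.2 ⟨har, ha⟩
      rw [hR] at this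
      simpa using this
    by_cases hx : 1 ≤ (E i c).x
    · rw [con_eq_left E hx] at hfi
      obtain ⟨i2, hi2, hi2r, hi2i, hx2⟩ := hK i hiR hir hfi
      have hi2' : i2 = i' := (hmem i2 hi2 hi2r).resolve_left hi2i
      subst hi2'
      obtain ⟨r3, hr3, hr3r, hx3⟩ := hFI.col_two hG.card h2 hc' r
      rcases hmem r3 hr3 hr3r with h | h
      · subst h; exact hdis hr3 hr3r hx hx3
      · subst h; exact hdis hr3 hr3r hx2 hx3
    · rw [con_eq_right E hx] at hfi
      obtain ⟨i2, hi2, hi2r, hi2i, hx2⟩ := hK' i hiR hir hfi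
      have hi2' : i2 = i' := (hmem i2 hi2 hi2r).resolve_left hi2i
      subst hi2'
      obtain ⟨r3, hr3, hr3r, hx3⟩ := hFI.col_two hG.card h2 hc r
      rcases hmem r3 hr3 hr3r with h | h
      · subst h; exact hx hx3
      · subst h; exact hdis hr3 hr3r hx3 hx2

end Pool.Agent.Lib.Pfab339
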