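import Mathlib

set_option autoImplicit false

namespace Pool.Agent.Lib.Pfab339

open Finset

variable {α : Type} [DecidableEq α]

/-- permanent of the block with rows `R` and columns `C` of the weight function `w` -/
noncomputable def per (R C : Finset α) (w : α → α → ℚ) : ℚ :=
  ∑ σ : R ≃ C, ∏ i : R, w i (σ i)

/-- remove the pair `r ↦ c` from a bijection -/
def restr {R C : Finset α} {r : α} (hr : r ∈ R) (c : C) (σ : R ≃ C) (hσ : σ ⟨r, hr⟩ = c) :
    (R.erase r : Finset α) ≃ (C.erase c : Finset α) where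
  toFun i := ⟨σ ⟨i, mem_of_mem_erase i.2⟩, by
        refine mem_erase.2 ⟨?_, (σ _).2⟩
        intro h
        have h1 : σ ⟨i, mem_of_mem_erase i.2⟩ = σ ⟨r, hr⟩ := (Subtype.ext h).trans hσ.symm
        have h2 := σ.injective h1
        have h3 : (i : α) = r := by simpa using congrArg Subtype.val h2
        exact (mem_erase.1 i.2).1 h3⟩
  invFun j := ⟨σ.symm ⟨j, mem_of_mem_erase j.2⟩, by
        refine mem_erase.2 ⟨?_, (σ.symm _).2⟩
        intro h
        have h1 : σ.symm ⟨j, mem_of_mem_erase j.2⟩ = ⟨r, hr⟩ := Subtype.ext h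
        have h2 : (⟨j, mem_of_mem_erase j.2⟩ : C) = c := by
          have h4 := congrArg σ h1
          rw [Equiv.apply_symm_apply] at h4
          exact h4.trans hσ
        have h3 : (j : α) = c := by simpa using congrArg Subtype.val h2
        exact (mem_erase.1 j.2).1 h3⟩
  left_inv i := by
        apply Subtype.ext; simp
  right_inv j := by
        apply Subtype.ext; simp

/-- add the pair `r ↦ c` to a bijection -/
def ext {R C : Finset α} {r : α} (hr : r ∈ R) (c : C)
    (τ : (R.erase r : Finset α) ≃ (C.erase c : Finset α)) : R ≃ C where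
  toFun i := if h : (i : α) = r then c else
        ⟨τ ⟨i, mem_erase.2 ⟨h, i.2⟩⟩, mem_of_mem_erase (τ _).2⟩
  invFun j := if h : (j : α) = c then ⟨r, hr⟩ else
        ⟨τ.symm ⟨j, mem_erase.2 ⟨h, j.2⟩⟩, mem_of_mem_erase (τ.symm _).2⟩
  left_inv i := by
        by_cases h : (i : α) = r
        · simp only [h, dite_true]
          exact Subtype.ext h.symm
        · have h2 : (τ ⟨i, mem_erase.2 ⟨h, i.2⟩⟩ : α) ≠ c :=
            (mem_erase.1 (τ ⟨i, mem_erase.2 ⟨h, i.2⟩⟩).2).1
          simp only [h, dite_false, h2]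
          apply Subtype.ext; simp
  right_inv j := by
        by_cases h : (j : α) = c
        · simp only [h, dite_true]
          exact Subtype.ext h.symm
        · have h2 : (τ.symm ⟨j, mem_erase.2 ⟨h, j.2⟩⟩ : α) ≠ r :=
            (mem_erase.1 (τ.symm ⟨j, mem_erase.2 ⟨h, j.2⟩⟩).2).1
          simp only [h, dite_false, h2]
          apply Subtype.ext; simp

theorem ext_apply_self {R C : Finset α} {r : α} (hr : r ∈ R) (c : C)
    (τ : (R.erase r : Finset α) ≃ (C.erase c : Finset α)) : ext hr c τ ⟨r, hr⟩ = c := by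
  simp [ext]

theorem ext_apply_of_ne {R C : Finset α} {r : α} (hr : r ∈ R) (c : C)
    (τ : (R.erase r : Finset α) ≃ (C.erase c : Finset α)) (i : R) (h : (i : α) ≠ r) :
    (ext hr c τ i : α) = τ ⟨i, mem_erase.2 ⟨h, i.2⟩⟩ := by
  simp [ext, h]

theorem per_row {R C : Finset α} {r : α} (hr : r ∈ R) (w : α → α → ℚ) :
    per R C w = ∑ c ∈ C, w r c * per (R.erase r) (C.erase c) w := by
  unfold per
  rw [← Finset.sum_coe_sort C (fun c => w r c * ∑ σ : (R.erase r : Finset α) ≃ (C.erase c : Finset α),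
    ∏ i : (R.erase r : Finset α), w i (σ i))]
  rw [← Finset.sum_fiberwise (s := (univ : Finset (R ≃ C))) (g := fun σ => σ ⟨r, hr⟩)]
  refine Finset.sum_congr rfl (fun c _ => ?_)
  rw [Finset.mul_sum]
  refine Finset.sum_bij' (fun σ hσ => restr hr c σ (by simpa using hσ))
    (fun τ _ => ext hr c τ) (fun _ _ => Finset.mem_univ _) ?_ ?_ ?_ ?_
  · intro τ _
    simp [ext_apply_self]
  · intro σ hσ
    apply Equiv.ext
    intro i
    by_cases h : (i : α) = r
    · have hi : i = ⟨r, hr⟩ := Subtype.ext h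
      subst hi
      rw [ext_apply_self]
      exact (by simpa using hσ : σ ⟨r, hr⟩ = c).symm
    · apply Subtype.ext
      rw [ext_apply_of_ne hr c _ i h]
      rfl
  · intro τ _
    apply Equiv.ext
    intro i
    apply Subtype.ext
    have h : (i : α) ≠ r := (mem_erase.1 i.2).1
    show (ext hr c τ ⟨i, mem_of_mem_erase i.2⟩ : α) = τ i
    rw [ext_apply_of_ne hr c τ ⟨i, mem_of_mem_erase i.2⟩ h]
  · intro σ hσ
    have hσ' : σ ⟨r, hr⟩ = c := by simpa using hσ
    rw [← Finset.mul_prod_erase univ _ (Finset.mem_univ (⟨r, hr⟩ : R))]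
    congr 1
    · rw [hσ']
    · refine Finset.prod_bij' (fun i hi => (⟨i, mem_erase.2 ⟨fun h => (mem_erase.1 hi).1 (Subtype.ext h), i.2⟩⟩ : (R.erase r : Finset α)))
        (fun i _ => (⟨i, mem_of_mem_erase i.2⟩ : R)) (fun _ _ => Finset.mem_univ _) ?_ ?_ ?_ ?_
      · intro i _
        refine mem_erase.2 ⟨?_, Finset.mem_univ _⟩
        intro h
        exact (mem_erase.1 i.2).1 (congrArg Subtype.val h)
      · intro i _; rfl
      · intro i _; rfl
      · intro i _; rfl

theorem per_swap (R C : Finset α) (w : α → α → ℚ) :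
    per R C w = per C R (fun i j => w j i) := by
  unfold per
  refine Fintype.sum_equiv ⟨Equiv.symm, Equiv.symm, fun _ => rfl, fun _ => rfl⟩ _ _ ?_
  intro σ
  refine Fintype.prod_equiv σ _ _ ?_
  intro i
  simp

theorem per_col {R C : Finset α} {c : α} (hc : c ∈ C) (w : α → α → ℚ) :
    per R C w = ∑ r ∈ R, w r c * per (R.erase r) (C.erase c) w := by
  rw [per_swap, per_row hc]
  refine Finset.sum_congr rfl (fun r _ => ?_)
  rw [per_swap (R.erase r) (C.erase c) w]

theorem per_empty (w : α → α → ℚ) : per (∅ : Finset α) ∅ w = 1 := by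
  unfold per
  rw [Fintype.sum_unique]
  simp

theorem per_congr {R C : Finset α} {w w' : α → α → ℚ} (h : ∀ i ∈ R, ∀ j ∈ C, w i j = w' i j) :
    per R C w = per R C w' := by
  unfold per
  refine Finset.sum_congr rfl (fun σ _ => Finset.prod_congr rfl (fun i _ => h i i.2 _ (σ i).2))

theorem per_nonneg {R C : Finset α} {w : α → α → ℚ} (h : ∀ i ∈ R, ∀ j ∈ C, 0 ≤ w i j) :
    0 ≤ per R C w := by
  unfold per
  exact Finset.sum_nonneg (fun σ _ => Finset.prod_nonneg (fun i _ => h i i.2 _ (σ i).2))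

theorem per_mono {R C : Finset α} {w w' : α → α → ℚ} (h0 : ∀ i ∈ R, ∀ j ∈ C, 0 ≤ w i j)
    (h : ∀ i ∈ R, ∀ j ∈ C, w i j ≤ w' i j) :
    per R C w ≤ per R C w' := by
  unfold per
  exact Finset.sum_le_sum (fun σ _ => Finset.prod_le_prod (fun i _ => h0 i i.2 _ (σ i).2)
    (fun i _ => h i i.2 _ (σ i).2))

theorem per_card_ne {R C : Finset α} (h : R.card ≠ C.card) (w : α → α → ℚ) :
    per R C w = 0 := by
  unfold per
  have : IsEmpty (R ≃ C) := by
    constructor
    intro e
    apply h
    have := Fintype.card_congr e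
    simpa using this
  simp

end Pool.Agent.Lib.Pfab339
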