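import Mathlib
import Pool.Agent.Lib.Pfab339.Per
import Pool.Agent.Lib.Pfab339.Contract

set_option autoImplicit false
set_option linter.unusedSectionVars false

namespace Pool.Agent.Lib.Pfab339

open Finset

variable {α : Type} [DecidableEq α]

theorem per2row {R C : Finset α} {w : α → α → ℚ} {r c c' : α} (hr : r ∈ R) (hc : c ∈ C)
    (hc' : c' ∈ C) (hcc : c ≠ c') (h0 : ∀ j ∈ C, j ≠ c → j ≠ c' → w r j = 0) :
    per R C w = w r c * per (R.erase r) (C.erase c) w
      + w r c' * per (R.erase r) (C.erase c') w := by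
  rw [per_row hr]
  have hsub : ({c, c'} : Finset α) ⊆ C := by
    intro a ha
    rcases Finset.mem_insert.1 ha with h | h
    · rw [h]; exact hc
    · rw [Finset.mem_singleton.1 h]; exact hc'
  rw [← Finset.sum_subset hsub, Finset.sum_pair hcc]
  intro j hj hj2
  have : j ≠ c ∧ j ≠ c' := by
    constructor
    · intro h; apply hj2; simp [h]
    · intro h; apply hj2; simp [h]
  rw [h0 j hj this.1 this.2, zero_mul]

theorem per1row {R C : Finset α} {w : α → α → ℚ} {r c : α} (hr : r ∈ R) (hc : c ∈ C)
    (h0 : ∀ j ∈ C, j ≠ c → w r j = 0) :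
    per R C w = w r c * per (R.erase r) (C.erase c) w := by
  rw [per_row hr]
  refine Finset.sum_eq_single c (fun j hj hjc => ?_) (fun h => absurd hc h)
  rw [h0 j hj hjc, zero_mul]

theorem per1col {R C : Finset α} {w : α → α → ℚ} {r c : α} (hr : r ∈ R) (hc : c ∈ C)
    (h0 : ∀ i ∈ R, i ≠ r → w i c = 0) :
    per R C w = w r c * per (R.erase r) (C.erase c) w := by
  rw [per_col hc]
  refine Finset.sum_eq_single r (fun i hi hir => ?_) (fun h => absurd hr h)
  rw [h0 i hi hir, zero_mul]

/-- changing one entry -/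
theorem per_change {R C : Finset α} {w w' : α → α → ℚ} {r c : α} (hr : r ∈ R) (hc : c ∈ C)
    (h : ∀ i ∈ R, ∀ j ∈ C, ¬ (i = r ∧ j = c) → w' i j = w i j) :
    per R C w' = per R C w + (w' r c - w r c) * per (R.erase r) (C.erase c) w := by
  rw [per_row hr w', per_row hr w]
  rw [← Finset.add_sum_erase C _ hc, ← Finset.add_sum_erase C _ hc]
  have e1 : ∀ j ∈ C, per (R.erase r) (C.erase j) w' = per (R.erase r) (C.erase j) w := by
    intro j hj
    apply per_congr
    intro a ha b hb
    exact h a (Finset.mem_of_mem_erase ha) b (Finset.mem_of_mem_erase hb)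
      (fun h' => (Finset.mem_erase.1 ha).1 h'.1)
  have e2 : ∑ j ∈ C.erase c, w' r j * per (R.erase r) (C.erase j) w'
      = ∑ j ∈ C.erase c, w r j * per (R.erase r) (C.erase j) w := by
    refine Finset.sum_congr rfl (fun j hj => ?_)
    have hj' := Finset.mem_erase.1 hj
    rw [e1 j hj'.2, h r hr j hj'.2 (fun h' => hj'.1 h'.2)]
  rw [e2, e1 c hc]
  ring

/-- merging two columns -/
theorem per_merge_cols {R C : Finset α} {w w' : α → α → ℚ} {c c' : α} (hc : c ∈ C)
    (hc' : c' ∈ C) (hcc : c ≠ c')
    (h : ∀ i ∈ R, ∀ j ∈ C, j ≠ c → j ≠ c' → w' i j = w i j)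
    (h' : ∀ i ∈ R, w' i c' = w i c + w i c') :
    per R (C.erase c) w' = per R (C.erase c) w + per R (C.erase c') w := by
  have m1 : c' ∈ C.erase c := Finset.mem_erase.2 ⟨hcc.symm, hc'⟩
  have m2 : c ∈ C.erase c' := Finset.mem_erase.2 ⟨hcc, hc⟩
  rw [per_col m1 w', per_col m1 w, per_col m2 w, ← Finset.sum_add_distrib]
  refine Finset.sum_congr rfl (fun i hi => ?_)
  have e1 : per (R.erase i) ((C.erase c).erase c') w' = per (R.erase i) ((C.erase c).erase c') w := by
    apply per_congr
    intro a ha b hb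
    rw [Finset.mem_erase, Finset.mem_erase] at hb
    exact h a (Finset.mem_of_mem_erase ha) b hb.2.2 hb.2.1 hb.1
  have e2 : (C.erase c').erase c = (C.erase c).erase c' := Finset.erase_right_comm
  rw [e1, e2, h' i hi]
  ring

/-- block splitting -/
theorem per_split (w : α → α → ℚ) : ∀ (S : Finset α) {R C T : Finset α}, S ⊆ R → T ⊆ C →
    R.card = C.card → S.card + T.card = R.card → (∀ a ∈ S, ∀ b ∈ T, w a b = 0) →
    per R C w = per S (C \ T) w * per (R \ S) T w := by
  intro S
  induction S using Finset.induction_on with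
  | empty =>
    intro R C T hS hT hRC hcard hz
    have hTC : T = C := Finset.eq_of_subset_of_card_le hT (by
      rw [Finset.card_empty, zero_add] at hcard; omega)
    subst hTC
    simp [per_empty]
  | insert r S hrS ih =>
    intro R C T hS hT hRC hcard hz
    have hrR : r ∈ R := hS (Finset.mem_insert_self _ _)
    have hSR : S ⊆ R.erase r := fun a ha => Finset.mem_erase.2
      ⟨fun h => hrS (h ▸ ha), hS (Finset.mem_insert_of_mem ha)⟩
    rw [Finset.card_insert_of_notMem hrS] at hcard
    have hRpos : 1 ≤ R.card := Finset.card_pos.2 ⟨r, hrR⟩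
    rw [per_row hrR]
    rw [per_row (Finset.mem_insert_self r S) (C := C \ T)]
    rw [Finset.sum_mul]
    have hsd : C \ T ⊆ C := Finset.sdiff_subset
    rw [← Finset.sum_subset hsd]
    · refine Finset.sum_congr rfl (fun c hc => ?_)
      rw [Finset.mem_sdiff] at hc
      have hTc : T ⊆ C.erase c := fun a ha => Finset.mem_erase.2 ⟨fun h => hc.2 (h ▸ ha), hT ha⟩
      have e := ih hSR hTc (by
        rw [Finset.card_erase_of_mem hrR, Finset.card_erase_of_mem hc.1, hRC]) (by
        rw [Finset.card_erase_of_mem hrR]; omega)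
        (fun a ha b hb => hz a (Finset.mem_insert_of_mem ha) b hb)
      rw [e]
      have e1 : (insert r S).erase r = S := Finset.erase_insert hrS
      have e2 : (C \ T).erase c = C.erase c \ T := by
        ext a; simp only [Finset.mem_erase, Finset.mem_sdiff]; tauto
      have e3 : R.erase r \ S = R \ insert r S := by
        ext a; simp only [Finset.mem_erase, Finset.mem_sdiff, Finset.mem_insert]; tauto
      rw [e1, e2, e3]
      ring
    · intro c hc hcT
      have : c ∈ T := by
        by_contra h
        exact hcT (Finset.mem_sdiff.2 ⟨hc, h⟩)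
      rw [hz r (Finset.mem_insert_self _ _) c this, zero_mul]

theorem zero_block_le {R C : Finset α} {w : α → α → ℚ} (h : per R C w ≠ 0) {S T : Finset α}
    (hS : S ⊆ R) (hT : T ⊆ C) (hz : ∀ a ∈ S, ∀ b ∈ T, w a b = 0) :
    S.card + T.card ≤ R.card := by
  have hRC : R.card = C.card := by
    by_contra hne
    exact h (per_card_ne hne w)
  unfold per at h
  obtain ⟨σ, -, hσ⟩ := Finset.exists_ne_zero_of_sum_ne_zero h
  have hne : ∀ i : R, w i (σ i) ≠ 0 := fun i => Finset.prod_ne_zero_iff.1 hσ i (Finset.mem_univ _)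
  have hle : S.card ≤ (C \ T).card := by
    refine Finset.card_le_card_of_injOn (fun a => if h : a ∈ R then (σ ⟨a, h⟩ : α) else a) ?_ ?_
    · intro a ha
      have haR : a ∈ R := hS ha
      simp only [haR, dite_true]
      refine Finset.mem_coe.2 (Finset.mem_sdiff.2 ⟨(σ ⟨a, haR⟩).2, fun hT' => ?_⟩)
      exact hne ⟨a, haR⟩ (hz a ha _ hT')
    · intro a ha b hb hab
      have haR : a ∈ R := hS ha
      have hbR : b ∈ R := hS hb
      simp only [haR, hbR, dite_true] at hab
      have := σ.injective (Subtype.ext hab)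
      simpa using congrArg Subtype.val this
  rw [Finset.card_sdiff_of_subset hT] at hle
  have := Finset.card_le_card hT
  omega

end Pool.Agent.Lib.Pfab339
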