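import Mathlib
import Pool.Agent.Lib.Pfab339.Val

set_option autoImplicit false
set_option linter.unusedSectionVars false
set_option linter.unusedSimpArgs false

namespace Pool.Agent.Lib.Pfab339

open Finset

variable {α : Type} [DecidableEq α] {M : Type} [CommMonoid M]

/-- product of a function of the entries over the block -/
def agg (f : Ent → M) (R C : Finset α) (E : α → α → Ent) : M := ∏ i ∈ R, ∏ j ∈ C, f (E i j)

theorem agg_tr (f : Ent → M) (R C : Finset α) (E : α → α → Ent) :
    agg f C R (tr E) = agg f R C E := by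
  unfold agg
  rw [Finset.prod_comm]
  rfl

theorem agg_row (f : Ent → M) {R C : Finset α} (E : α → α → Ent) {r : α} (hr : r ∈ R) :
    agg f R C E = (∏ j ∈ C, f (E r j)) * agg f (R.erase r) C E := by
  unfold agg
  rw [Finset.mul_prod_erase R (fun i => ∏ j ∈ C, f (E i j)) hr]

theorem agg_col (f : Ent → M) {R C : Finset α} (E : α → α → Ent) {c : α} (hc : c ∈ C) :
    agg f R C E = (∏ i ∈ R, f (E i c)) * agg f R (C.erase c) E := by
  rw [← agg_tr, agg_row f (tr E) hc, agg_tr]
  rfl

theorem agg_congr (f : Ent → M) {R C : Finset α} {E E' : α → α → Ent}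
    (h : ∀ i ∈ R, ∀ j ∈ C, f (E i j) = f (E' i j)) : agg f R C E = agg f R C E' :=
  Finset.prod_congr rfl (fun i hi => Finset.prod_congr rfl (fun j hj => h i hi j hj))

theorem agg_row_one (f : Ent → M) {R C : Finset α} (E : α → α → Ent) {r c : α} (hr : r ∈ R)
    (hc : c ∈ C) (h : ∀ j ∈ C, j ≠ c → f (E r j) = 1) :
    agg f R C E = f (E r c) * agg f (R.erase r) C E := by
  rw [agg_row f E hr, Finset.prod_eq_single c (fun j hj hjc => h j hj hjc)
    (fun h' => absurd hc h')]

theorem agg_col_one (f : Ent → M) {R C : Finset α} (E : α → α → Ent) {r c : α} (hr : r ∈ R)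
    (hc : c ∈ C) (h : ∀ i ∈ R, i ≠ r → f (E i c) = 1) :
    agg f R C E = f (E r c) * agg f R (C.erase c) E := by
  rw [agg_col f E hc, Finset.prod_eq_single r (fun j hj hjc => h j hj hjc)
    (fun h' => absurd hr h')]

theorem agg_col_none (f : Ent → M) {R C : Finset α} (E : α → α → Ent) {c : α}
    (hc : c ∈ C) (h : ∀ i ∈ R, f (E i c) = 1) :
    agg f R C E = agg f R (C.erase c) E := by
  rw [agg_col f E hc, Finset.prod_eq_one (fun i hi => h i hi), one_mul]

theorem agg_upd (f : Ent → M) {R C : Finset α} (E : α → α → Ent) {a b : α} (ha : a ∈ R)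
    (hb : b ∈ C) (e : Ent) :
    agg f R C (upd E a b e) * f (E a b) = agg f R C E * f e := by
  rw [agg_row f _ ha, agg_row f E ha]
  have h1 : agg f (R.erase a) C (upd E a b e) = agg f (R.erase a) C E := by
    apply agg_congr
    intro i hi j hj
    rw [upd_ne E e (fun h => (Finset.mem_erase.1 hi).1 h.1)]
  rw [h1]
  rw [← Finset.mul_prod_erase C (fun j => f (upd E a b e a j)) hb,
    ← Finset.mul_prod_erase C (fun j => f (E a j)) hb]
  have h2 : ∏ j ∈ C.erase b, f (upd E a b e a j) = ∏ j ∈ C.erase b, f (E a j) := by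
    refine Finset.prod_congr rfl (fun j hj => ?_)
    rw [upd_ne E e (fun h => (Finset.mem_erase.1 hj).1 h.2)]
  rw [h2, upd_self]
  simp only [mul_comm, mul_left_comm, mul_assoc]

theorem agg_con (f : Ent → M) {R C : Finset α} (E : α → α → Ent) {c c' : α} (hc : c ∈ C)
    (hc' : c' ∈ C) (hcc : c ≠ c')
    (h : ∀ i ∈ R, f (E i c) * f (E i c') = f (con E c c' i c')) :
    agg f R C E = agg f R (C.erase c) (con E c c') := by
  have m1 : c' ∈ C.erase c := Finset.mem_erase.2 ⟨hcc.symm, hc'⟩
  unfold agg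
  refine Finset.prod_congr rfl (fun i hi => ?_)
  rw [← Finset.mul_prod_erase C _ hc, ← Finset.mul_prod_erase (C.erase c) _ m1,
    ← Finset.mul_prod_erase (C.erase c) _ m1, ← mul_assoc, h i hi]
  congr 1
  refine Finset.prod_congr rfl (fun j hj => ?_)
  rw [con_ne E (Finset.mem_erase.1 hj).1]

theorem agg_split (f : Ent → M) {R C S T : Finset α} (E : α → α → Ent) (hS : S ⊆ R)
    (hT : T ⊆ C) :
    agg f R C E = agg f S (C \ T) E * agg f (R \ S) T E * (agg f S T E * agg f (R \ S) (C \ T) E) := by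
  have h1 : agg f R C E = agg f S C E * agg f (R \ S) C E := by
    unfold agg
    rw [← Finset.prod_sdiff hS, mul_comm]
  have h2 : ∀ R' : Finset α, agg f R' C E = agg f R' T E * agg f R' (C \ T) E := by
    intro R'
    unfold agg
    rw [← Finset.prod_mul_distrib]
    refine Finset.prod_congr rfl (fun i _ => ?_)
    rw [← Finset.prod_sdiff hT, mul_comm]
  rw [h1, h2 S, h2 (R \ S)]
  simp only [mul_comm, mul_left_comm, mul_assoc]

/-- product of the y-values -/
def Yv (R C : Finset α) (E : α → α → Ent) : ℚ := agg (fun e => (e.y : ℚ)) R C E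

/-- total of the extra orders -/
def Nv (R C : Finset α) (E : α → α → Ent) : ℕ :=
  Multiplicative.toAdd (agg (fun e => Multiplicative.ofAdd e.n) R C E)

theorem Nv_eq (R C : Finset α) (E : α → α → Ent) : Nv R C E = ∑ i ∈ R, ∑ j ∈ C, (E i j).n := by
  unfold Nv agg
  simp [toAdd_prod]

/-- the value of a structure -/
noncomputable def val (R C : Finset α) (E : α → α → Ent) : ℚ :=
  Yv R C E * per R C (fun i j => wt (E i j))

/-- the order of a structure -/
def ord (R C : Finset α) (E : α → α → Ent) : ℕ := R.card + Nv R C E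

theorem val_tr (R C : Finset α) (E : α → α → Ent) : val C R (tr E) = val R C E := by
  unfold val Yv
  rw [agg_tr, per_swap C R]
  rfl

theorem ord_tr {R C : Finset α} (hRC : R.card = C.card) (E : α → α → Ent) :
    ord C R (tr E) = ord R C E := by
  unfold ord Nv
  rw [agg_tr, hRC]

theorem Yv_pos {R C : Finset α} {E : α → α → Ent} (h : ∀ i ∈ R, ∀ j ∈ C, Kind (E i j)) :
    0 < Yv R C E := by
  unfold Yv agg
  refine Finset.prod_pos (fun i hi => Finset.prod_pos (fun j hj => ?_))
  have := (h i hi j hj).y_pos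
  positivity

theorem per_wt_nonneg (R C : Finset α) (E : α → α → Ent) :
    0 ≤ per R C (fun i j => wt (E i j)) := per_nonneg (fun _ _ _ _ => wt_nonneg _)

theorem wt_eq_zero {e : Ent} (h : e.x = 0) : wt e = 0 := by simp [wt, h]

theorem wt_eq_zero' {e : Ent} (hk : Kind e) (h : wt e = 0) : e.x = 0 := by
  have h1 := hk.y_mul_wt
  rw [h, mul_zero] at h1
  exact_mod_cast h1.symm

theorem Kind.y_one {e : Ent} (hk : Kind e) (h : ¬ 1 ≤ e.n) : e.y = 1 := by
  by_cases hx : e.x = 0
  · rw [hk.zero_of_x hx]; rfl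
  · rcases hk.free_or_cost (by omega) with h1 | h1
    · rw [h1]; rfl
    · exact absurd h1.2 h

theorem Kind.y_zero {e : Ent} (hk : Kind e) (h : ¬ 1 ≤ e.x) : e.y = 1 ∧ e.n = 0 := by
  rw [hk.zero_of_x (by omega)]; exact ⟨rfl, rfl⟩

end Pool.Agent.Lib.Pfab339
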