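import Mathlib
import Pool.Agent.Lib.Pfab339.Agg

set_option autoImplicit false
set_option linter.unusedSectionVars false

namespace Pool.Agent.Lib.Pfab339

open Finset

variable {α : Type} [DecidableEq α]

theorem Yv_upd {R C : Finset α} (E : α → α → Ent) {a b : α} (ha : a ∈ R)
    (hb : b ∈ C) (e : Ent) :
    Yv R C (upd E a b e) * (E a b).y = Yv R C E * e.y :=
  agg_upd (fun e => (e.y : ℚ)) E ha hb e

theorem Nv_upd {R C : Finset α} (E : α → α → Ent) {a b : α} (ha : a ∈ R)
    (hb : b ∈ C) (e : Ent) :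
    Nv R C (upd E a b e) + (E a b).n = Nv R C E + e.n := by
  have := congrArg Multiplicative.toAdd (agg_upd (fun e => Multiplicative.ofAdd e.n) E ha hb e)
  simpa [Nv] using this

/-- aggregated quantity when row `r` is reduced to one relevant entry -/
theorem Yv_row {R C : Finset α} (E : α → α → Ent) {r c : α} (hr : r ∈ R)
    (hc : c ∈ C) (h : ∀ j ∈ C, j ≠ c → (E r j).y = 1) :
    Yv R C E = (E r c).y * Yv (R.erase r) C E :=
  agg_row_one (fun e => (e.y : ℚ)) E hr hc (fun j hj hjc => by simp [h j hj hjc])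

theorem Nv_row {R C : Finset α} (E : α → α → Ent) {r c : α} (hr : r ∈ R)
    (hc : c ∈ C) (h : ∀ j ∈ C, j ≠ c → (E r j).n = 0) :
    Nv R C E = (E r c).n + Nv (R.erase r) C E := by
  have := congrArg Multiplicative.toAdd (agg_row_one (fun e => Multiplicative.ofAdd e.n) E hr hc
    (fun j hj hjc => by simp [h j hj hjc]))
  simpa [Nv] using this

theorem Yv_col {R C : Finset α} (E : α → α → Ent) {r c : α} (hr : r ∈ R)
    (hc : c ∈ C) (h : ∀ i ∈ R, i ≠ r → (E i c).y = 1) :
    Yv R C E = (E r c).y * Yv R (C.erase c) E :=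
  agg_col_one (fun e => (e.y : ℚ)) E hr hc (fun j hj hjc => by simp [h j hj hjc])

theorem Nv_col {R C : Finset α} (E : α → α → Ent) {r c : α} (hr : r ∈ R)
    (hc : c ∈ C) (h : ∀ i ∈ R, i ≠ r → (E i c).n = 0) :
    Nv R C E = (E r c).n + Nv R (C.erase c) E := by
  have := congrArg Multiplicative.toAdd (agg_col_one (fun e => Multiplicative.ofAdd e.n) E hr hc
    (fun j hj hjc => by simp [h j hj hjc]))
  simpa [Nv] using this

theorem Yv_con {R C : Finset α} (E : α → α → Ent) {c c' : α} (hc : c ∈ C)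
    (hc' : c' ∈ C) (hcc : c ≠ c')
    (h : ∀ i ∈ R, (E i c).y * (E i c').y = (con E c c' i c').y) :
    Yv R C E = Yv R (C.erase c) (con E c c') :=
  agg_con (fun e => (e.y : ℚ)) E hc hc' hcc (fun i hi => by exact_mod_cast h i hi)

theorem Nv_con {R C : Finset α} (E : α → α → Ent) {c c' : α} (hc : c ∈ C)
    (hc' : c' ∈ C) (hcc : c ≠ c')
    (h : ∀ i ∈ R, (E i c).n + (E i c').n = (con E c c' i c').n) :
    Nv R C E = Nv R (C.erase c) (con E c c') := by
  have := congrArg Multiplicative.toAdd (agg_con (fun e => Multiplicative.ofAdd e.n) E hc hc' hcc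
    (fun i hi => by rw [← ofAdd_add, h i hi]))
  simpa [Nv] using this

theorem Kind.yn_of_nz {e : Ent} (h : e.x = 0 ∨ e = Ent.free) (hk : Kind e) :
    e.y = 1 ∧ e.n = 0 := by
  rcases h with h | h
  · rw [hk.zero_of_x h]; exact ⟨rfl, rfl⟩
  · rw [h]; exact ⟨rfl, rfl⟩

theorem wt_comb {h g : Ent} (hh : 1 ≤ h.y) (hg : 1 ≤ g.x) :
    wt (Ent.comb h g) = wt h + (g.y : ℚ) / g.x := by
  have h1 : (h.y : ℚ) ≠ 0 := by positivity
  have h2 : (g.x : ℚ) ≠ 0 := by positivity
  simp only [wt, Ent.comb]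
  push_cast
  field_simp

theorem wt_merge {h g : Ent} (hh : 1 ≤ h.y) (hg : 1 ≤ g.y) :
    wt (Ent.merge h g) = wt h + wt g := by
  have h1 : (h.y : ℚ) ≠ 0 := by positivity
  have h2 : (g.y : ℚ) ≠ 0 := by positivity
  simp only [wt, Ent.merge]
  push_cast
  field_simp

/-- the peeling step: exact value -/
theorem val_peel {R C : Finset α} {E : α → α → Ent}
    (hk : ∀ i ∈ R, ∀ j ∈ C, Kind (E i j)) {r c c' r1 : α}
    (hr : r ∈ R) (hr1 : r1 ∈ R) (hrr : r1 ≠ r) (hc : c ∈ C) (hc' : c' ∈ C) (hcc : c ≠ c')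
    (hx : 1 ≤ (E r c).x) (hf' : E r c' = Ent.free)
    (honly : ∀ j ∈ C, 1 ≤ (E r j).x → j = c ∨ j = c')
    (hf1 : E r1 c = Ent.free)
    (honlyc : ∀ i ∈ R, 1 ≤ (E i c).x → i = r ∨ i = r1) :
    val R C E = val (R.erase r) (C.erase c) (upd E r1 c' (Ent.comb (E r1 c') (E r c))) := by
  have hr1' : r1 ∈ R.erase r := Finset.mem_erase.2 ⟨hrr, hr1⟩
  have hc'' : c' ∈ C.erase c := Finset.mem_erase.2 ⟨hcc.symm, hc'⟩
  have hc3 : c ∈ C.erase c' := Finset.mem_erase.2 ⟨hcc, hc⟩
  have hky : 1 ≤ (E r1 c').y := (hk r1 hr1 c' hc').y_pos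
  have hgy : 1 ≤ (E r c).y := (hk r hr c hc).y_pos
  have hrow0 : ∀ j ∈ C, j ≠ c → (E r j).x = 0 ∨ E r j = Ent.free := by
    intro j hj hjc
    by_cases hx' : 1 ≤ (E r j).x
    · rcases honly j hj hx' with h | h
      · exact absurd h hjc
      · right; rw [h]; exact hf'
    · left; omega
  have hcol0 : ∀ i ∈ R.erase r, (E i c).x = 0 ∨ E i c = Ent.free := by
    intro i hi
    rw [Finset.mem_erase] at hi
    by_cases hx' : 1 ≤ (E i c).x
    · rcases honlyc i hi.2 hx' with h | h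
      · exact absurd h hi.1
      · right; rw [h]; exact hf1
    · left; omega
  -- Y values
  have y1 : Yv R C E = (E r c).y * Yv (R.erase r) C E :=
    Yv_row E hr hc (fun j hj hjc => ((hk r hr j hj).yn_of_nz (hrow0 j hj hjc)).1)
  have y2 : Yv (R.erase r) C E = Yv (R.erase r) (C.erase c) E := by
    refine agg_col_none (fun e => (e.y : ℚ)) E hc (fun i hi => ?_)
    have := ((hk i (Finset.mem_of_mem_erase hi) c hc).yn_of_nz (hcol0 i hi)).1
    simp [this]
  have y3 := Yv_upd (R := R.erase r) (C := C.erase c) E hr1' hc'' (Ent.comb (E r1 c') (E r c))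
  -- permanents
  set w : α → α → ℚ := fun i j => wt (E i j) with hw
  have p1 : per R C w = w r c * per (R.erase r) (C.erase c) w
      + w r c' * per (R.erase r) (C.erase c') w := by
    apply per2row hr hc hc' hcc
    intro j hj h1 h2
    apply wt_eq_zero
    by_contra hx'
    rcases honly j hj (by omega) with h | h
    · exact h1 h
    · exact h2 h
  have p2 : per (R.erase r) (C.erase c') w
      = w r1 c * per ((R.erase r).erase r1) ((C.erase c').erase c) w := by
    apply per1col hr1' hc3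
    intro i hi hir1
    apply wt_eq_zero
    by_contra hx'
    rw [Finset.mem_erase] at hi
    rcases honlyc i hi.2 (by omega) with h | h
    · exact hi.1 h
    · exact hir1 h
  have p3 := per_change (w := w) (w' := fun i j => wt (upd E r1 c' (Ent.comb (E r1 c') (E r c)) i j))
    hr1' hc'' (by
      intro i hi j hj hne
      simp only [hw]
      rw [upd_ne E _ hne])
  have w1 : w r c' = 1 := by simp [hw, hf']
  have w2 : w r1 c = 1 := by simp [hw, hf1]
  have e2 : (C.erase c').erase c = (C.erase c).erase c' := Finset.erase_right_comm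
  rw [w2, one_mul, e2] at p2
  rw [w1, one_mul, p2] at p1
  simp only [upd_self] at p3
  rw [wt_comb hky hx] at p3
  unfold val
  rw [show (fun i j => wt (E i j)) = w from rfl, p1, p3, y1, y2]
  have hgx : ((E r c).x : ℚ) ≠ 0 := by positivity
  have hgy' : ((E r c).y : ℚ) ≠ 0 := by positivity
  have hky' : ((E r1 c').y : ℚ) ≠ 0 := by positivity
  have y4 : Yv (R.erase r) (C.erase c) (upd E r1 c' (Ent.comb (E r1 c') (E r c)))
      = Yv (R.erase r) (C.erase c) E * (E r c).x := by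
    have h1 : ((Ent.comb (E r1 c') (E r c)).y : ℚ) = (E r1 c').y * (E r c).x := by
      simp [Ent.comb]
    rw [h1] at y3
    have h2 : Yv (R.erase r) (C.erase c) (upd E r1 c' (Ent.comb (E r1 c') (E r c))) *
        ((E r1 c').y : ℚ) = (Yv (R.erase r) (C.erase c) E * (E r c).x) * ((E r1 c').y : ℚ) := by
      rw [y3]; ring
    exact mul_right_cancel₀ hky' h2
  rw [y4]
  have hwrc : w r c = ((E r c).x : ℚ) / (E r c).y := rfl
  have hwr1 : wt (E r1 c') = w r1 c' := rfl
  rw [hwrc, hwr1]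
  field_simp
  ring

theorem ord_peel {R C : Finset α} {E : α → α → Ent}
    (hk : ∀ i ∈ R, ∀ j ∈ C, Kind (E i j)) {r c c' r1 : α}
    (hr : r ∈ R) (hr1 : r1 ∈ R) (hrr : r1 ≠ r) (hc : c ∈ C) (hc' : c' ∈ C) (hcc : c ≠ c')
    (hf' : E r c' = Ent.free)
    (honly : ∀ j ∈ C, 1 ≤ (E r j).x → j = c ∨ j = c')
    (hf1 : E r1 c = Ent.free)
    (honlyc : ∀ i ∈ R, 1 ≤ (E i c).x → i = r ∨ i = r1) :
    ord R C E = ord (R.erase r) (C.erase c) (upd E r1 c' (Ent.comb (E r1 c') (E r c))) := by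
  have hr1' : r1 ∈ R.erase r := Finset.mem_erase.2 ⟨hrr, hr1⟩
  have hc'' : c' ∈ C.erase c := Finset.mem_erase.2 ⟨hcc.symm, hc'⟩
  have hrow0 : ∀ j ∈ C, j ≠ c → (E r j).x = 0 ∨ E r j = Ent.free := by
    intro j hj hjc
    by_cases hx' : 1 ≤ (E r j).x
    · rcases honly j hj hx' with h | h
      · exact absurd h hjc
      · right; rw [h]; exact hf'
    · left; omega
  have hcol0 : ∀ i ∈ R.erase r, (E i c).x = 0 ∨ E i c = Ent.free := by
    intro i hi
    rw [Finset.mem_erase] at hi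
    by_cases hx' : 1 ≤ (E i c).x
    · rcases honlyc i hi.2 hx' with h | h
      · exact absurd h hi.1
      · right; rw [h]; exact hf1
    · left; omega
  have n1 : Nv R C E = (E r c).n + Nv (R.erase r) C E :=
    Nv_row E hr hc (fun j hj hjc => ((hk r hr j hj).yn_of_nz (hrow0 j hj hjc)).2)
  have n2 : Nv (R.erase r) C E = Nv (R.erase r) (C.erase c) E := by
    have h := Nv_col (R := R.erase r) E hr1' hc (fun i hi _ =>
      ((hk i (Finset.mem_of_mem_erase hi) c hc).yn_of_nz (hcol0 i hi)).2)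
    rw [h, hf1]; simp
  have n3 := Nv_upd (R := R.erase r) (C := C.erase c) E hr1' hc'' (Ent.comb (E r1 c') (E r c))
  have hRc := Finset.card_erase_of_mem hr
  have hRpos : 1 ≤ R.card := Finset.card_pos.2 ⟨r, hr⟩
  have n4 : (Ent.comb (E r1 c') (E r c)).n = (E r1 c').n + (E r c).n + 1 := rfl
  unfold ord
  omega

end Pool.Agent.Lib.Pfab339
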