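import Mathlib
import Pool.Agent.Lib.Pfab339.Steps

set_option autoImplicit false
set_option linter.unusedSectionVars false

namespace Pool.Agent.Lib.Pfab339

open Finset

variable {α : Type} [DecidableEq α]

/-- data of the situation where row `r` and column `c'` both have exactly two nonzero entries,
`(r,c')` being free and the two others arbitrary -/
theorem val_T2 {R C : Finset α} {E : α → α → Ent}
    (hk : ∀ i ∈ R, ∀ j ∈ C, Kind (E i j)) {r c c' r' : α}
    (hr : r ∈ R) (hr' : r' ∈ R) (hrr : r' ≠ r) (hc : c ∈ C) (hc' : c' ∈ C) (hcc : c ≠ c')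
    (hf : E r c' = Ent.free)
    (honly : ∀ j ∈ C, 1 ≤ (E r j).x → j = c ∨ j = c')
    (honlyc : ∀ i ∈ R, 1 ≤ (E i c').x → i = r ∨ i = r')
    (hz : (E r' c).x = 0) :
    ∃ Y' Z U : ℚ, 0 ≤ Y' ∧ 0 ≤ Z ∧ 0 ≤ U ∧
      val R C E = Y' * ((E r c).x * (E r' c').x * Z + (E r c).y * (E r' c').y * U) ∧
      (∀ e : Ent, 1 ≤ e.y → val (R.erase r) (C.erase c') (upd E r' c e) = Y' * (e.y * U + e.x * Z)) ∧
      (∀ e : Ent, ord R C E + e.n = ord (R.erase r) (C.erase c') (upd E r' c e) + 1
        + (E r c).n + (E r' c').n) := by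
  have hr1' : r' ∈ R.erase r := Finset.mem_erase.2 ⟨hrr, hr'⟩
  have hc'' : c' ∈ C.erase c := Finset.mem_erase.2 ⟨hcc.symm, hc'⟩
  have hc3 : c ∈ C.erase c' := Finset.mem_erase.2 ⟨hcc, hc⟩
  have hgy : 1 ≤ (E r c).y := (hk r hr c hc).y_pos
  have hgy' : 1 ≤ (E r' c').y := (hk r' hr' c' hc').y_pos
  have hrow0 : ∀ j ∈ C, j ≠ c → (E r j).x = 0 ∨ E r j = Ent.free := by
    intro j hj hjc
    by_cases hx' : 1 ≤ (E r j).x
    · rcases honly j hj hx' with h | h
      · exact absurd h hjc
      · right; rw [h]; exact hf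
    · left; omega
  have hcol0 : ∀ i ∈ R.erase r, i ≠ r' → (E i c').x = 0 := by
    intro i hi hir
    rw [Finset.mem_erase] at hi
    by_contra hx'
    rcases honlyc i hi.2 (by omega) with h | h
    · exact hi.1 h
    · exact hir h
  have y1 : Yv R C E = (E r c).y * Yv (R.erase r) C E :=
    Yv_row E hr hc (fun j hj hjc => ((hk r hr j hj).yn_of_nz (hrow0 j hj hjc)).1)
  have y2 : Yv (R.erase r) C E = (E r' c').y * Yv (R.erase r) (C.erase c') E :=
    Yv_col E hr1' hc' (fun i hi hir =>
      ((hk i (Finset.mem_of_mem_erase hi) c' hc').yn_of_nz (Or.inl (hcol0 i hi hir))).1)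
  have n1 : Nv R C E = (E r c).n + Nv (R.erase r) C E :=
    Nv_row E hr hc (fun j hj hjc => ((hk r hr j hj).yn_of_nz (hrow0 j hj hjc)).2)
  have n2 : Nv (R.erase r) C E = (E r' c').n + Nv (R.erase r) (C.erase c') E :=
    Nv_col E hr1' hc' (fun i hi hir =>
      ((hk i (Finset.mem_of_mem_erase hi) c' hc').yn_of_nz (Or.inl (hcol0 i hi hir))).2)
  set w : α → α → ℚ := fun i j => wt (E i j) with hw
  have p1 : per R C w = w r c * per (R.erase r) (C.erase c) w
      + w r c' * per (R.erase r) (C.erase c') w := by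
    apply per2row hr hc hc' hcc
    intro j hj h1 h2
    apply wt_eq_zero
    by_contra hx'
    rcases honly j hj (by omega) with h | h
    · exact h1 h
    · exact h2 h
  have p2 : per (R.erase r) (C.erase c) w
      = w r' c' * per ((R.erase r).erase r') ((C.erase c).erase c') w := by
    apply per1col hr1' hc''
    intro i hi hir1
    exact wt_eq_zero (hcol0 i hi hir1)
  have w1 : w r c' = 1 := by simp [hw, hf]
  have w2 : w r' c = 0 := by simp only [hw]; exact wt_eq_zero hz
  have e2 : (C.erase c').erase c = (C.erase c).erase c' := Finset.erase_right_comm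
  refine ⟨Yv (R.erase r) (C.erase c') E, per ((R.erase r).erase r') ((C.erase c).erase c') w,
    per (R.erase r) (C.erase c') w, ?_, per_nonneg (fun _ _ _ _ => wt_nonneg _),
    per_nonneg (fun _ _ _ _ => wt_nonneg _), ?_, ?_, ?_⟩
  · exact (Yv_pos (fun i hi j hj => hk i (Finset.mem_of_mem_erase hi) j
      (Finset.mem_of_mem_erase hj))).le
  · unfold val
    rw [show (fun i j => wt (E i j)) = w from rfl, p1, p2, y1, y2, w1]
    have hwrc : w r c = ((E r c).x : ℚ) / (E r c).y := rfl
    have hwrc' : w r' c' = ((E r' c').x : ℚ) / (E r' c').y := rfl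
    rw [hwrc, hwrc']
    have hg1 : ((E r c).y : ℚ) ≠ 0 := by positivity
    have hg2 : ((E r' c').y : ℚ) ≠ 0 := by positivity
    field_simp
  · intro e he
    have y3 := Yv_upd (R := R.erase r) (C := C.erase c') E hr1' hc3 e
    have hy0 : (E r' c).y = 1 := ((hk r' hr' c hc).yn_of_nz (Or.inl hz)).1
    rw [hy0] at y3
    have p3 := per_change (w := w) (w' := fun i j => wt (upd E r' c e i j))
      hr1' hc3 (by
        intro i hi j hj hne
        simp only [hw]
        rw [upd_ne E _ hne])
    simp only [upd_self] at p3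
    rw [w2, sub_zero, e2] at p3
    unfold val
    rw [p3]
    have : Yv (R.erase r) (C.erase c') (upd E r' c e) = Yv (R.erase r) (C.erase c') E * e.y := by
      simpa using y3
    rw [this]
    have hey : (e.y : ℚ) ≠ 0 := by positivity
    unfold wt
    field_simp
  · intro e
    have n3 := Nv_upd (R := R.erase r) (C := C.erase c') E hr1' hc3 e
    have hn0 : (E r' c).n = 0 := ((hk r' hr' c hc).yn_of_nz (Or.inl hz)).2
    have hRc := Finset.card_erase_of_mem hr
    have hRpos : 1 ≤ R.card := Finset.card_pos.2 ⟨r, hr⟩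
    unfold ord
    omega

/-- the contraction step -/
theorem val_contract {R C : Finset α} {E : α → α → Ent}
    (hk : ∀ i ∈ R, ∀ j ∈ C, Kind (E i j)) {r c c' : α}
    (hr : r ∈ R) (hc : c ∈ C) (hc' : c' ∈ C) (hcc : c ≠ c')
    (hf : E r c' = Ent.free)
    (honly : ∀ j ∈ C, 1 ≤ (E r j).x → j = c ∨ j = c')
    (hdis : ∀ i ∈ R, i ≠ r → 1 ≤ (E i c).x → 1 ≤ (E i c').x → False) :
    val R C E ≤ (max (E r c).x (E r c).y : ℕ) * val (R.erase r) (C.erase c) (con E c c') ∧
    ord R C E = ord (R.erase r) (C.erase c) (con E c c') + 1 + (E r c).n := by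
  have hgy : 1 ≤ (E r c).y := (hk r hr c hc).y_pos
  have hrow0 : ∀ j ∈ C, j ≠ c → (E r j).x = 0 ∨ E r j = Ent.free := by
    intro j hj hjc
    by_cases hx' : 1 ≤ (E r j).x
    · rcases honly j hj hx' with h | h
      · exact absurd h hjc
      · right; rw [h]; exact hf
    · left; omega
  have hyn : ∀ i ∈ R.erase r, (E i c).y * (E i c').y = (con E c c' i c').y ∧
      (E i c).n + (E i c').n = (con E c c' i c').n ∧
      wt (con E c c' i c') = wt (E i c) + wt (E i c') := by
    intro i hi
    rw [Finset.mem_erase] at hi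
    by_cases hx : 1 ≤ (E i c).x
    · have hz : (E i c').x = 0 := by
        by_contra h
        exact hdis i hi.2 hi.1 hx (by omega)
      have hz' := (hk i hi.2 c' hc').zero_of_x hz
      rw [con_eq_left E hx, hz']
      simp
    · have hz' := (hk i hi.2 c hc).zero_of_x (by omega)
      rw [con_eq_right E hx, hz']
      simp
  have y1 : Yv R C E = (E r c).y * Yv (R.erase r) C E :=
    Yv_row E hr hc (fun j hj hjc => ((hk r hr j hj).yn_of_nz (hrow0 j hj hjc)).1)
  have n1 : Nv R C E = (E r c).n + Nv (R.erase r) C E :=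
    Nv_row E hr hc (fun j hj hjc => ((hk r hr j hj).yn_of_nz (hrow0 j hj hjc)).2)
  have y2 := Yv_con (R := R.erase r) E hc hc' hcc (fun i hi => (hyn i hi).1)
  have n2 := Nv_con (R := R.erase r) E hc hc' hcc (fun i hi => (hyn i hi).2.1)
  set w : α → α → ℚ := fun i j => wt (E i j) with hw
  have p1 : per R C w = w r c * per (R.erase r) (C.erase c) w
      + w r c' * per (R.erase r) (C.erase c') w := by
    apply per2row hr hc hc' hcc
    intro j hj h1 h2
    apply wt_eq_zero
    by_contra hx'
    rcases honly j hj (by omega) with h | h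
    · exact h1 h
    · exact h2 h
  have p2 := per_merge_cols (R := R.erase r) (w := w) (w' := fun i j => wt (con E c c' i j))
    hc hc' hcc (by
      intro i hi j hj h1 h2
      simp only [hw]
      rw [con_ne E h2]) (fun i hi => (hyn i hi).2.2)
  have w1 : w r c' = 1 := by simp [hw, hf]
  constructor
  · unfold val
    rw [show (fun i j => wt (E i j)) = w from rfl, p1, p2, y1, ← y2, w1]
    have hA : 0 ≤ per (R.erase r) (C.erase c) w := per_nonneg (fun _ _ _ _ => wt_nonneg _)
    have hB : 0 ≤ per (R.erase r) (C.erase c') w := per_nonneg (fun _ _ _ _ => wt_nonneg _)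
    have hY : 0 ≤ Yv (R.erase r) C E := (Yv_pos (fun i hi j hj =>
      hk i (Finset.mem_of_mem_erase hi) j hj)).le
    have hwrc : ((E r c).y : ℚ) * w r c = (E r c).x := (hk r hr c hc).y_mul_wt
    have m1 : ((E r c).x : ℚ) ≤ (max (E r c).x (E r c).y : ℕ) := by
      exact_mod_cast le_max_left _ _
    have m2 : ((E r c).y : ℚ) ≤ (max (E r c).x (E r c).y : ℕ) := by
      exact_mod_cast le_max_right _ _
    have e1 : ((E r c).y : ℚ) * Yv (R.erase r) C E *
        (w r c * per (R.erase r) (C.erase c) w + 1 * per (R.erase r) (C.erase c') w)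
        = Yv (R.erase r) C E * ((((E r c).y : ℚ) * w r c) * per (R.erase r) (C.erase c) w
          + ((E r c).y : ℚ) * per (R.erase r) (C.erase c') w) := by ring
    rw [e1, hwrc]
    have e2 : ((max (E r c).x (E r c).y : ℕ) : ℚ) * (Yv (R.erase r) C E *
        (per (R.erase r) (C.erase c) w + per (R.erase r) (C.erase c') w))
        = Yv (R.erase r) C E * (((max (E r c).x (E r c).y : ℕ) : ℚ) * per (R.erase r) (C.erase c) w
          + ((max (E r c).x (E r c).y : ℕ) : ℚ) * per (R.erase r) (C.erase c') w) := by ring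
    rw [e2]
    apply mul_le_mul_of_nonneg_left _ hY
    exact add_le_add (mul_le_mul_of_nonneg_right m1 hA) (mul_le_mul_of_nonneg_right m2 hB)
  · have hRc := Finset.card_erase_of_mem hr
    have hRpos : 1 ≤ R.card := Finset.card_pos.2 ⟨r, hr⟩
    unfold ord
    omega

/-- the shifting step -/
theorem val_shift {R C : Finset α} {E : α → α → Ent}
    (hk : ∀ i ∈ R, ∀ j ∈ C, Kind (E i j)) {r a b : α}
    (hr : r ∈ R) (ha : a ∈ C) (hb : b ∈ C) (hab : a ≠ b) :
    (val R C E ≤ val R C (upd (upd E r b Ent.zero) r a (Ent.merge (E r a) (E r b))) ∨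
     val R C E ≤ val R C (upd (upd E r a Ent.zero) r b (Ent.merge (E r b) (E r a)))) := by
  have hone : ∀ a b : α, a ∈ C → b ∈ C → a ≠ b →
      val R C (upd (upd E r b Ent.zero) r a (Ent.merge (E r a) (E r b)))
      = val R C E + Yv R C E * (wt (E r b) * (per (R.erase r) (C.erase a) (fun i j => wt (E i j))
        - per (R.erase r) (C.erase b) (fun i j => wt (E i j)))) := by
    intro a b ha hb hab
    have hya : 1 ≤ (E r a).y := (hk r hr a ha).y_pos
    have hyb : 1 ≤ (E r b).y := (hk r hr b hb).y_pos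
    have hya' : ((E r a).y : ℚ) ≠ 0 := by positivity
    have hyb' : ((E r b).y : ℚ) ≠ 0 := by positivity
    have y1 := Yv_upd (R := R) (C := C) E hr hb Ent.zero
    have y2 := Yv_upd (R := R) (C := C) (upd E r b Ent.zero) hr ha (Ent.merge (E r a) (E r b))
    have h1 : upd E r b Ent.zero r a = E r a := upd_ne E _ (fun h => hab h.2)
    rw [h1] at y2
    have y3 : Yv R C (upd (upd E r b Ent.zero) r a (Ent.merge (E r a) (E r b))) = Yv R C E := by
      have e1 : ((Ent.merge (E r a) (E r b)).y : ℚ) = (E r a).y * (E r b).y := by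
        simp [Ent.merge]
      rw [e1] at y2
      have e2 : Yv R C (upd (upd E r b Ent.zero) r a (Ent.merge (E r a) (E r b))) * ((E r a).y : ℚ)
          = Yv R C E * (E r a).y := by
        rw [y2]
        have : Yv R C (upd E r b Ent.zero) * ((E r b).y : ℚ) = Yv R C E := by
          rw [y1]; simp
        rw [← this]; ring
      exact mul_right_cancel₀ hya' e2
    have p1 := per_change (w := fun i j => wt (E i j)) (w' := fun i j => wt (upd E r b Ent.zero i j))
      hr hb (by
        intro i hi j hj hne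
        rw [upd_ne E _ hne])
    have p2 := per_change (w := fun i j => wt (upd E r b Ent.zero i j))
      (w' := fun i j => wt (upd (upd E r b Ent.zero) r a (Ent.merge (E r a) (E r b)) i j))
      hr ha (by
        intro i hi j hj hne
        rw [upd_ne _ _ hne])
    have p3 : per (R.erase r) (C.erase a) (fun i j => wt (upd E r b Ent.zero i j))
        = per (R.erase r) (C.erase a) (fun i j => wt (E i j)) := by
      apply per_congr
      intro i hi j hj
      rw [upd_ne E _ (fun h => (Finset.mem_erase.1 hi).1 h.1)]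
    simp only [upd_self, wt_zero] at p1 p2
    rw [p3, p1, h1, wt_merge hya hyb] at p2
    unfold val
    rw [p2, y3]
    ring
  have hY : 0 ≤ Yv R C E := (Yv_pos hk).le
  have ea := hone a b ha hb hab
  have eb := hone b a hb ha hab.symm
  rcases le_total (per (R.erase r) (C.erase b) (fun i j => wt (E i j)))
    (per (R.erase r) (C.erase a) (fun i j => wt (E i j))) with h | h
  · left
    rw [ea]
    have : 0 ≤ Yv R C E * (wt (E r b) * (per (R.erase r) (C.erase a) (fun i j => wt (E i j))
        - per (R.erase r) (C.erase b) (fun i j => wt (E i j)))) :=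
      mul_nonneg hY (mul_nonneg (wt_nonneg _) (sub_nonneg.2 h))
    linarith
  · right
    rw [eb]
    have : 0 ≤ Yv R C E * (wt (E r a) * (per (R.erase r) (C.erase b) (fun i j => wt (E i j))
        - per (R.erase r) (C.erase a) (fun i j => wt (E i j)))) :=
      mul_nonneg hY (mul_nonneg (wt_nonneg _) (sub_nonneg.2 h))
    linarith

theorem ord_shift {R C : Finset α} {E : α → α → Ent} {r a b : α}
    (hr : r ∈ R) (ha : a ∈ C) (hb : b ∈ C) (hab : a ≠ b) :
    ord R C (upd (upd E r b Ent.zero) r a (Ent.merge (E r a) (E r b))) = ord R C E := by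
  have n1 := Nv_upd (R := R) (C := C) E hr hb Ent.zero
  have n2 := Nv_upd (R := R) (C := C) (upd E r b Ent.zero) hr ha (Ent.merge (E r a) (E r b))
  have h1 : upd E r b Ent.zero r a = E r a := upd_ne E _ (fun h => hab h.2)
  rw [h1] at n2
  have n3 : (Ent.merge (E r a) (E r b)).n = (E r a).n + (E r b).n := rfl
  have n4 : Ent.zero.n = 0 := rfl
  unfold ord
  omega

end Pool.Agent.Lib.Pfab339
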