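import Mathlib
import Pool.Agent.Lib.Pfab339.Steps2

set_option autoImplicit false
set_option linter.unusedSectionVars false

namespace Pool.Agent.Lib.Pfab339

open Finset

variable {α : Type} [DecidableEq α]

/-- the properties of the bounding function -/
structure FProp (F : ℕ → ℕ) : Prop where
  one : ∀ n, 1 ≤ F n
  mul : ∀ a b, F a * F b ≤ F (a + b)
  x : ∀ e, TT e → e.x ≤ F (e.n + 1)
  y : ∀ e, TT e → e.y ≤ F e.n

theorem FProp.mono {F : ℕ → ℕ} (hF : FProp F) {a b : ℕ} (h : a ≤ b) : F a ≤ F b := by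
  obtain ⟨d, rfl⟩ := Nat.exists_eq_add_of_le h
  have h1 := hF.mul a d
  have h2 := hF.one d
  calc F a = F a * 1 := (mul_one _).symm
    _ ≤ F a * F d := Nat.mul_le_mul_left _ h2
    _ ≤ F (a + d) := h1

theorem FProp.max_le {F : ℕ → ℕ} (hF : FProp F) {e : Ent} (he : Kind e) :
    max e.x e.y ≤ F (e.n + 1) := by
  rcases he with h | h
  · rw [h]; simpa using hF.one 1
  · exact Nat.max_le.2 ⟨hF.x e h, (hF.y e h).trans (hF.mono (Nat.le_succ _))⟩

theorem FProp.y_le {F : ℕ → ℕ} (hF : FProp F) {e : Ent} (he : Kind e) : e.y ≤ F e.n := by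
  rcases he with h | h
  · rw [h]; simpa using hF.one 0
  · exact hF.y e h

theorem FProp.prod_le {F : ℕ → ℕ} (hF : FProp F) {ι : Type} [DecidableEq ι] (s : Finset ι)
    (f g : ι → ℕ) (h : ∀ i ∈ s, f i ≤ F (g i)) : ∏ i ∈ s, f i ≤ F (∑ i ∈ s, g i) := by
  induction s using Finset.induction_on with
  | empty => simpa using hF.one 0
  | insert a s ha ih =>
    rw [Finset.prod_insert ha, Finset.sum_insert ha]
    exact (Nat.mul_le_mul (h a (Finset.mem_insert_self _ _))
      (ih (fun i hi => h i (Finset.mem_insert_of_mem hi)))).trans (hF.mul _ _)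

theorem Yv_le {F : ℕ → ℕ} (hF : FProp F) {R C : Finset α} {E : α → α → Ent}
    (hk : ∀ i ∈ R, ∀ j ∈ C, Kind (E i j)) : Yv R C E ≤ F (Nv R C E) := by
  rw [Nv_eq]
  have h1 : Yv R C E = ((∏ i ∈ R, ∏ j ∈ C, (E i j).y : ℕ) : ℚ) := by
    unfold Yv agg; push_cast; rfl
  rw [h1]
  exact_mod_cast hF.prod_le R (fun i => ∏ j ∈ C, (E i j).y) (fun i => ∑ j ∈ C, (E i j).n)
    (fun i hi => hF.prod_le C (fun j => (E i j).y) (fun j => (E i j).n)
      (fun j hj => hF.y_le (hk i hi j hj)))

theorem val_single (i j : α) (E : α → α → Ent) (hk : 1 ≤ (E i j).y) :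
    val {i} {j} E = (E i j).x := by
  unfold val
  rw [per1row (Finset.mem_singleton_self i) (Finset.mem_singleton_self j)
    (fun j' hj' hne => absurd (Finset.mem_singleton.1 hj') hne)]
  have h1 : ({i} : Finset α).erase i = ∅ := by simp
  have h2 : ({j} : Finset α).erase j = ∅ := by simp
  rw [h1, h2, per_empty, mul_one]
  have : Yv {i} {j} E = (E i j).y := by simp [Yv, agg]
  rw [this]
  have h2 : ((E i j).y : ℚ) ≠ 0 := by positivity
  unfold wt; field_simp

theorem ord_single (i j : α) (E : α → α → Ent) : ord {i} {j} E = 1 + (E i j).n := by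
  unfold ord
  rw [Nv_eq]; simp

/-- Induction hypothesis: the bound holds for all structures with fewer rows -/
def IH (F : ℕ → ℕ) (α : Type) [DecidableEq α] (m : ℕ) : Prop :=
  ∀ (R C : Finset α) (E : α → α → Ent), R.card < m → Good R C E →
    val R C E ≤ F (ord R C E)

theorem peel_step {F : ℕ → ℕ} (hF : FProp F) {R C : Finset α} {E : α → α → Ent}
    (hG : Good R C E) (hFI : FI R C E) (ih : IH F α R.card)
    {r c c' r1 : α} (hr : r ∈ R) (hr1 : r1 ∈ R) (hrr : r1 ≠ r) (hc : c ∈ C) (hc' : c' ∈ C)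
    (hcc : c ≠ c') (hx : 1 ≤ (E r c).x) (hf' : E r c' = Ent.free)
    (honly : ∀ j ∈ C, 1 ≤ (E r j).x → j = c ∨ j = c')
    (hf1 : E r1 c = Ent.free)
    (honlyc : ∀ i ∈ R, 1 ≤ (E i c).x → i = r ∨ i = r1) :
    val R C E ≤ F (ord R C E) := by
  have hval := val_peel hG.kind hr hr1 hrr hc hc' hcc hx hf' honly hf1 honlyc
  have hord := ord_peel hG.kind hr hr1 hrr hc hc' hcc hf' honly hf1 honlyc
  have hx' : 1 ≤ (E r c').x := by rw [hf']; simp
  have hx1 : 1 ≤ (E r1 c).x := by rw [hf1]; simp
  have hRc := Finset.card_erase_of_mem hr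
  have hRpos : 1 ≤ R.card := Finset.card_pos.2 ⟨r, hr⟩
  by_cases hfree : E r1 c' = Ent.free
  · -- the order two case
    have hfx : 1 ≤ (E r1 c').x := by rw [hfree]; simp
    obtain ⟨S, T, hb⟩ := hG.prot r1 hr1 c' hc' hfree
    have hcT : c ∉ T := fun h => hcc (hb.zero r1 hb.memS c h hx1).2
    have hrS : r ∉ S := fun h => hrr (hb.zero r h c' hb.memT hx').1.symm
    obtain ⟨hT, hS⟩ := ext_arg (c' := c) hFI hr hx' (fun j hj hx => (honly j hj hx).symm) hrr hb hcT
    obtain ⟨hS2, hT2⟩ := ext_arg (E := tr E) (c' := r) (hFI.tr hG.card) hc hx1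
      (fun j hj hx => (honlyc j hj hx).symm) hcc.symm (hb.tr hG.card) hrS
    have hg : E r c ≠ Ent.free := fun h =>
      hG.noC4 r hr r1 hr1 c hc c' hc' hrr.symm hcc h hf' hf1 hfree
    have hgt : TT (E r c) := by
      rcases (hG.kind r hr c hc).free_or_cost hx with h | h
      · exact absurd h hg
      · exact h.1
    have hgy := (hG.kind r hr c hc)
    rw [hval, hord, ← hS, hS2, ← hT2, hT, val_single, ord_single, upd_self, hfree]
    · have h1 := hF.x _ (TT.add hgt)
      have e1 : (Ent.comb Ent.free (E r c)).x = (Ent.comb (E r c) Ent.free).x := by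
        simp [Ent.comb]
      have e2 : 1 + (Ent.comb Ent.free (E r c)).n = (Ent.comb (E r c) Ent.free).n + 1 := by
        simp only [Ent.comb, free_n]; omega
      rw [e1, e2]
      exact_mod_cast h1
    · rw [upd_self, hfree]
      simpa [Ent.comb] using hx
  · have hh : TT (E r1 c') := by
      rcases hG.kind r1 hr1 c' hc' with h | h
      · exact absurd h hfree
      · exact h
    have hnew : TT (Ent.comb (E r1 c') (E r c)) := Kind.comb hh (hG.kind r hr c hc) hx
    have hn : 1 ≤ (Ent.comb (E r1 c') (E r c)).n := by simp only [Ent.comb]; omega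
    have hG1 := hG.peel hr hc hx hx' hx1 _ hnew hn
    rw [hval, hord]
    exact ih _ _ _ (by omega) hG1

theorem contract_step {F : ℕ → ℕ} (hF : FProp F) {R C : Finset α} {E : α → α → Ent}
    (hG : Good R C E) (hFI : FI R C E) (hOne : One R C E) (h2 : 2 ≤ R.card)
    (ih : IH F α R.card) {r c c' : α} (hL : Line R C E r c c')
    (hK : Comp R E r c) (hK' : Comp R E r c') :
    val R C E ≤ F (ord R C E) := by
  have hx' : 1 ≤ (E r c').x := by rw [hL.free]; simp
  have hG1 := hG.contract hFI hOne hL.memr hL.memc hL.memc' hL.ne hL.nz hx' hL.only hK hK' h2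
  have hRc := Finset.card_erase_of_mem hL.memr
  obtain ⟨h1, h3⟩ := val_contract hG.kind hL.memr hL.memc hL.memc' hL.ne hL.free hL.only
    (fun i hi hir ha hb => con_disjoint hG hFI hOne hL.memr hL.memc hL.memc' hL.ne hL.nz hx'
      hL.only hK hK' hi hir ha hb)
  have h4 := ih _ _ _ (by omega) hG1
  refine h1.trans ?_
  have h5 := hF.max_le (hG.kind r hL.memr c hL.memc)
  have h6 := hF.mul ((E r c).n + 1) (ord (R.erase r) (C.erase c) (con E c c'))
  have h7 : (E r c).n + 1 + ord (R.erase r) (C.erase c) (con E c c') = ord R C E := by omega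
  rw [h7] at h6
  calc ((max (E r c).x (E r c).y : ℕ) : ℚ) * val (R.erase r) (C.erase c) (con E c c')
      ≤ ((max (E r c).x (E r c).y : ℕ) : ℚ) * (F (ord (R.erase r) (C.erase c) (con E c c')) : ℚ) :=
        mul_le_mul_of_nonneg_left h4 (Nat.cast_nonneg _)
    _ ≤ (F ((E r c).n + 1) : ℚ) * (F (ord (R.erase r) (C.erase c) (con E c c')) : ℚ) := by
        apply mul_le_mul_of_nonneg_right _ (Nat.cast_nonneg _)
        exact_mod_cast h5
    _ ≤ F (ord R C E) := by exact_mod_cast h6

theorem T2_step {F : ℕ → ℕ} (hF : FProp F) {R C : Finset α} {E : α → α → Ent}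
    (hG : Good R C E) (hFI : FI R C E) (hOneC : One C R (tr E))
    (ih : IH F α R.card) {r c c' r' : α} (hL : Line R C E r c c')
    (hr' : r' ∈ R) (hrr : r' ≠ r) (hnz' : 1 ≤ (E r' c').x)
    (honlyc : ∀ i ∈ R, 1 ≤ (E i c').x → i = r ∨ i = r')
    (hcost : 1 ≤ (E r c).n) (hcost' : 1 ≤ (E r' c').n)
    {i2 : α} (hi2 : i2 ∈ R) (hi2r : i2 ≠ r) (hi2r' : i2 ≠ r') (hx2 : 1 ≤ (E i2 c).x) :
    val R C E ≤ F (ord R C E) := by
  have hx' : 1 ≤ (E r c').x := by rw [hL.free]; simp
  have hz : (E r' c).x = 0 := by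
    by_contra hne
    have hxx : 1 ≤ (E r' c).x := by omega
    rcases (hG.kind r' hr' c hL.memc).free_or_cost hxx with h | h
    · obtain ⟨S, T, hb⟩ := hG.prot r' hr' c hL.memc h
      have hc'T : c' ∉ T := fun h => hL.ne (hb.zero r' hb.memS c' h hnz').2.symm
      obtain ⟨hT, hS⟩ := ext_arg hFI hL.memr hL.nz hL.only hrr hb hc'T
      have : i2 ∈ S := by rw [hS]; exact Finset.mem_erase.2 ⟨hi2r, hi2⟩
      exact hi2r' (hb.zero i2 this c hb.memT hx2).1
    · exact hrr (hOneC c hL.memc r' hr' r hL.memr h.2 hcost)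
  obtain ⟨Y', Z, U, hY, hZ, hU, hval, hnew, hord⟩ := val_T2 hG.kind hL.memr hr' hrr hL.memc
    hL.memc' hL.ne hL.free hL.only honlyc hz
  have hg := (hG.kind r hL.memr c hL.memc).tt_of_n hcost
  have hg' := (hG.kind r' hr' c' hL.memc').tt_of_n hcost'
  have hRc := Finset.card_erase_of_mem hL.memr
  have hRpos : 1 ≤ R.card := Finset.card_pos.2 ⟨r, hL.memr⟩
  have hyg := hg.1.y_pos
  have hyg' := hg'.1.y_pos
  have good : ∀ e : Ent, TT e → 1 ≤ e.n →
      val (R.erase r) (C.erase c') (upd E r' c e) ≤ F (ord (R.erase r) (C.erase c') (upd E r' c e)) :=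
    fun e he hn => ih _ _ _ (by omega)
      (hG.peel (c := c') (c' := c) hL.memr hL.memc' hx' hL.nz hnz' e he hn)
  rcases le_or_gt (E r' c').y (E r' c').x with h1 | h1
  · -- first combination
    have he : TT (Ent.comb (E r c) (E r' c')) := TT.child hg.1 hg'.1 hg'.2
    have hn : 1 ≤ (Ent.comb (E r c) (E r' c')).n := by simp only [Ent.comb]; omega
    have h2 := good _ he hn
    rw [hnew _ he.y_pos] at h2
    have h3 := hord (Ent.comb (E r c) (E r' c'))
    have h4 : (Ent.comb (E r c) (E r' c')).n = (E r c).n + (E r' c').n + 1 := rfl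
    have h5 : ord (R.erase r) (C.erase c') (upd E r' c (Ent.comb (E r c) (E r' c')))
        = ord R C E := by omega
    rw [h5] at h2
    refine le_trans ?_ h2
    rw [hval]
    apply mul_le_mul_of_nonneg_left _ hY
    simp only [Ent.comb]
    push_cast
    have h6 : ((E r' c').y : ℚ) ≤ (E r' c').x := by exact_mod_cast h1
    have h7 : 0 ≤ ((E r c).y : ℚ) * U := by positivity
    have h8 : 0 ≤ ((E r c).y : ℚ) * (E r' c').y * Z := by positivity
    nlinarith [mul_le_mul_of_nonneg_left h6 h7]
  · rcases le_or_gt (E r c).y (E r c).x with h1' | h1'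
    · have he : TT (Ent.comb (E r' c') (E r c)) := TT.child hg'.1 hg.1 hg.2
      have hn : 1 ≤ (Ent.comb (E r' c') (E r c)).n := by simp only [Ent.comb]; omega
      have h2 := good _ he hn
      rw [hnew _ he.y_pos] at h2
      have h3 := hord (Ent.comb (E r' c') (E r c))
      have h4 : (Ent.comb (E r' c') (E r c)).n = (E r' c').n + (E r c).n + 1 := rfl
      have h5 : ord (R.erase r) (C.erase c') (upd E r' c (Ent.comb (E r' c') (E r c)))
          = ord R C E := by omega
      rw [h5] at h2
      refine le_trans ?_ h2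
      rw [hval]
      apply mul_le_mul_of_nonneg_left _ hY
      simp only [Ent.comb]
      push_cast
      have h6 : ((E r c).y : ℚ) ≤ (E r c).x := by exact_mod_cast h1'
      have h7 : 0 ≤ ((E r' c').y : ℚ) * U := by positivity
      have h8 : 0 ≤ ((E r c).y : ℚ) * (E r' c').y * Z := by positivity
      nlinarith [mul_le_mul_of_nonneg_left h6 h7]
    · have he : TT (Ent.comb Ent.zero Ent.free) := TT.add TT.base
      have hn : 1 ≤ (Ent.comb Ent.zero Ent.free).n := by simp [Ent.comb]
      have h2 := good _ he hn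
      have h2' := hnew _ he.y_pos
      have h3 := hord (Ent.comb Ent.zero Ent.free)
      have h4 : (Ent.comb Ent.zero Ent.free).n = 1 := rfl
      have h4x : (Ent.comb Ent.zero Ent.free).x = 1 := rfl
      have h4y : (Ent.comb Ent.zero Ent.free).y = 1 := rfl
      rw [h4x, h4y] at h2'
      set V := val (R.erase r) (C.erase c') (upd E r' c (Ent.comb Ent.zero Ent.free)) with hV
      set o := ord (R.erase r) (C.erase c') (upd E r' c (Ent.comb Ent.zero Ent.free)) with ho
      have h5 : (E r c).n + (E r' c').n + o = ord R C E := by omega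
      have h6 : val R C E ≤ ((E r c).y * (E r' c').y : ℕ) * V := by
        rw [hval, h2']
        push_cast
        have a1 : ((E r c).x : ℚ) ≤ (E r c).y := by exact_mod_cast h1'.le
        have a2 : ((E r' c').x : ℚ) ≤ (E r' c').y := by exact_mod_cast h1.le
        have a3 : ((E r c).x : ℚ) * (E r' c').x ≤ (E r c).y * (E r' c').y :=
          mul_le_mul a1 a2 (Nat.cast_nonneg _) (Nat.cast_nonneg _)
        have a4 := mul_le_mul_of_nonneg_right a3 hZ
        have a5 : ((E r c).x : ℚ) * (E r' c').x * Z + (E r c).y * (E r' c').y * U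
            ≤ (E r c).y * (E r' c').y * (1 * U + 1 * Z) := by linarith
        calc Y' * (((E r c).x : ℚ) * (E r' c').x * Z + (E r c).y * (E r' c').y * U)
            ≤ Y' * ((E r c).y * (E r' c').y * (1 * U + 1 * Z)) :=
              mul_le_mul_of_nonneg_left a5 hY
          _ = (E r c).y * (E r' c').y * (Y' * ((1 : ℕ) * U + (1 : ℕ) * Z)) := by
              push_cast; ring
      refine h6.trans ?_
      have b1 := hF.y _ hg.1
      have b2 := hF.y _ hg'.1
      have b3 : (E r c).y * (E r' c').y ≤ F ((E r c).n + (E r' c').n) :=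
        (Nat.mul_le_mul b1 b2).trans (hF.mul _ _)
      have b4 := hF.mul ((E r c).n + (E r' c').n) o
      rw [h5] at b4
      calc (((E r c).y * (E r' c').y : ℕ) : ℚ) * V
          ≤ (((E r c).y * (E r' c').y : ℕ) : ℚ) * (F o : ℚ) :=
            mul_le_mul_of_nonneg_left h2 (Nat.cast_nonneg _)
        _ ≤ (F ((E r c).n + (E r' c').n) : ℚ) * (F o : ℚ) := by
            apply mul_le_mul_of_nonneg_right _ (Nat.cast_nonneg _)
            exact_mod_cast b3
        _ ≤ F (ord R C E) := by exact_mod_cast b4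

/-- the case in which the column `c` has exactly one other entry, a costly one -/
theorem A2_step {F : ℕ → ℕ} (hF : FProp F) {R C : Finset α} {E : α → α → Ent}
    (hG : Good R C E) (hFI : FI R C E) (hOneR : One R C E) (hOneC : One C R (tr E))
    (h2 : 2 ≤ R.card) (ih : IH F α R.card) {r c c' r1 : α} (hL : Line R C E r c c')
    (hr1 : r1 ∈ R) (hrr : r1 ≠ r) (hcost1 : 1 ≤ (E r1 c).n)
    (honlyc : ∀ i ∈ R, 1 ≤ (E i c).x → i = r ∨ i = r1) :
    val R C E ≤ F (ord R C E) := by
  have hx' : 1 ≤ (E r c').x := by rw [hL.free]; simp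
  have hg : E r c = Ent.free := by
    rcases (hG.kind r hL.memr c hL.memc).free_or_cost hL.nz with h | h
    · exact h
    · exact absurd (hOneC c hL.memc r1 hr1 r hL.memr hcost1 h.2) hrr
  have hK : Comp R E r c := by
    intro i hi hir hf
    rcases honlyc i hi (by rw [hf]; simp) with h | h
    · exact absurd h hir
    · rw [h] at hf; rw [hf] at hcost1; simp at hcost1
  obtain ⟨r', hr', hrr', hx2⟩ := hFI.col_two hG.card h2 hL.memc' r
  by_cases hB : ∃ r3 ∈ R, r3 ≠ r ∧ r3 ≠ r' ∧ 1 ≤ (E r3 c').x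
  · obtain ⟨r3, hr3, h3r, h3r', hx3⟩ := hB
    refine contract_step hF hG hFI hOneR h2 ih hL hK ?_
    intro i hi hir hf
    by_cases h : i = r'
    · exact ⟨r3, hr3, h3r, fun h' => h3r' (h'.trans h), hx3⟩
    · exact ⟨r', hr', hrr', fun h' => h h'.symm, hx2⟩
  · push Not at hB
    have honlyc' : ∀ i ∈ R, 1 ≤ (E i c').x → i = r ∨ i = r' := by
      intro i hi hx
      by_contra hcon
      push Not at hcon
      have := hB i hi hcon.1 hcon.2
      omega
    by_cases hf' : E r' c' = Ent.free
    · exact peel_step hF hG hFI ih hL.memr hr' hrr' hL.memc' hL.memc hL.ne.symm hx' hg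
        (fun j hj hx => (hL.only j hj hx).symm) hf' honlyc'
    · refine contract_step hF hG hFI hOneR h2 ih hL hK ?_
      intro i hi hir hf
      rcases honlyc' i hi (by rw [hf]; simp) with h | h
      · exact absurd h hir
      · rw [h] at hf; exact absurd hf hf'

theorem line_step {F : ℕ → ℕ} (hF : FProp F) {R C : Finset α} {E : α → α → Ent}
    (hG : Good R C E) (hFI : FI R C E) (hOneR : One R C E) (hOneC : One C R (tr E))
    (h2 : 2 ≤ R.card) (ih : IH F α R.card) {r c c' : α} (hL : Line R C E r c c') :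
    val R C E ≤ F (ord R C E) := by
  have hx' : 1 ≤ (E r c').x := by rw [hL.free]; simp
  obtain ⟨r1, hr1, hrr1, hx1⟩ := hFI.col_two hG.card h2 hL.memc r
  by_cases hA : ∃ r2 ∈ R, r2 ≠ r ∧ r2 ≠ r1 ∧ 1 ≤ (E r2 c).x
  · obtain ⟨r2, hr2, h2r, h2r1, hx2⟩ := hA
    have hK : Comp R E r c := by
      intro i hi hir hf
      by_cases h : i = r1
      · exact ⟨r2, hr2, h2r, fun h' => h2r1 (h'.trans h), hx2⟩
      · exact ⟨r1, hr1, hrr1, fun h' => h h'.symm, hx1⟩
    obtain ⟨r', hr', hrr', hx3⟩ := hFI.col_two hG.card h2 hL.memc' r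
    by_cases hB : ∃ r3 ∈ R, r3 ≠ r ∧ r3 ≠ r' ∧ 1 ≤ (E r3 c').x
    · obtain ⟨r3, hr3, h3r, h3r', hx4⟩ := hB
      refine contract_step hF hG hFI hOneR h2 ih hL hK ?_
      intro i hi hir hf
      by_cases h : i = r'
      · exact ⟨r3, hr3, h3r, fun h' => h3r' (h'.trans h), hx4⟩
      · exact ⟨r', hr', hrr', fun h' => h h'.symm, hx3⟩
    · push Not at hB
      have honlyc' : ∀ i ∈ R, 1 ≤ (E i c').x → i = r ∨ i = r' := by
        intro i hi hx
        by_contra hcon
        push Not at hcon
        have := hB i hi hcon.1 hcon.2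
        omega
      rcases (hG.kind r' hr' c' hL.memc').free_or_cost hx3 with hf' | hcost'
      · rcases (hG.kind r hL.memr c hL.memc).free_or_cost hL.nz with hg | hcost
        · exact peel_step hF hG hFI ih hL.memr hr' hrr' hL.memc' hL.memc hL.ne.symm hx' hg
            (fun j hj hx => (hL.only j hj hx).symm) hf' honlyc'
        · -- transpose
          have hLt : Line C R (tr E) c' r r' :=
            { memr := hL.memc'
              memc := hL.memr
              memc' := hr'
              ne := hrr'.symm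
              nz := by simpa using hx'
              free := by simpa using hf'
              only := fun j hj hx => honlyc' j hj (by simpa using hx) }
          have := A2_step (E := tr E) hF hG.tr (hFI.tr hG.card) hOneC (by simpa using hOneR)
            (by have := hG.card; omega) (by rw [← hG.card]; exact ih) hLt hL.memc hL.ne
            (by simpa using hcost.2) (fun i hi hx => (hL.only i hi (by simpa using hx)).symm)
          rwa [val_tr, ord_tr hG.card] at this
      · rcases (hG.kind r hL.memr c hL.memc).free_or_cost hL.nz with hg | hcost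
        · refine contract_step hF hG hFI hOneR h2 ih hL hK ?_
          intro i hi hir hf
          rcases honlyc' i hi (by rw [hf]; simp) with h | h
          · exact absurd h hir
          · rw [h] at hf
            have := hcost'.2
            rw [hf] at this; simp at this
        · by_cases h : r' = r1
          · exact T2_step hF hG hFI hOneC ih hL hr' hrr' hx3 honlyc' hcost.2 hcost'.2 hr2 h2r
              (fun h' => h2r1 (h'.trans h)) hx2
          · exact T2_step hF hG hFI hOneC ih hL hr' hrr' hx3 honlyc' hcost.2 hcost'.2 hr1 hrr1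
              (fun h' => h h'.symm) hx1
  · push Not at hA
    have honlyc : ∀ i ∈ R, 1 ≤ (E i c).x → i = r ∨ i = r1 := by
      intro i hi hx
      by_contra hcon
      push Not at hcon
      have := hA i hi hcon.1 hcon.2
      omega
    rcases (hG.kind r1 hr1 c hL.memc).free_or_cost hx1 with hf1 | hcost1
    · exact peel_step hF hG hFI ih hL.memr hr1 hrr1 hL.memc hL.memc' hL.ne hL.nz hL.free hL.only
        hf1 honlyc
    · exact A2_step hF hG hFI hOneR hOneC h2 ih hL hr1 hrr1 hcost1.2 honlyc

end Pool.Agent.Lib.Pfab339
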