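import Mathlib
import Pool.Agent.Lib.Pfab339.Upper

set_option autoImplicit false

namespace Pool.Agent.Lib.Pfab339

/-- values for orders below 44 -/
def tab : List ℕ := [1, 1, 1, 2, 3, 4, 5, 7, 10, 13, 17, 24, 33, 43, 58, 81, 109, 142, 195, 270, 360, 471, 657, 891, 1189, 1584, 2187, 2943, 3927, 5328, 7290, 9720, 12970, 17739, 24057, 32103, 43209, 59049, 79461, 106029, 143856, 196830, 262440, 350415]

/-- extreme gadgets of extra order below 32 -/
def VL : List (List (ℕ × ℕ)) := [
  [(0, 1)],
  [(1, 1)],
  [(2, 1)],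
  [(3, 1), (1, 2)],
  [(4, 1), (3, 2), (1, 3)],
  [(5, 2), (4, 3), (1, 4)],
  [(7, 3), (5, 4), (2, 5)],
  [(10, 3), (9, 4), (3, 7)],
  [(13, 4), (10, 7), (6, 9), (3, 10)],
  [(17, 7), (15, 9), (13, 10), (4, 13)],
  [(24, 9), (23, 10), (17, 13), (7, 17)],
  [(33, 10), (30, 13), (24, 17), (16, 21), (9, 24)],
  [(43, 13), (41, 17), (37, 21), (33, 24), (27, 27), (19, 30), (10, 33)],
  [(58, 21), (57, 24), (54, 27), (49, 30), (43, 33), (13, 43)],
  [(81, 27), (79, 30), (76, 33), (56, 43), (38, 51), (24, 57), (21, 58)],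
  [(109, 33), (99, 43), (89, 51), (81, 57), (51, 72), (27, 81)],
  [(142, 43), (140, 51), (138, 57), (123, 72), (108, 81), (87, 90), (63, 99), (33, 109)],
  [(195, 72), (189, 81), (177, 90), (162, 99), (142, 109), (57, 138), (51, 140), (43, 142)],
  [(270, 81), (267, 90), (261, 99), (251, 109), (195, 138), (129, 171), (72, 195)],
  [(360, 109), (333, 138), (300, 171), (267, 195), (225, 216), (162, 243), (81, 270)],
  [(471, 171), (462, 195), (441, 216), (405, 243), (351, 270), (288, 297), (208, 327), (109, 360)],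
  [(657, 216), (648, 243), (621, 270), (585, 297), (535, 327), (469, 360), (171, 471)],
  [(891, 270), (882, 297), (862, 327), (829, 360), (642, 471), (432, 576), (411, 585), (243, 648), (216, 657)],
  [(1189, 360), (1113, 471), (1008, 576), (996, 585), (891, 648), (729, 729), (513, 810), (270, 891)],
  [(1584, 576), (1581, 585), (1539, 648), (1458, 729), (1323, 810), (1161, 891), (951, 981), (687, 1080), (360, 1189)],
  [(2187, 729), (2133, 810), (2052, 891), (1932, 981), (1767, 1080), (1549, 1189), (585, 1581), (576, 1584)],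
  [(2943, 891), (2913, 981), (2847, 1080), (2738, 1189), (2166, 1581), (1818, 1755), (1377, 1944), (729, 2187)],
  [(3927, 1189), (3747, 1581), (3573, 1755), (3321, 1944), (2916, 2187), (2349, 2430), (1701, 2673), (891, 2943)],
  [(5328, 1755), (5265, 1944), (5103, 2187), (4779, 2430), (4374, 2673), (3834, 2943), (3141, 3240), (2269, 3567), (1189, 3927)],
  [(7290, 2187), (7209, 2430), (7047, 2673), (6777, 2943), (6381, 3240), (5836, 3567), (5116, 3927), (3483, 4680), (3336, 4743), (1944, 5265), (1755, 5328)],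
  [(9720, 2943), (9621, 3240), (9403, 3567), (9043, 3927), (8163, 4680), (8079, 4743), (7209, 5265), (6075, 5832), (4374, 6561), (2187, 7290)],
  [(12970, 3927), (12843, 4680), (12822, 4743), (12474, 5265), (11907, 5832), (10935, 6561), (9477, 7290), (7776, 8019), (5616, 8829), (2943, 9720)]]

/-- extreme gadgets of extra order 44, ..., 54 -/
def WL : List (List (ℕ × ℕ)) := [
  [(649539, 196830), (642978, 216513), (628398, 238383), (604341, 262440), (569025, 288927), (531330, 311949), (474255, 346194), (398277, 384183), (299619, 426465), (177147, 472392), (157464, 478953)],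
  [(866781, 262440), (857952, 288927), (843279, 311949), (820449, 346194), (782460, 384183), (726084, 426465), (649539, 472392), (531441, 531441), (373977, 590490), (196830, 649539)],
  [(1166643, 384183), (1152549, 426465), (1121931, 472392), (1062882, 531441), (964467, 590490), (846369, 649539), (693279, 715149), (500823, 787320), (262440, 866781)],
  [(1594323, 531441), (1554957, 590490), (1495908, 649539), (1408428, 715149), (1288143, 787320), (1129221, 866781), (970092, 935847), (730377, 1038582), (426465, 1152549), (384183, 1166643)],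
  [(2145447, 649539), (2123577, 715149), (2075463, 787320), (1996002, 866781), (1905939, 935847), (1768959, 1038582), (1579014, 1152549), (1325322, 1279395), (1003833, 1417176), (531441, 1594323)],
  [(2862783, 866781), (2841786, 935847), (2807541, 1038582), (2731563, 1152549), (2604717, 1279395), (2421009, 1417176), (2125764, 1594323), (1712421, 1771470), (1240029, 1948617), (649539, 2145447)],
  [(3884112, 1279395), (3838185, 1417176), (3720087, 1594323), (3483891, 1771470), (3188646, 1948617), (2794986, 2145447), (2289789, 2361960), (1654101, 2600343), (1038582, 2807541), (935847, 2841786), (866781, 2862783)],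
  [(5314410, 1594323), (5255361, 1771470), (5137263, 1948617), (4940433, 2145447), (4651749, 2361960), (4254444, 2600343), (3846123, 2807541), (3229713, 3115746), (2431944, 3457647), (1417176, 3838185), (1279395, 3884112)],
  [(7085880, 2145447), (7013709, 2361960), (6854787, 2600343), (6653664, 2807541), (6345459, 3115746), (5889591, 3457647), (5255361, 3838185), (4428675, 4251528), (3188646, 4782969), (1594323, 5314410)],
  [(9461205, 3115746), (9347238, 3457647), (9093546, 3838185), (8680203, 4251528), (7971615, 4782969), (6908733, 5314410), (5668704, 5845851), (4094064, 6436341), (2145447, 7085880)],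
  [(12931731, 4251528), (12754584, 4782969), (12223143, 5314410), (11514555, 5845851), (10530405, 6436341), (9231327, 7085880), (7562646, 7801029), (5923287, 8422623), (3457647, 9347238), (3115746, 9461205)]]

/-- the extremal function (for orders at least three) -/
def F (n : ℕ) : ℕ :=
  if n < 44 then tab.getD n 0 else 27 ^ ((n - 33) / 11) * tab.getD (33 + (n - 33) % 11) 0

def V (n : ℕ) : List (ℕ × ℕ) := VL.getD n []
def W (n : ℕ) : List (ℕ × ℕ) := WL.getD n []

/-- `(x, y)` is dominated by the convex hull of the list -/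
def Dm (L : List (ℕ × ℕ)) (x y : ℕ) : Prop :=
  ∀ A B : ℚ, 0 ≤ A → 0 ≤ B → ∃ v ∈ L, A * x + B * y ≤ A * v.1 + B * v.2

def dgo : ℕ × ℕ → List (ℕ × ℕ) → ℕ → ℕ → Bool
  | u, [], x, y => Nat.ble x u.1 && Nat.ble y u.2
  | u, v :: t, x, y => (Nat.ble x u.1 && Nat.ble y u.2) ||
      ((Nat.ble v.1 x && Nat.ble x u.1 && Nat.blt v.1 u.1 &&
        Nat.ble ((u.1 - v.1) * y) ((x - v.1) * u.2 + (u.1 - x) * v.2)) || dgo v t x y)

def dchk : List (ℕ × ℕ) → ℕ → ℕ → Bool
  | [], _, _ => false
  | u :: t, x, y => dgo u t x y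

theorem dgo_sound : ∀ (t : List (ℕ × ℕ)) (u : ℕ × ℕ) (x y : ℕ), dgo u t x y = true →
    Dm (u :: t) x y := by
  intro t
  induction t with
  | nil =>
    intro u x y h A B hA hB
    simp only [dgo, Bool.and_eq_true, Nat.ble_eq] at h
    refine ⟨u, by simp, ?_⟩
    have h1 : (x : ℚ) ≤ u.1 := by exact_mod_cast h.1
    have h2 : (y : ℚ) ≤ u.2 := by exact_mod_cast h.2
    exact add_le_add (mul_le_mul_of_nonneg_left h1 hA) (mul_le_mul_of_nonneg_left h2 hB)
  | cons v t ih =>
    intro u x y h A B hA hB
    simp only [dgo, Bool.or_eq_true, Bool.and_eq_true, Nat.ble_eq, Nat.blt_eq] at h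
    rcases h with h | h | h
    · refine ⟨u, by simp, ?_⟩
      have h1 : (x : ℚ) ≤ u.1 := by exact_mod_cast h.1
      have h2 : (y : ℚ) ≤ u.2 := by exact_mod_cast h.2
      exact add_le_add (mul_le_mul_of_nonneg_left h1 hA) (mul_le_mul_of_nonneg_left h2 hB)
    · obtain ⟨⟨⟨h1, h2⟩, h3⟩, h4⟩ := h
      have c1 : ((u.1 - v.1 : ℕ) : ℚ) = (u.1 : ℚ) - v.1 := by rw [Nat.cast_sub h3.le]
      have c2 : ((x - v.1 : ℕ) : ℚ) = (x : ℚ) - v.1 := by rw [Nat.cast_sub h1]
      have c3 : ((u.1 - x : ℕ) : ℚ) = (u.1 : ℚ) - x := by rw [Nat.cast_sub h2]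
      have h4' : ((u.1 : ℚ) - v.1) * y ≤ ((x : ℚ) - v.1) * u.2 + ((u.1 : ℚ) - x) * v.2 := by
        rw [← c1, ← c2, ← c3]; exact_mod_cast h4
      have h1' : (v.1 : ℚ) ≤ x := by exact_mod_cast h1
      have h2' : (x : ℚ) ≤ u.1 := by exact_mod_cast h2
      have h3' : (v.1 : ℚ) < u.1 := by exact_mod_cast h3
      have key : ((u.1 : ℚ) - v.1) * (A * x + B * y) ≤
          ((x : ℚ) - v.1) * (A * u.1 + B * u.2) + ((u.1 : ℚ) - x) * (A * v.1 + B * v.2) := by
        nlinarith [mul_le_mul_of_nonneg_left h4' hB]
      rcases le_total (A * (v.1 : ℚ) + B * v.2) (A * u.1 + B * u.2) with hh | hh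
      · refine ⟨u, by simp, ?_⟩
        have : ((u.1 : ℚ) - v.1) * (A * x + B * y) ≤ ((u.1 : ℚ) - v.1) * (A * u.1 + B * u.2) := by
          nlinarith [mul_le_mul_of_nonneg_left hh (sub_nonneg.2 h2')]
        exact le_of_mul_le_mul_left this (sub_pos.2 h3')
      · refine ⟨v, by simp, ?_⟩
        have : ((u.1 : ℚ) - v.1) * (A * x + B * y) ≤ ((u.1 : ℚ) - v.1) * (A * v.1 + B * v.2) := by
          nlinarith [mul_le_mul_of_nonneg_left hh (sub_nonneg.2 h1')]
        exact le_of_mul_le_mul_left this (sub_pos.2 h3')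
    · obtain ⟨w, hw, hle⟩ := ih v x y h A B hA hB
      exact ⟨w, List.mem_cons_of_mem _ hw, hle⟩

theorem dchk_sound {L : List (ℕ × ℕ)} {x y : ℕ} (h : dchk L x y = true) : Dm L x y := by
  cases L with
  | nil => simp [dchk] at h
  | cons u t => exact dgo_sound t u x y h

/-- scaling of a list -/
def sc (s : ℕ) (L : List (ℕ × ℕ)) : List (ℕ × ℕ) := L.map (fun v => (s * v.1, s * v.2))

def chk1 : Bool :=
  (List.range 32).all fun a => (List.range 32).all fun b => Nat.ble 32 (a + b + 1) ||
    (V a).all fun v => (V b).all fun u => Nat.beq u.1 0 ||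
      dchk (V (a + b + 1)) (v.1 * u.1 + v.2 * u.2) (v.2 * u.1)

def chk2 : Bool :=
  (List.range 31).all fun a => (V a).all fun v => dchk (V (a + 1)) (v.1 + v.2) v.2

def chk3 : Bool :=
  (List.range 11).all fun a => (List.range 11).all fun b =>
    (W a).all fun v => (W b).all fun u =>
      dchk (sc (27 ^ (4 + (a + b + 1) / 11)) (W ((a + b + 1) % 11)))
        (v.1 * u.1 + v.2 * u.2) (v.2 * u.1)

def chk4 : Bool :=
  (List.range 11).all fun a => (W a).all fun v =>
    dchk (sc (27 ^ ((a + 1) / 11)) (W ((a + 1) % 11))) (v.1 + v.2) v.2 &&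
    dchk (sc (27 ^ ((a + 1) / 11)) (W ((a + 1) % 11))) v.2 v.1

def chk5 : Bool :=
  (List.range 44).all fun a => (List.range 44).all fun b => Nat.ble (F a * F b) (F (a + b))

def chk6 : Bool :=
  ((List.range 32).all fun a => (V a).all fun v => Nat.ble v.1 (F (a + 1))) &&
  ((List.range 11).all fun a => (W a).all fun v => Nat.ble v.1 (F (45 + a)))

def chk7 : Bool := dchk (W 1) (27 ^ 4) (27 ^ 4)

def chk8 : Bool :=
  ((List.range 44).all fun a => Nat.ble 1 (F a)) &&
  ((List.range 12).all fun a => Nat.beq (27 ^ 4 * F (33 + a)) (27 ^ ((32 + a) / 11) * F (45 + (32 + a) % 11)))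

theorem chk7_true : chk7 = true := by decide +kernel
theorem chk8_true : chk8 = true := by decide +kernel
theorem chk1_true : chk1 = true := by decide +kernel
theorem chk2_true : chk2 = true := by decide +kernel
theorem chk3_true : chk3 = true := by decide +kernel
theorem chk4_true : chk4 = true := by decide +kernel
theorem chk5_true : chk5 = true := by decide +kernel
theorem chk6_true : chk6 = true := by decide +kernel

end Pool.Agent.Lib.Pfab339
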