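import Mathlib
import Pool.Agent.Lib.Pfab339.Table

set_option autoImplicit false

namespace Pool.Agent.Lib.Pfab339

theorem F_step {n : ℕ} (h : 44 ≤ n) : F n = 27 * F (n - 11) := by
  unfold F
  rw [if_neg (by omega)]
  by_cases h2 : n - 11 < 44
  · rw [if_pos h2]
    have e1 : (n - 33) / 11 = 1 := by omega
    have e2 : 33 + (n - 33) % 11 = n - 11 := by omega
    rw [e1, e2, pow_one]
  · rw [if_neg h2]
    have e1 : (n - 33) / 11 = (n - 11 - 33) / 11 + 1 := by omega
    have e2 : (n - 33) % 11 = (n - 11 - 33) % 11 := by omega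
    rw [e1, e2, pow_succ]
    ring

theorem F_one (n : ℕ) : 1 ≤ F n := by
  induction n using Nat.strong_induction_on with
  | _ n ih =>
    by_cases h : n < 44
    · have := chk8_true
      simp only [chk8, Bool.and_eq_true, List.all_eq_true, List.mem_range, Nat.ble_eq] at this
      exact this.1 n h
    · rw [F_step (by omega)]
      have := ih (n - 11) (by omega)
      omega

theorem F_mul (a b : ℕ) : F a * F b ≤ F (a + b) := by
  suffices h : ∀ s : ℕ, ∀ a b : ℕ, a + b = s → F a * F b ≤ F (a + b) from h (a + b) a b rfl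
  intro s
  induction s using Nat.strong_induction_on with
  | _ s ih =>
    intro a b hab
    by_cases ha : a < 44
    · by_cases hb : b < 44
      · have := chk5_true
        simp only [chk5, List.all_eq_true, List.mem_range, Nat.ble_eq] at this
        exact this a ha b hb
      · have h1 := ih (a + (b - 11)) (by omega) a (b - 11) rfl
        rw [F_step (n := b) (by omega), F_step (n := a + b) (by omega)]
        have h2 : a + b - 11 = a + (b - 11) := by omega
        rw [h2]
        calc F a * (27 * F (b - 11)) = 27 * (F a * F (b - 11)) := by ring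
          _ ≤ 27 * F (a + (b - 11)) := Nat.mul_le_mul_left _ h1
    · have h1 := ih ((a - 11) + b) (by omega) (a - 11) b rfl
      rw [F_step (n := a) (by omega), F_step (n := a + b) (by omega)]
      have h2 : a + b - 11 = (a - 11) + b := by omega
      rw [h2]
      calc 27 * F (a - 11) * F b = 27 * (F (a - 11) * F b) := by ring
        _ ≤ 27 * F ((a - 11) + b) := Nat.mul_le_mul_left _ h1

theorem inv1 {e : Ent} (h : TT e) : e.n < 32 → Dm (V e.n) e.x e.y := by
  induction h with
  | base =>
    intro _ A B hA hB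
    exact ⟨(0, 1), by simp [V, VL, Ent.zero], by simp [Ent.zero]⟩
  | @add h hh ih =>
    intro hn A B hA hB
    simp only [Ent.comb, free_x, free_y, free_n, mul_one, add_zero] at hn ⊢
    obtain ⟨v, hv, hle⟩ := ih (by omega) A (A + B) hA (add_nonneg hA hB)
    have hc := chk2_true
    simp only [chk2, List.all_eq_true, List.mem_range] at hc
    obtain ⟨z, hz, hle2⟩ := dchk_sound (hc h.n (by omega) v hv) A B hA hB
    refine ⟨z, hz, ?_⟩
    push_cast at hle2 ⊢
    linarith
  | @child h g hh hg hx ih1 ih2 =>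
    intro hn A B hA hB
    simp only [Ent.comb] at hn ⊢
    obtain ⟨v, hv, hle⟩ := ih1 (by omega) (A * g.x) (A * g.y + B * g.x) (by positivity)
      (by positivity)
    obtain ⟨u, hu, hle2⟩ := ih2 (by omega) (A * v.1 + B * v.2) (A * v.2) (by positivity)
      (by positivity)
    by_cases hu1 : u.1 = 0
    · -- then `u` is (0, 1): only possible for the base gadget
      have hc := chk1_true
      simp only [chk1, List.all_eq_true, List.mem_range, Bool.or_eq_true, Nat.ble_eq] at hc
      exfalso
      have hgn : 1 ≤ g.n := by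
        rcases hg.eq_zero_or with h' | h'
        · rw [h'] at hx; simp at hx
        · exact h'.2
      have key : ∀ a ∈ List.range 32, 1 ≤ a → ∀ u ∈ V a, u.1 ≠ 0 := by decide +kernel
      exact key g.n (List.mem_range.2 (by omega)) hgn u hu hu1
    · have hc := chk1_true
      simp only [chk1, List.all_eq_true, List.mem_range, Bool.or_eq_true, Nat.ble_eq] at hc
      have h4 := (hc h.n (by omega) g.n (by omega)).resolve_left (by omega) v hv u hu
      have h5 : Nat.beq u.1 0 ≠ true := by simpa using hu1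
      obtain ⟨z, hz, hle3⟩ := dchk_sound (h4.resolve_left h5) A B hA hB
      refine ⟨z, hz, ?_⟩
      push_cast at hle3 ⊢
      linarith

theorem mem_sc {s : ℕ} {L : List (ℕ × ℕ)} {z : ℕ × ℕ} (h : z ∈ sc s L) :
    ∃ v ∈ L, z = (s * v.1, s * v.2) := by
  unfold sc at h
  obtain ⟨v, hv, hz⟩ := List.mem_map.1 h
  exact ⟨v, hv, hz.symm⟩

theorem inv2 {e : Ent} (h : TT e) : 1 ≤ e.n → ∀ A B : ℚ, 0 ≤ A → 0 ≤ B →
    ∃ v ∈ W (e.n % 11), 27 ^ 4 * (A * e.x + B * e.y) ≤ 27 ^ (e.n / 11) * (A * v.1 + B * v.2) := by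
  induction h with
  | base => intro h; simp at h
  | @add h hh ih =>
    intro _ A B hA hB
    rcases hh.eq_zero_or with h0 | h0
    · subst h0
      obtain ⟨v, hv, hle⟩ := dchk_sound (show dchk (W 1) (27 ^ 4) (27 ^ 4) = true from chk7_true)
        A B hA hB
      refine ⟨v, by simpa [Ent.comb] using hv, ?_⟩
      simp [Ent.comb]
      push_cast at hle
      linarith
    · obtain ⟨v, hv, hle⟩ := ih h0.2 A (A + B) hA (add_nonneg hA hB)
      have hc := chk4_true
      simp only [chk4, List.all_eq_true, List.mem_range, Bool.and_eq_true] at hc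
      obtain ⟨z, hz, hle2⟩ := dchk_sound (hc (h.n % 11) (Nat.mod_lt _ (by norm_num)) v hv).1
        A B hA hB
      obtain ⟨z', hz', hzz⟩ := mem_sc hz
      have e1 : (Ent.comb h Ent.free).n % 11 = (h.n % 11 + 1) % 11 := by
        simp only [Ent.comb, free_n]; omega
      have e2 : (Ent.comb h Ent.free).n / 11 = h.n / 11 + (h.n % 11 + 1) / 11 := by
        simp only [Ent.comb, free_n]; omega
      refine ⟨z', by rw [e1]; exact hz', ?_⟩
      rw [e2]
      rw [hzz] at hle2
      simp only [Ent.comb, free_x, free_y, mul_one]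
      push_cast at hle2 ⊢
      rw [pow_add]
      have hp : (0 : ℚ) < 27 ^ (h.n / 11) := by positivity
      have hh2 := mul_le_mul_of_nonneg_left hle2 hp.le
      calc (27 : ℚ) ^ 4 * (A * (h.x + h.y) + B * h.y) = 27 ^ 4 * (A * h.x + (A + B) * h.y) := by ring
        _ ≤ 27 ^ (h.n / 11) * (A * v.1 + (A + B) * v.2) := hle
        _ = 27 ^ (h.n / 11) * (A * (v.1 + v.2) + B * v.2) := by ring
        _ ≤ _ := hh2
        _ = _ := by ring
  | @child h g hh hg hx ih1 ih2 =>
    intro _ A B hA hB
    have hg0 : 1 ≤ g.n := by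
      rcases hg.eq_zero_or with h' | h'
      · rw [h'] at hx; simp at hx
      · exact h'.2
    rcases hh.eq_zero_or with h0 | h0
    · subst h0
      obtain ⟨v, hv, hle⟩ := ih2 hg0 B A hB hA
      have hc := chk4_true
      simp only [chk4, List.all_eq_true, List.mem_range, Bool.and_eq_true] at hc
      obtain ⟨z, hz, hle2⟩ := dchk_sound (hc (g.n % 11) (Nat.mod_lt _ (by norm_num)) v hv).2
        A B hA hB
      obtain ⟨z', hz', hzz⟩ := mem_sc hz
      have e1 : (Ent.comb Ent.zero g).n % 11 = (g.n % 11 + 1) % 11 := by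
        simp only [Ent.comb, zero_n]; omega
      have e2 : (Ent.comb Ent.zero g).n / 11 = g.n / 11 + (g.n % 11 + 1) / 11 := by
        simp only [Ent.comb, zero_n]; omega
      refine ⟨z', by rw [e1]; exact hz', ?_⟩
      rw [e2]
      rw [hzz] at hle2
      simp only [Ent.comb, zero_x, zero_y, zero_mul, one_mul, zero_add]
      push_cast at hle2 ⊢
      rw [pow_add]
      have hp : (0 : ℚ) < 27 ^ (g.n / 11) := by positivity
      have hh2 := mul_le_mul_of_nonneg_left hle2 hp.le
      calc (27 : ℚ) ^ 4 * (A * g.y + B * g.x) = 27 ^ 4 * (B * g.x + A * g.y) := by ring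
        _ ≤ 27 ^ (g.n / 11) * (B * v.1 + A * v.2) := hle
        _ = 27 ^ (g.n / 11) * (A * v.2 + B * v.1) := by ring
        _ ≤ _ := hh2
        _ = _ := by ring
    · obtain ⟨v, hv, hle⟩ := ih1 h0.2 (A * g.x) (A * g.y + B * g.x) (by positivity) (by positivity)
      obtain ⟨u, hu, hle2⟩ := ih2 hg0 (A * v.1 + B * v.2) (A * v.2) (by positivity) (by positivity)
      have hc := chk3_true
      simp only [chk3, List.all_eq_true, List.mem_range] at hc
      obtain ⟨z, hz, hle3⟩ := dchk_sound (hc (h.n % 11) (Nat.mod_lt _ (by norm_num)) (g.n % 11)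
        (Nat.mod_lt _ (by norm_num)) v hv u hu) A B hA hB
      obtain ⟨z', hz', hzz⟩ := mem_sc hz
      have e1 : (Ent.comb h g).n % 11 = (h.n % 11 + g.n % 11 + 1) % 11 := by
        simp only [Ent.comb]; omega
      have e2 : (Ent.comb h g).n / 11 = h.n / 11 + g.n / 11 + (h.n % 11 + g.n % 11 + 1) / 11 := by
        simp only [Ent.comb]; omega
      refine ⟨z', by rw [e1]; exact hz', ?_⟩
      rw [e2]
      rw [hzz] at hle3
      simp only [Ent.comb]
      push_cast at hle3 ⊢
      set c := (h.n % 11 + g.n % 11 + 1) / 11 with hcdef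
      set p : ℚ := 27 ^ (h.n / 11) with hp
      set q : ℚ := 27 ^ (g.n / 11) with hq
      have hp0 : 0 < p := by positivity
      have hq0 : 0 < q := by positivity
      rw [pow_add, pow_add]
      rw [← hp, ← hq]
      rw [pow_add] at hle3
      -- combine
      have s1 : 27 ^ 4 * (A * ((h.x : ℚ) * g.x + h.y * g.y) + B * (h.y * g.x)) ≤
          p * ((A * v.1 + B * v.2) * g.x + A * v.2 * g.y) := by
        have : A * ((h.x : ℚ) * g.x + h.y * g.y) + B * (h.y * g.x)
            = A * g.x * h.x + (A * g.y + B * g.x) * h.y := by ring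
        rw [this]
        refine hle.trans (le_of_eq ?_)
        ring
      have s2 := mul_le_mul_of_nonneg_left hle2 hp0.le
      have s3 := mul_le_mul_of_nonneg_left hle3 (mul_pos hp0 hq0).le
      have s4 : (27 : ℚ) ^ 4 * (27 ^ 4 * (A * ((h.x : ℚ) * g.x + h.y * g.y) + B * (h.y * g.x)))
          ≤ 27 ^ 4 * (p * q * 27 ^ c * (A * z'.1 + B * z'.2)) := by
        calc (27 : ℚ) ^ 4 * (27 ^ 4 * (A * ((h.x : ℚ) * g.x + h.y * g.y) + B * (h.y * g.x)))
            ≤ 27 ^ 4 * (p * ((A * v.1 + B * v.2) * g.x + A * v.2 * g.y)) :=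
              mul_le_mul_of_nonneg_left s1 (by positivity)
          _ = p * (27 ^ 4 * ((A * v.1 + B * v.2) * g.x + A * v.2 * g.y)) := by ring
          _ ≤ p * (q * ((A * v.1 + B * v.2) * u.1 + A * v.2 * u.2)) := s2
          _ = p * q * (A * (v.1 * u.1 + v.2 * u.2) + B * (v.2 * u.1)) := by ring
          _ ≤ p * q * (A * (27 ^ 4 * 27 ^ c * z'.1) + B * (27 ^ 4 * 27 ^ c * z'.2)) := s3
          _ = 27 ^ 4 * (p * q * 27 ^ c * (A * z'.1 + B * z'.2)) := by ring
      exact le_of_mul_le_mul_left s4 (by positivity)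

theorem F_asym {n : ℕ} (h : 32 ≤ n) : 27 ^ 4 * F (n + 1) = 27 ^ (n / 11) * F (45 + n % 11) := by
  induction n using Nat.strong_induction_on with
  | _ n ih =>
    by_cases h2 : n < 44
    · have hc := chk8_true
      simp only [chk8, Bool.and_eq_true, List.all_eq_true, List.mem_range] at hc
      have h3 := hc.2 (n - 32) (by omega)
      have e1 : 33 + (n - 32) = n + 1 := by omega
      have e2 : 32 + (n - 32) = n := by omega
      rw [e1, e2] at h3
      exact Nat.eq_of_beq_eq_true h3
    · rw [F_step (by omega)]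
      have h3 := ih (n - 11) (by omega) (by omega)
      have e1 : n + 1 - 11 = n - 11 + 1 := by omega
      have e2 : n / 11 = (n - 11) / 11 + 1 := by omega
      have e3 : n % 11 = (n - 11) % 11 := by omega
      rw [e1, e2, e3, pow_succ]
      calc 27 ^ 4 * (27 * F (n - 11 + 1)) = 27 * (27 ^ 4 * F (n - 11 + 1)) := by ring
        _ = 27 * (27 ^ ((n - 11) / 11) * F (45 + (n - 11) % 11)) := by rw [h3]
        _ = _ := by ring

theorem F_x (e : Ent) (h : TT e) : e.x ≤ F (e.n + 1) := by
  have hc := chk6_true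
  simp only [chk6, Bool.and_eq_true, List.all_eq_true, List.mem_range, Nat.ble_eq] at hc
  by_cases hn : e.n < 32
  · obtain ⟨v, hv, hle⟩ := inv1 h hn 1 0 zero_le_one le_rfl
    have h1 : e.x ≤ v.1 := by
      have : (e.x : ℚ) ≤ v.1 := by simpa using hle
      exact_mod_cast this
    exact h1.trans (hc.1 e.n hn v hv)
  · obtain ⟨v, hv, hle⟩ := inv2 h (by omega) 1 0 zero_le_one le_rfl
    have h1 : 27 ^ 4 * e.x ≤ 27 ^ (e.n / 11) * v.1 := by
      have : (27 : ℚ) ^ 4 * e.x ≤ 27 ^ (e.n / 11) * v.1 := by simpa using hle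
      exact_mod_cast this
    have h2 := hc.2 (e.n % 11) (Nat.mod_lt _ (by norm_num)) v hv
    have h3 := F_asym (n := e.n) (by omega)
    have h4 : 27 ^ 4 * e.x ≤ 27 ^ 4 * F (e.n + 1) := by
      rw [h3]; exact h1.trans (Nat.mul_le_mul_left _ h2)
    exact Nat.le_of_mul_le_mul_left h4 (by positivity)

theorem F_y (e : Ent) (h : TT e) : e.y ≤ F e.n := by
  induction h with
  | base => simpa using F_one 0
  | @add h hh ih =>
    simp only [Ent.comb, free_x, free_n, mul_one, add_zero]
    have h1 := F_mul h.n 1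
    have h2 := F_one 1
    calc h.y ≤ F h.n * 1 := by simpa using ih
      _ ≤ F h.n * F 1 := Nat.mul_le_mul_left _ h2
      _ ≤ F (h.n + 1) := h1
  | @child h g hh hg hx ih1 ih2 =>
    simp only [Ent.comb]
    have h1 := F_x g hg
    have h2 := F_mul h.n (g.n + 1)
    exact (Nat.mul_le_mul ih1 h1).trans h2

/-- the extremal function has all the required properties -/
theorem F_prop : FProp F := ⟨F_one, F_mul, F_x, F_y⟩

end Pool.Agent.Lib.Pfab339
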