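import Mathlib
import Pool.Agent.Lib.Pfab339.Tree

set_option autoImplicit false

namespace Pool.Agent.Lib.Pfab339

/-- codes of gadgets -/
inductive Code
  | b : Code
  | a : Code → Code
  | c : Code → Code → Code

namespace Code

def ev : Code → Ent
  | b => Ent.zero
  | a t => Ent.comb t.ev Ent.free
  | c t s => Ent.comb t.ev s.ev

def ok : Code → Bool
  | b => true
  | a t => t.ok
  | c t s => t.ok && s.ok && Nat.ble 1 s.ev.x

theorem tt : ∀ t : Code, t.ok = true → TT t.ev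
  | b, _ => TT.base
  | a t, h => TT.add (tt t h)
  | c t s, h => by
    simp only [ok, Bool.and_eq_true, Nat.ble_eq] at h
    exact TT.child (tt t h.1.1) (tt s h.1.2) h.2

end Code

open Code in
/-- optimal gadgets next to a leaf of weight three, for orders 7, ..., 43 -/
def codes : List Code := [
  (a (a b)),
  (a (a (a b))),
  (a (a (a (a b)))),
  (a (a (c b (a (a b))))),
  (a (a (c b (a (a (a b)))))),
  (a (a (a (c b (a (a (a b))))))),
  (a (a (a (c b (a (a (a (a b)))))))),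
  (a (a (c b (a (a (c b (a (a (a b))))))))),
  (a (a (c (c b (a (a (a b)))) (a (a (a b)))))),
  (a (a (a (c b (a (a (a (c b (a (a (a b))))))))))),
  (a (a (a (c b (a (a (a (c b (a (a (a (a b)))))))))))),
  (a (a (c (c b (a (a (a b)))) (a (a (c b (a (a (a b))))))))),
  (a (a (c (c (c b (a (a (a b)))) (a (a (a b)))) (a (a (a b)))))),
  (a (a (a (c b (a (a (a (c b (a (a (a (c b (a (a (a b))))))))))))))),
  (a (a (c (c b (a (a (a b)))) (a (a (c b (a (a (c b (a (a (a b)))))))))))),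
  (a (a (c (c b (a (a (a b)))) (a (a (c (c b (a (a (a b)))) (a (a (a b))))))))),
  (a (a (a (c b (a (a (c (c (c b (a (a (a b)))) (a (a (a b)))) (a (a (a b)))))))))),
  (a (a (a (c b (a (a (a (c b (a (a (a (c b (a (a (a (c b (a (a (a b))))))))))))))))))),
  (a (a (c (c b (a (a (a b)))) (a (a (c b (a (a (c (c b (a (a (a b)))) (a (a (a b)))))))))))),
  (a (a (c (c (c b (a (a (a b)))) (a (a (a b)))) (a (a (c (c b (a (a (a b)))) (a (a (a b))))))))),
  (a (a (a (c b (a (a (a (c b (a (a (c (c (c b (a (a (a b)))) (a (a (a b)))) (a (a (a b)))))))))))))),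
  (a (a (a (c b (a (a (a (c b (a (a (a (c b (a (a (a (c b (a (a (a (c b (a (a (a b))))))))))))))))))))))),
  (a (a (c (c b (a (a (c (c b (a (a (a b)))) (a (a (a b))))))) (a (a (c (c b (a (a (a b)))) (a (a (a b))))))))),
  (a (a (c (c (c b (a (a (a b)))) (a (a (a b)))) (a (a (c (c (c b (a (a (a b)))) (a (a (a b)))) (a (a (a b))))))))),
  (a (a (a (c b (a (a (a (c b (a (a (a (c b (a (a (c (c (c b (a (a (a b)))) (a (a (a b)))) (a (a (a b)))))))))))))))))),
  (a (a (a (c b (a (a (a (c b (a (a (a (c b (a (a (a (c b (a (a (a (c b (a (a (a (c b (a (a (a b))))))))))))))))))))))))))),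
  (a (a (c (c (c b (a (a (a b)))) (a (a (a b)))) (a (a (c (c b (a (a (a b)))) (a (a (c (c b (a (a (a b)))) (a (a (a b)))))))))))),
  (a (a (a (c b (a (a (c (c (c b (a (a (a b)))) (a (a (a b)))) (a (a (c (c (c b (a (a (a b)))) (a (a (a b)))) (a (a (a b))))))))))))),
  (a (a (a (c b (a (a (a (c b (a (a (a (c b (a (a (a (c b (a (a (c (c (c b (a (a (a b)))) (a (a (a b)))) (a (a (a b)))))))))))))))))))))),
  (a (a (c (c b (a (a (c (c b (a (a (a b)))) (a (a (a b))))))) (a (a (c (c b (a (a (a b)))) (a (a (c (c b (a (a (a b)))) (a (a (a b)))))))))))),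
  (a (a (c (c (c b (a (a (a b)))) (a (a (a b)))) (a (a (c (c b (a (a (a b)))) (a (a (c (c (c b (a (a (a b)))) (a (a (a b)))) (a (a (a b)))))))))))),
  (a (a (a (c b (a (a (a (c b (a (a (c (c (c b (a (a (a b)))) (a (a (a b)))) (a (a (c (c (c b (a (a (a b)))) (a (a (a b)))) (a (a (a b))))))))))))))))),
  (a (a (a (c b (a (a (a (c b (a (a (a (c b (a (a (a (c b (a (a (a (c b (a (a (c (c (c b (a (a (a b)))) (a (a (a b)))) (a (a (a b)))))))))))))))))))))))))),
  (a (a (c (c (c b (a (a (a b)))) (a (a (a b)))) (a (a (c (c b (a (a (a b)))) (a (a (c (c b (a (a (a b)))) (a (a (c (c b (a (a (a b)))) (a (a (a b))))))))))))))),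
  (a (a (c (c (c b (a (a (a b)))) (a (a (a b)))) (a (a (c (c (c b (a (a (a b)))) (a (a (a b)))) (a (a (c (c (c b (a (a (a b)))) (a (a (a b)))) (a (a (a b)))))))))))),
  (a (a (a (c b (a (a (a (c b (a (a (a (c b (a (a (c (c (c b (a (a (a b)))) (a (a (a b)))) (a (a (c (c (c b (a (a (a b)))) (a (a (a b)))) (a (a (a b))))))))))))))))))))),
  (a (a (c (c b (a (a (c (c b (a (a (a b)))) (a (a (a b))))))) (a (a (c (c b (a (a (a b)))) (a (a (c (c b (a (a (a b)))) (a (a (c (c b (a (a (a b)))) (a (a (a b)))))))))))))))]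

def codesOk : Bool :=
  (List.range 37).all fun k =>
    let t := codes.getD k Code.b
    t.ok && Nat.ble 1 t.ev.x && Nat.beq (3 * t.ev.x + t.ev.y) (F (k + 7)) && Nat.beq t.ev.n (k + 2)

theorem codesOk_true : codesOk = true := by decide +kernel

/-- gadgets that can be expanded at a root -/
def Root (x n : ℕ) : Prop := ∃ h g : Ent, TT h ∧ Kind g ∧ 1 ≤ g.x ∧ 1 ≤ h.x ∧
  (Ent.comb h g).x = x ∧ (Ent.comb h g).n + 1 = n

theorem leaf_tt : ∀ k : ℕ, TT ⟨3 * 27 ^ k, 27 ^ k, 3 + 11 * k⟩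
  | 0 => by
    have := TT.add (TT.add (TT.add TT.base))
    simpa [Ent.comb, Ent.zero, Ent.free] using this
  | k + 1 => by
    have h3 : TT ⟨3, 1, 3⟩ := by
      have := TT.add (TT.add (TT.add TT.base))
      simpa [Ent.comb, Ent.zero, Ent.free] using this
    have h2 : TT ⟨2, 1, 2⟩ := by
      have := TT.add (TT.add TT.base)
      simpa [Ent.comb, Ent.zero, Ent.free] using this
    have hk := leaf_tt k
    have h4 := TT.child (TT.child (TT.child h2 h3 (by norm_num)) h3 (by norm_num)) hk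
      (Nat.one_le_iff_ne_zero.2 (by positivity))
    have e : Ent.comb (Ent.comb (Ent.comb ⟨2, 1, 2⟩ ⟨3, 1, 3⟩) ⟨3, 1, 3⟩)
        ⟨3 * 27 ^ k, 27 ^ k, 3 + 11 * k⟩ = ⟨3 * 27 ^ (k + 1), 27 ^ (k + 1), 3 + 11 * (k + 1)⟩ := by
      ext <;> simp only [Ent.comb] <;> ring
    rwa [e] at h4

theorem root_F {n : ℕ} (h3 : 3 ≤ n) : Root (F n) n := by
  have hc := codesOk_true
  simp only [codesOk, List.all_eq_true, List.mem_range, Bool.and_eq_true, Nat.ble_eq] at hc
  by_cases h7 : n < 7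
  · have t1 : TT ⟨1, 1, 1⟩ := by
      have := TT.add TT.base
      simpa [Ent.comb, Ent.zero, Ent.free] using this
    have t2 : TT ⟨2, 1, 2⟩ := by
      have := TT.add t1
      simpa [Ent.comb, Ent.zero, Ent.free] using this
    have t3 : TT ⟨3, 1, 3⟩ := by
      have := TT.add t2
      simpa [Ent.comb, Ent.zero, Ent.free] using this
    have t4 : TT ⟨4, 1, 4⟩ := by
      have := TT.add t3
      simpa [Ent.comb, Ent.zero, Ent.free] using this
    have f : Kind Ent.free := Or.inl rfl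
    obtain rfl | rfl | rfl | rfl : n = 3 ∨ n = 4 ∨ n = 5 ∨ n = 6 := by omega
    · exact ⟨_, _, t1, f, le_rfl, le_rfl, by decide +kernel, rfl⟩
    · exact ⟨_, _, t2, f, le_rfl, by norm_num, by decide +kernel, rfl⟩
    · exact ⟨_, _, t3, f, le_rfl, by norm_num, by decide +kernel, rfl⟩
    · exact ⟨_, _, t4, f, le_rfl, by norm_num, by decide +kernel, rfl⟩
  by_cases h44 : n < 44
  · obtain ⟨⟨⟨h1, h2⟩, h4⟩, h5⟩ := hc (n - 7) (by omega)
    have e4 := Nat.eq_of_beq_eq_true h4
    have e5 := Nat.eq_of_beq_eq_true h5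
    have e6 : n - 7 + 7 = n := by omega
    rw [e6] at e4
    refine ⟨_, ⟨3, 1, 3⟩, Code.tt _ h1, Or.inr ?_, by norm_num, h2, ?_, ?_⟩
    · have := leaf_tt 0
      simpa using this
    · simp only [Ent.comb]; omega
    · simp only [Ent.comb]; omega
  · set k := (n - 33) / 11 with hk
    set j := (n - 33) % 11 with hj
    obtain ⟨⟨⟨h1, h2⟩, h4⟩, h5⟩ := hc (26 + j) (by omega)
    have e4 := Nat.eq_of_beq_eq_true h4
    have e5 := Nat.eq_of_beq_eq_true h5
    have e6 : 26 + j + 7 = 33 + j := by omega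
    rw [e6] at e4
    have eF : F n = 27 ^ k * F (33 + j) := by
      unfold F
      rw [if_neg h44, if_pos (by omega)]
    refine ⟨_, ⟨3 * 27 ^ k, 27 ^ k, 3 + 11 * k⟩, Code.tt _ h1, Or.inr (leaf_tt k),
      Nat.one_le_iff_ne_zero.2 (by positivity), h2, ?_, ?_⟩
    · rw [eF, ← e4]
      simp only [Ent.comb]; ring
    · simp only [Ent.comb]; omega

end Pool.Agent.Lib.Pfab339
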