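import Mathlib
import Pool.Agent.Lib.Pfab339.Upper

set_option autoImplicit false
set_option linter.unusedSectionVars false

namespace Pool.Agent.Lib.Pfab339

open Finset

variable {α : Type} [DecidableEq α]

theorem Good.of_le {R C : Finset α} {E E' : α → α → Ent} (hG : Good R C E)
    (hk : ∀ i ∈ R, ∀ j ∈ C, Kind (E' i j))
    (hf : ∀ i ∈ R, ∀ j ∈ C, E' i j = Ent.free → E i j = Ent.free)
    (hn : ∀ i ∈ R, ∀ j ∈ C, 1 ≤ (E' i j).x → 1 ≤ (E i j).x) : Good R C E' where
  card := hG.card
  kind := hk
  prot := by
    intro i hi j hj h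
    obtain ⟨S, T, hb⟩ := hG.prot i hi j hj (hf i hi j hj h)
    exact ⟨S, T, hb.subR, hb.subC, hb.memS, hb.memT, hb.card,
      fun a ha b hb' hx => hb.zero a ha b hb' (hn a (hb.subR ha) b (hb.subC hb') hx)⟩
  noC4 := by
    intro i hi i' hi' j hj j' hj' hii hjj h1 h2 h3 h4
    exact hG.noC4 i hi i' hi' j hj j' hj' hii hjj (hf _ hi _ hj h1) (hf _ hi _ hj' h2)
      (hf _ hi' _ hj h3) (hf _ hi' _ hj' h4)

theorem Good.split1 {R C : Finset α} {E : α → α → Ent} (hG : Good R C E) {S T : Finset α}
    (hS : S ⊆ R) (hT : T ⊆ C) (hcard : S.card + T.card = R.card)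
    (hper : per (R \ S) T (fun i j => wt (E i j)) ≠ 0) : Good S (C \ T) E where
  card := by
    have := hG.card
    rw [Finset.card_sdiff_of_subset hT]; omega
  kind := fun i hi j hj => hG.kind i (hS hi) j (Finset.mem_sdiff.1 hj).1
  prot := by
    intro i hi j hj hf
    rw [Finset.mem_sdiff] at hj
    obtain ⟨S', T', hb⟩ := hG.prot i (hS hi) j hj.1 hf
    have hle := zero_block_le hper (S := S' \ S) (T := T' ∩ T)
      (Finset.sdiff_subset_sdiff hb.subR (Finset.Subset.refl _)) Finset.inter_subset_right (by
        intro a ha b hb'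
        rw [Finset.mem_sdiff] at ha
        rw [Finset.mem_inter] at hb'
        apply wt_eq_zero
        by_contra hx
        have := (hb.zero a ha.1 b hb'.1 (by omega)).1
        rw [this] at ha
        exact ha.2 hi)
    rw [Finset.card_sdiff_of_subset hS] at hle
    have c1 := Finset.card_sdiff_add_card_inter S' S
    have c2 := Finset.card_sdiff_add_card_inter T' T
    have c3 := Finset.card_le_card hS
    have c4 := hb.card
    refine ⟨S' ∩ S, T' \ T, Finset.inter_subset_right,
      Finset.sdiff_subset_sdiff hb.subC (Finset.Subset.refl _),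
      Finset.mem_inter.2 ⟨hb.memS, hi⟩, Finset.mem_sdiff.2 ⟨hb.memT, hj.2⟩, by omega, ?_⟩
    intro a ha b hb' hx
    exact hb.zero a (Finset.mem_inter.1 ha).1 b (Finset.mem_sdiff.1 hb').1 hx
  noC4 := by
    intro i hi i' hi' j hj j' hj' hii hjj h1 h2 h3 h4
    exact hG.noC4 i (hS hi) i' (hS hi') j (Finset.mem_sdiff.1 hj).1 j' (Finset.mem_sdiff.1 hj').1
      hii hjj h1 h2 h3 h4

theorem Good.split2 {R C : Finset α} {E : α → α → Ent} (hG : Good R C E) {S T : Finset α}
    (hS : S ⊆ R) (hT : T ⊆ C) (hcard : S.card + T.card = R.card)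
    (hper : per S (C \ T) (fun i j => wt (E i j)) ≠ 0) : Good (R \ S) T E where
  card := by
    rw [Finset.card_sdiff_of_subset hS]; omega
  kind := fun i hi j hj => hG.kind i (Finset.mem_sdiff.1 hi).1 j (hT hj)
  prot := by
    intro i hi j hj hf
    rw [Finset.mem_sdiff] at hi
    obtain ⟨S', T', hb⟩ := hG.prot i hi.1 j (hT hj) hf
    have hle := zero_block_le hper (S := S' ∩ S) (T := T' \ T)
      Finset.inter_subset_right (Finset.sdiff_subset_sdiff hb.subC (Finset.Subset.refl _)) (by
        intro a ha b hb'
        rw [Finset.mem_inter] at ha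
        rw [Finset.mem_sdiff] at hb'
        apply wt_eq_zero
        by_contra hx
        have := (hb.zero a ha.1 b hb'.1 (by omega)).1
        rw [this] at ha
        exact hi.2 ha.2)
    have c1 := Finset.card_sdiff_add_card_inter S' S
    have c2 := Finset.card_sdiff_add_card_inter T' T
    have c3 := Finset.card_le_card hS
    have c4 := hb.card
    refine ⟨S' \ S, T' ∩ T, Finset.sdiff_subset_sdiff hb.subR (Finset.Subset.refl _),
      Finset.inter_subset_right,
      Finset.mem_sdiff.2 ⟨hb.memS, hi.2⟩, Finset.mem_inter.2 ⟨hb.memT, hj⟩, ?_, ?_⟩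
    · rw [Finset.card_sdiff_of_subset hS]; omega
    · intro a ha b hb' hx
      exact hb.zero a (Finset.mem_sdiff.1 ha).1 b (Finset.mem_inter.1 hb').1 hx
  noC4 := by
    intro i hi i' hi' j hj j' hj' hii hjj h1 h2 h3 h4
    exact hG.noC4 i (Finset.mem_sdiff.1 hi).1 i' (Finset.mem_sdiff.1 hi').1 j (hT hj) j' (hT hj')
      hii hjj h1 h2 h3 h4

/-- number of nonzero entries -/
def Zv (R C : Finset α) (E : α → α → Ent) : ℕ :=
  Multiplicative.toAdd (agg (fun e => Multiplicative.ofAdd (if 1 ≤ e.x then 1 else 0)) R C E)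

theorem Zv_tr (R C : Finset α) (E : α → α → Ent) : Zv C R (tr E) = Zv R C E := by
  unfold Zv
  rw [agg_tr]

theorem Zv_upd {R C : Finset α} (E : α → α → Ent) {a b : α} (ha : a ∈ R)
    (hb : b ∈ C) (e : Ent) :
    Zv R C (upd E a b e) + (if 1 ≤ (E a b).x then 1 else 0)
      = Zv R C E + (if 1 ≤ e.x then 1 else 0) := by
  have := congrArg Multiplicative.toAdd
    (agg_upd (fun e => Multiplicative.ofAdd (if 1 ≤ e.x then 1 else 0)) E ha hb e)
  simpa [Zv] using this

theorem Good.shift {R C : Finset α} {E : α → α → Ent} (hG : Good R C E) {r a b : α}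
    (hr : r ∈ R) (ha : a ∈ C) (hb : b ∈ C) (hab : a ≠ b) (hca : 1 ≤ (E r a).n)
    (hcb : 1 ≤ (E r b).n) :
    Good R C (upd (upd E r b Ent.zero) r a (Ent.merge (E r a) (E r b))) ∧
    Zv R C (upd (upd E r b Ent.zero) r a (Ent.merge (E r a) (E r b))) < Zv R C E := by
  have ka := (hG.kind r hr a ha).tt_of_n hca
  have kb := (hG.kind r hr b hb).tt_of_n hcb
  have km : TT (Ent.merge (E r a) (E r b)) := ka.1.merge kb.1
  have kn : 1 ≤ (Ent.merge (E r a) (E r b)).n := by simp only [Ent.merge]; omega
  have kx : 1 ≤ (Ent.merge (E r a) (E r b)).x := by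
    rcases km.eq_zero_or with h | h
    · rw [h] at kn; simp at kn
    · exact h.1
  constructor
  · refine hG.of_le ?_ ?_ ?_
    · intro i hi j hj
      by_cases h : i = r ∧ j = a
      · rw [h.1, h.2, upd_self]; exact Or.inr km
      · rw [upd_ne _ _ h]
        by_cases h' : i = r ∧ j = b
        · rw [h'.1, h'.2, upd_self]; exact Or.inr TT.base
        · rw [upd_ne _ _ h']; exact hG.kind i hi j hj
    · intro i hi j hj hf
      by_cases h : i = r ∧ j = a
      · rw [h.1, h.2, upd_self] at hf
        rw [hf] at kn; simp at kn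
      · rw [upd_ne _ _ h] at hf
        by_cases h' : i = r ∧ j = b
        · rw [h'.1, h'.2, upd_self] at hf
          have := congrArg Ent.x hf
          simp at this
        · rwa [upd_ne _ _ h'] at hf
    · intro i hi j hj hx
      by_cases h : i = r ∧ j = a
      · rw [h.1, h.2]; exact ka.2
      · rw [upd_ne _ _ h] at hx
        by_cases h' : i = r ∧ j = b
        · rw [h'.1, h'.2]; exact kb.2
        · rwa [upd_ne _ _ h'] at hx
  · have z1 := Zv_upd (R := R) (C := C) E hr hb Ent.zero
    have z2 := Zv_upd (R := R) (C := C) (upd E r b Ent.zero) hr ha (Ent.merge (E r a) (E r b))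
    have h1 : upd E r b Ent.zero r a = E r a := upd_ne E _ (fun h => hab h.2)
    rw [h1] at z2
    rw [if_pos kb.2, if_neg (by simp)] at z1
    rw [if_pos ka.2, if_pos kx] at z2
    omega

theorem split_step {F : ℕ → ℕ} (hF : FProp F) {R C : Finset α} {E : α → α → Ent}
    (hG : Good R C E) (hFI : ¬ FI R C E) (ih : IH F α R.card) :
    val R C E ≤ F (ord R C E) := by
  by_cases hper : per R C (fun i j => wt (E i j)) = 0
  · unfold val
    rw [hper, mul_zero]
    exact Nat.cast_nonneg _
  unfold FI at hFI
  push Not at hFI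
  obtain ⟨S, T, hS, hT, hSn, hTn, hz, hcard⟩ := hFI
  have hle := zero_block_le hper hS hT (fun a ha b hb => wt_eq_zero (hz a ha b hb))
  have hcard' : S.card + T.card = R.card := le_antisymm hle hcard
  have hsp := per_split (fun i j => wt (E i j)) S hS hT hG.card hcard'
    (fun a ha b hb => wt_eq_zero (hz a ha b hb))
  have h1 : per S (C \ T) (fun i j => wt (E i j)) ≠ 0 := by
    intro h; rw [h, zero_mul] at hsp; exact hper hsp
  have h2 : per (R \ S) T (fun i j => wt (E i j)) ≠ 0 := by
    intro h; rw [h, mul_zero] at hsp; exact hper hsp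
  have hSpos := Finset.card_pos.2 hSn
  have hTpos := Finset.card_pos.2 hTn
  have g1 := hG.split1 hS hT hcard' h2
  have g2 := hG.split2 hS hT hcard' h1
  have b1 := ih _ _ _ (by omega) g1
  have b2 := ih _ _ _ (by rw [Finset.card_sdiff_of_subset hS]; omega) g2
  have hk3 : ∀ i ∈ R \ S, ∀ j ∈ C \ T, Kind (E i j) := fun i hi j hj =>
    hG.kind i (Finset.mem_sdiff.1 hi).1 j (Finset.mem_sdiff.1 hj).1
  have b3 := Yv_le hF hk3
  have ysp : Yv R C E = Yv S (C \ T) E * Yv (R \ S) T E * (Yv S T E * Yv (R \ S) (C \ T) E) :=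
    agg_split _ E hS hT
  have nsp : Nv R C E = Nv S (C \ T) E + Nv (R \ S) T E + (Nv S T E + Nv (R \ S) (C \ T) E) := by
    have := congrArg Multiplicative.toAdd
      (agg_split (fun e : Ent => Multiplicative.ofAdd e.n) E hS hT)
    simpa [Nv] using this
  have hzz : ∀ a ∈ S, ∀ b ∈ T, E a b = Ent.zero := fun a ha b hb =>
    (hG.kind a (hS ha) b (hT hb)).zero_of_x (hz a ha b hb)
  have yz : Yv S T E = 1 := by
    unfold Yv agg
    exact Finset.prod_eq_one (fun i hi => Finset.prod_eq_one (fun j hj => by rw [hzz i hi j hj]; simp))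
  have nz : Nv S T E = 0 := by
    rw [Nv_eq]
    exact Finset.sum_eq_zero (fun i hi => Finset.sum_eq_zero (fun j hj => by rw [hzz i hi j hj]; simp))
  have hval : val R C E = val S (C \ T) E * val (R \ S) T E * Yv (R \ S) (C \ T) E := by
    unfold val
    rw [hsp, ysp, yz]; ring
  have hord : ord R C E = ord S (C \ T) E + ord (R \ S) T E + Nv (R \ S) (C \ T) E := by
    unfold ord
    rw [nsp, nz, Finset.card_sdiff_of_subset hS]
    have := Finset.card_le_card hS
    omega
  rw [hval, hord]
  have v1 : 0 ≤ val S (C \ T) E := mul_nonneg (Yv_pos g1.kind).le (per_wt_nonneg _ _ _)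
  have v2 : 0 ≤ val (R \ S) T E := mul_nonneg (Yv_pos g2.kind).le (per_wt_nonneg _ _ _)
  have v3 : 0 ≤ Yv (R \ S) (C \ T) E := (Yv_pos hk3).le
  have m1 := hF.mul (ord S (C \ T) E) (ord (R \ S) T E)
  have m2 := hF.mul (ord S (C \ T) E + ord (R \ S) T E) (Nv (R \ S) (C \ T) E)
  calc val S (C \ T) E * val (R \ S) T E * Yv (R \ S) (C \ T) E
      ≤ ((F (ord S (C \ T) E) : ℚ) * F (ord (R \ S) T E)) * F (Nv (R \ S) (C \ T) E) :=
        mul_le_mul (mul_le_mul b1 b2 v2 (Nat.cast_nonneg _)) b3 v3 (by positivity)
    _ = ((F (ord S (C \ T) E) * F (ord (R \ S) T E) * F (Nv (R \ S) (C \ T) E) : ℕ) : ℚ) := by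
        push_cast; ring
    _ ≤ F (ord S (C \ T) E + ord (R \ S) T E + Nv (R \ S) (C \ T) E) := by
        exact_mod_cast (Nat.mul_le_mul_right _ m1).trans m2

/-- the main upper bound -/
theorem main_bound {F : ℕ → ℕ} (hF : FProp F) : ∀ m : ℕ, IH F α m := by
  intro m
  induction m with
  | zero => intro R C E h; omega
  | succ m ihm =>
    -- inner induction on the number of nonzero entries
    have inner : ∀ k : ℕ, ∀ (R C : Finset α) (E : α → α → Ent), R.card < m + 1 → Good R C E →
        Zv R C E < k → val R C E ≤ F (ord R C E) := by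
      intro k
      induction k with
      | zero => intro R C E _ _ h; omega
      | succ k ihk =>
        intro R C E hRm hG hZ
        have ih : IH F α R.card := fun R' C' E' h' hG' => ihm R' C' E' (by omega) hG'
        by_cases h0 : R.card = 0
        · have hR : R = ∅ := Finset.card_eq_zero.1 h0
          have hC : C = ∅ := Finset.card_eq_zero.1 (by rw [← hG.card, h0])
          subst hR; subst hC
          have : val (∅ : Finset α) ∅ E = 1 := by
            unfold val
            rw [per_empty]
            simp [Yv, agg]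
          rw [this]
          exact_mod_cast hF.one _
        by_cases h1 : R.card = 1
        · obtain ⟨i, hi⟩ := Finset.card_eq_one.1 h1
          obtain ⟨j, hj⟩ := Finset.card_eq_one.1 (hG.card ▸ h1)
          have hk := hG.kind i (by rw [hi]; simp) j (by rw [hj]; simp)
          rw [hi, hj, val_single _ _ _ hk.y_pos, ord_single]
          have := (le_max_left (E i j).x (E i j).y).trans (hF.max_le hk)
          rw [add_comm]
          exact_mod_cast this
        have h2 : 2 ≤ R.card := by omega
        by_cases hFI : FI R C E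
        · by_cases hOneR : One R C E
          · by_cases hOneC : One C R (tr E)
            · rcases exists_line hG hFI hOneR hOneC h2 with ⟨r, c, c', hL⟩ | ⟨r, c, c', hL⟩
              · exact line_step hF hG hFI hOneR hOneC h2 ih hL
              · have := line_step (E := tr E) hF hG.tr (hFI.tr hG.card) hOneC
                  (by simpa using hOneR) (by have := hG.card; omega) (by rw [← hG.card]; exact ih) hL
                rwa [val_tr, ord_tr hG.card] at this
            · unfold One at hOneC
              push Not at hOneC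
              obtain ⟨r, hr, a, ha, b, hb, hca, hcb, hab⟩ := hOneC
              have s1 := hG.tr.shift hr ha hb hab hca hcb
              have s2 := hG.tr.shift hr hb ha hab.symm hcb hca
              rw [← val_tr, ← ord_tr hG.card]
              rw [← Zv_tr] at hZ
              rcases val_shift hG.tr.kind hr ha hb hab with h | h
              · refine h.trans ?_
                rw [← ord_shift (E := tr E) hr ha hb hab]
                exact ihk _ _ _ (by rw [← hG.card]; omega) s1.1 (by omega)
              · refine h.trans ?_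
                rw [← ord_shift (E := tr E) hr hb ha hab.symm]
                exact ihk _ _ _ (by rw [← hG.card]; omega) s2.1 (by omega)
          · unfold One at hOneR
            push Not at hOneR
            obtain ⟨r, hr, a, ha, b, hb, hca, hcb, hab⟩ := hOneR
            have s1 := hG.shift hr ha hb hab hca hcb
            have s2 := hG.shift hr hb ha hab.symm hcb hca
            rcases val_shift hG.kind hr ha hb hab with h | h
            · refine h.trans ?_
              rw [← ord_shift (E := E) hr ha hb hab]
              exact ihk _ _ _ (by omega) s1.1 (by omega)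
            · refine h.trans ?_
              rw [← ord_shift (E := E) hr hb ha hab.symm]
              exact ihk _ _ _ (by omega) s2.1 (by omega)
        · exact split_step hF hG hFI ih
    intro R C E hRm hG
    exact inner (Zv R C E + 1) R C E hRm hG (by omega)

theorem val_le {F : ℕ → ℕ} (hF : FProp F) {R C : Finset α} {E : α → α → Ent}
    (hG : Good R C E) : val R C E ≤ F (ord R C E) :=
  main_bound hF (R.card + 1) R C E (by omega) hG

end Pool.Agent.Lib.Pfab339
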