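import Mathlib
import Pool.Agent.Lib.Pfab339.Codes
import Pool.Agent.Lib.Pfab339.Main

set_option autoImplicit false
set_option linter.unusedSectionVars false

namespace Pool.Agent.Lib.Pfab339

open Finset

variable {α : Type} [DecidableEq α]

/-- structures used for the construction -/
structure Str (R C : Finset α) (E : α → α → Ent) : Prop where
  card : R.card = C.card
  kind : ∀ i ∈ R, ∀ j ∈ C, Kind (E i j)
  prot : ∀ i ∈ R, ∀ j ∈ C, E i j = Ent.free → ∃ S T, Blk R C E i j S T
  fi : FI R C E

/-- expansion of an entry -/
def expd (E : α → α → Ent) (r1 c' r c : α) (h g : Ent) : α → α → Ent :=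
  fun i j => if i = r then (if j = c then g else if j = c' then Ent.free else Ent.zero)
    else if j = c then (if i = r1 then Ent.free else Ent.zero)
    else if i = r1 ∧ j = c' then h else E i j

theorem val_congr {R C : Finset α} {E E' : α → α → Ent} (h : ∀ i ∈ R, ∀ j ∈ C, E i j = E' i j) :
    val R C E = val R C E' := by
  unfold val
  have h1 : Yv R C E = Yv R C E' := agg_congr _ (fun i hi j hj => by rw [h i hi j hj])
  rw [h1, per_congr (fun i hi j hj => by rw [h i hi j hj])]

theorem ord_congr {R C : Finset α} {E E' : α → α → Ent} (h : ∀ i ∈ R, ∀ j ∈ C, E i j = E' i j) :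
    ord R C E = ord R C E' := by
  unfold ord Nv
  rw [agg_congr _ (fun i hi j hj => by rw [h i hi j hj])]

section expand

variable {R C : Finset α} {E : α → α → Ent} {r1 c' r c : α} {h g : Ent}

theorem expd_rc : expd E r1 c' r c h g r c = g := by simp [expd]

theorem expd_rc' (hcc : c' ≠ c) : expd E r1 c' r c h g r c' = Ent.free := by simp [expd, hcc]

theorem expd_r {j : α} (h1 : j ≠ c) (h2 : j ≠ c') : expd E r1 c' r c h g r j = Ent.zero := by
  simp [expd, h1, h2]

theorem expd_r1c (hrr : r1 ≠ r) : expd E r1 c' r c h g r1 c = Ent.free := by simp [expd, hrr]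

theorem expd_c {i : α} (h1 : i ≠ r) (h2 : i ≠ r1) : expd E r1 c' r c h g i c = Ent.zero := by
  simp [expd, h1, h2]

theorem expd_r1c' (hrr : r1 ≠ r) (hcc : c' ≠ c) : expd E r1 c' r c h g r1 c' = h := by
  simp [expd, hrr, hcc]

theorem expd_old {i j : α} (hi : i ≠ r) (hj : j ≠ c) (h' : ¬ (i = r1 ∧ j = c')) :
    expd E r1 c' r c h g i j = E i j := by
  simp only [expd, hi, hj, if_false, if_neg h']

theorem expand (hS : Str R C E) (hr : r ∉ R) (hc : c ∉ C) (hr1 : r1 ∈ R) (hc' : c' ∈ C)
    (hE : E r1 c' = Ent.comb h g) (hh : TT h) (hg : Kind g) (hgx : 1 ≤ g.x)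
    (hroot : 2 ≤ R.card ∨ 1 ≤ h.x) :
    Str (insert r R) (insert c C) (expd E r1 c' r c h g) ∧
    val (insert r R) (insert c C) (expd E r1 c' r c h g) = val R C E ∧
    ord (insert r R) (insert c C) (expd E r1 c' r c h g) = ord R C E := by
  set E' := expd E r1 c' r c h g with hE'
  have hrr : r1 ≠ r := fun e => hr (e ▸ hr1)
  have hcc : c' ≠ c := fun e => hc (e ▸ hc')
  have hnr : ∀ i ∈ R, i ≠ r := fun i hi e => hr (e ▸ hi)
  have hnc : ∀ j ∈ C, j ≠ c := fun j hj e => hc (e ▸ hj)
  have hEx : 1 ≤ (E r1 c').x := by
    rw [hE]; simp only [Ent.comb]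
    have h1 := hh.y_pos
    have h2 := hg.y_pos
    have : 1 ≤ h.y * g.y := Nat.one_le_iff_ne_zero.2 (by positivity)
    omega
  have hEn : 1 ≤ (E r1 c').n := by rw [hE]; simp only [Ent.comb]; omega
  have cR : (insert r R).card = R.card + 1 := Finset.card_insert_of_notMem hr
  have cC : (insert c C).card = C.card + 1 := Finset.card_insert_of_notMem hc
  have old : ∀ i ∈ R, ∀ j ∈ C, ¬ (i = r1 ∧ j = c') → E' i j = E i j := fun i hi j hj h' =>
    expd_old (hnr i hi) (hnc j hj) h'
  have kinds : ∀ i ∈ insert r R, ∀ j ∈ insert c C, Kind (E' i j) := by
    intro i hi j hj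
    rcases Finset.mem_insert.1 hi with h1 | h1
    · subst h1
      by_cases hjc : j = c
      · subst hjc; rw [hE', expd_rc]; exact hg
      · by_cases hjc' : j = c'
        · subst hjc'; rw [hE', expd_rc' hcc]; exact Or.inl rfl
        · rw [hE', expd_r hjc hjc']; exact Or.inr TT.base
    · by_cases hjc : j = c
      · subst hjc
        by_cases hi1 : i = r1
        · subst hi1; rw [hE', expd_r1c hrr]; exact Or.inl rfl
        · rw [hE', expd_c (hnr i h1) hi1]; exact Or.inr TT.base
      · have hj' : j ∈ C := (Finset.mem_insert.1 hj).resolve_left hjc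
        by_cases hp : i = r1 ∧ j = c'
        · rw [hp.1, hp.2, hE', expd_r1c' hrr hcc]; exact Or.inr hh
        · rw [old i h1 j hj' hp]; exact hS.kind i h1 j hj'
  have only_r : ∀ j ∈ insert c C, 1 ≤ (E' r j).x → j = c ∨ j = c' := by
    intro j hj hx
    by_contra hcon
    push Not at hcon
    rw [hE', expd_r hcon.1 hcon.2] at hx
    simp at hx
  have only_c : ∀ i ∈ insert r R, 1 ≤ (E' i c).x → i = r ∨ i = r1 := by
    intro i hi hx
    by_contra hcon
    push Not at hcon
    rw [hE', expd_c hcon.1 hcon.2] at hx
    simp at hx
  refine ⟨⟨by rw [cR, cC, hS.card], kinds, ?_, ?_⟩, ?_, ?_⟩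
  · -- protection
    intro i hi j hj hf
    rcases Finset.mem_insert.1 hi with h1 | h1
    · -- row r
      subst h1
      refine ⟨{i}, (insert c C).filter (fun b => b = j ∨ (E' i b).x = 0), by simp,
        Finset.filter_subset _ _, by simp, ?_, ?_, ?_⟩
      · exact Finset.mem_filter.2 ⟨hj, Or.inl rfl⟩
      · -- count
        have hsub : (insert c C).erase (if j = c then c' else c) ⊆
            (insert c C).filter (fun b => b = j ∨ (E' i b).x = 0) := by
          intro b hb
          rw [Finset.mem_erase] at hb
          rw [Finset.mem_filter]
          refine ⟨hb.2, ?_⟩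
          by_contra hcon
          push Not at hcon
          rcases only_r b hb.2 (by omega) with h' | h'
          · by_cases hjc : j = c
            · exact hcon.1 (h'.trans hjc.symm)
            · rw [if_neg hjc] at hb; exact hb.1 h'
          · by_cases hjc : j = c
            · rw [if_pos hjc] at hb; exact hb.1 h'
            · have hjx : 1 ≤ (E' i j).x := by rw [hf]; simp
              rcases only_r j hj hjx with h2 | h2
              · exact hjc h2
              · exact hcon.1 (h'.trans h2.symm)
        have hle := Finset.card_le_card hsub
        have hmem : (if j = c then c' else c) ∈ insert c C := by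
          split_ifs
          · exact Finset.mem_insert_of_mem hc'
          · exact Finset.mem_insert_self _ _
        rw [Finset.card_erase_of_mem hmem] at hle
        rw [Finset.card_singleton]
        have := hS.card
        omega
      · intro a ha b hb hx
        have ha' := Finset.mem_singleton.1 ha
        subst ha'
        rw [Finset.mem_filter] at hb
        refine ⟨rfl, ?_⟩
        rcases hb.2 with h' | h'
        · exact h'
        · omega
    · rcases Finset.mem_insert.1 hj with h2 | h2
      · -- column c, row in R: must be r1
        subst h2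
        have hi1 : i = r1 := by
          have hx : 1 ≤ (E' i j).x := by rw [hf]; simp
          rcases only_c i hi hx with h' | h'
          · exact absurd h' (hnr i h1)
          · exact h'
        refine ⟨R, {j}, Finset.subset_insert _ _, by simp, h1, by simp, ?_, ?_⟩
        · rw [Finset.card_singleton]; omega
        · intro a ha b hb hx
          have hb' := Finset.mem_singleton.1 hb
          subst hb'
          refine ⟨?_, rfl⟩
          rcases only_c a (Finset.mem_insert_of_mem ha) hx with h' | h'
          · exact absurd h' (hnr a ha)
          · rw [h', hi1]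
      · -- old entry
        have hp : ¬ (i = r1 ∧ j = c') := by
          intro hp
          rw [hp.1, hp.2, hE', expd_r1c' hrr hcc] at hf
          rcases hh.eq_zero_or with h' | h'
          · rw [h'] at hf
            have := congrArg Ent.x hf
            simp at this
          · rw [hf] at h'; simp at h'
        rw [old i h1 j h2 hp] at hf
        obtain ⟨S, T, hb⟩ := hS.prot i h1 j h2 hf
        have hnot : ¬ (r1 ∈ S ∧ c' ∈ T) := fun h' => hp
          ⟨(hb.zero r1 h'.1 c' h'.2 hEx).1.symm, (hb.zero r1 h'.1 c' h'.2 hEx).2.symm⟩
        have oldz : ∀ a ∈ S, ∀ b ∈ T, 1 ≤ (E' a b).x → a = i ∧ b = j := by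
          intro a ha b hb' hx
          have hab : ¬ (a = r1 ∧ b = c') := fun h' => hnot ⟨h'.1 ▸ ha, h'.2 ▸ hb'⟩
          rw [old a (hb.subR ha) b (hb.subC hb') hab] at hx
          exact hb.zero a ha b hb' hx
        have hbc := hb.card
        by_cases hr1S : r1 ∈ S
        · have hc'T : c' ∉ T := fun h' => hnot ⟨hr1S, h'⟩
          have hrS : r ∉ S := fun h' => hr (hb.subR h')
          refine ⟨insert r S, T, Finset.insert_subset_insert _ hb.subR,
            hb.subC.trans (Finset.subset_insert _ _), Finset.mem_insert_of_mem hb.memS, hb.memT,
            ?_, ?_⟩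
          · rw [Finset.card_insert_of_notMem hrS]; omega
          · intro a ha b hb' hx
            rcases Finset.mem_insert.1 ha with h' | h'
            · exfalso
              rw [h'] at hx
              rcases only_r b (Finset.mem_insert_of_mem (hb.subC hb')) hx with h3 | h3
              · exact hc (h3 ▸ hb.subC hb')
              · exact hc'T (h3 ▸ hb')
            · exact oldz a h' b hb' hx
        · have hcT : c ∉ T := fun h' => hc (hb.subC h')
          refine ⟨S, insert c T, hb.subR.trans (Finset.subset_insert _ _),
            Finset.insert_subset_insert _ hb.subC, hb.memS, Finset.mem_insert_of_mem hb.memT,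
            ?_, ?_⟩
          · rw [Finset.card_insert_of_notMem hcT]; omega
          · intro a ha b hb' hx
            rcases Finset.mem_insert.1 hb' with h' | h'
            · exfalso
              rw [h'] at hx
              rcases only_c a (Finset.mem_insert_of_mem (hb.subR ha)) hx with h3 | h3
              · exact hr (h3 ▸ hb.subR ha)
              · exact hr1S (h3 ▸ ha)
            · exact oldz a ha b h' hx
  · -- full indecomposability
    intro S T hSs hTs hSn hTn hz
    have hRC := hS.card
    have zr : ∀ b ∈ T, r ∈ S → b ≠ c ∧ b ≠ c' := by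
      intro b hb hrS
      constructor
      · intro e
        have := hz r hrS b hb
        rw [e, hE', expd_rc] at this
        omega
      · intro e
        have := hz r hrS b hb
        rw [e, hE', expd_rc' hcc] at this
        simp at this
    by_cases hrS : r ∈ S
    · have hTC : T ⊆ C.erase c' := by
        intro b hb
        have h1 := zr b hb hrS
        exact Finset.mem_erase.2 ⟨h1.2, (Finset.mem_insert.1 (hTs hb)).resolve_left h1.1⟩
      have hTc := Finset.card_le_card hTC
      rw [Finset.card_erase_of_mem hc'] at hTc
      have hCpos : 1 ≤ C.card := Finset.card_pos.2 ⟨c', hc'⟩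
      have hSe : (S.erase r).card + 1 = S.card := Finset.card_erase_add_one hrS
      by_cases hne : (S.erase r).Nonempty
      · have := hS.fi (S.erase r) T (by
          intro a ha
          rw [Finset.mem_erase] at ha
          exact (Finset.mem_insert.1 (hSs ha.2)).resolve_left ha.1)
          (hTC.trans (Finset.erase_subset _ _)) hne hTn (by
          intro a ha b hb
          rw [Finset.mem_erase] at ha
          have haR := (Finset.mem_insert.1 (hSs ha.2)).resolve_left ha.1
          have hb' := Finset.mem_erase.1 (hTC hb)
          rw [← old a haR b hb'.2 (fun e => hb'.1 e.2)]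
          exact hz a ha.2 b hb)
        omega
      · rw [Finset.not_nonempty_iff_eq_empty] at hne
        rw [hne, Finset.card_empty] at hSe
        omega
    · have hSR : S ⊆ R := fun a ha =>
        (Finset.mem_insert.1 (hSs ha)).resolve_left (fun e => hrS (e ▸ ha))
      by_cases hcT : c ∈ T
      · have hr1S : r1 ∉ S := by
          intro h1
          have := hz r1 h1 c hcT
          rw [hE', expd_r1c hrr] at this
          simp at this
        have hSR' : S ⊆ R.erase r1 := fun a ha =>
          Finset.mem_erase.2 ⟨fun e => hr1S (e ▸ ha), hSR ha⟩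
        have hSc := Finset.card_le_card hSR'
        rw [Finset.card_erase_of_mem hr1] at hSc
        have hRpos : 1 ≤ R.card := Finset.card_pos.2 ⟨r1, hr1⟩
        have hTe : (T.erase c).card + 1 = T.card := Finset.card_erase_add_one hcT
        by_cases hne : (T.erase c).Nonempty
        · have := hS.fi S (T.erase c) hSR (by
            intro b hb
            rw [Finset.mem_erase] at hb
            exact (Finset.mem_insert.1 (hTs hb.2)).resolve_left hb.1) hSn hne (by
            intro a ha b hb
            rw [Finset.mem_erase] at hb
            have hbC := (Finset.mem_insert.1 (hTs hb.2)).resolve_left hb.1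
            rw [← old a (hSR ha) b hbC (fun e => hr1S (e.1 ▸ ha))]
            exact hz a ha b hb.2)
          omega
        · rw [Finset.not_nonempty_iff_eq_empty] at hne
          rw [hne, Finset.card_empty] at hTe
          omega
      · have hTC : T ⊆ C := fun b hb =>
          (Finset.mem_insert.1 (hTs hb)).resolve_left (fun e => hcT (e ▸ hb))
        by_cases hpos : r1 ∈ S ∧ c' ∈ T
        · -- then `h` is the zero entry
          have hh0 : h.x = 0 := by
            have := hz r1 hpos.1 c' hpos.2
            rwa [hE', expd_r1c' hrr hcc] at this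
          have hR2 : 2 ≤ R.card := by
            rcases hroot with h' | h'
            · exact h'
            · omega
          have hSe : (S.erase r1).card + 1 = S.card := Finset.card_erase_add_one hpos.1
          by_cases hne : (S.erase r1).Nonempty
          · have := hS.fi (S.erase r1) T ((Finset.erase_subset _ _).trans hSR) hTC hne hTn (by
              intro a ha b hb
              rw [Finset.mem_erase] at ha
              rw [← old a (hSR ha.2) b (hTC hb) (fun e => ha.1 e.1)]
              exact hz a ha.2 b hb)
            omega
          · rw [Finset.not_nonempty_iff_eq_empty] at hne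
            rw [hne, Finset.card_empty] at hSe
            -- S = {r1}; T is not all of C
            have hTlt : T.card < C.card := by
              apply Finset.card_lt_card
              refine ⟨hTC, fun hCT => ?_⟩
              obtain ⟨c2, hc2, hne2, hx2⟩ := hS.fi.row_two hS.card hR2 hr1 c'
              have := hz r1 hpos.1 c2 (hCT hc2)
              rw [old r1 hr1 c2 hc2 (fun e => hne2 e.2)] at this
              omega
            omega
        · have := hS.fi S T hSR hTC hSn hTn (by
            intro a ha b hb
            rw [← old a (hSR ha) b (hTC hb) (fun e => hpos ⟨e.1 ▸ ha, e.2 ▸ hb⟩)]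
            exact hz a ha b hb)
          omega
  · -- value
    have h1 := val_peel (E := E') kinds (Finset.mem_insert_self r R) (Finset.mem_insert_of_mem hr1)
      hrr (Finset.mem_insert_self c C) (Finset.mem_insert_of_mem hc') hcc.symm
      (by rw [hE', expd_rc]; exact hgx) (by rw [hE', expd_rc' hcc]) only_r
      (by rw [hE', expd_r1c hrr]) only_c
    rw [h1, Finset.erase_insert hr, Finset.erase_insert hc]
    apply val_congr
    intro i hi j hj
    by_cases hp : i = r1 ∧ j = c'
    · rw [hp.1, hp.2, upd_self, hE, hE', expd_r1c' hrr hcc, expd_rc]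
    · rw [upd_ne _ _ hp, old i hi j hj hp]
  · have h1 := ord_peel (E := E') kinds (Finset.mem_insert_self r R) (Finset.mem_insert_of_mem hr1)
      hrr (Finset.mem_insert_self c C) (Finset.mem_insert_of_mem hc') hcc.symm
      (by rw [hE', expd_rc' hcc]) only_r (by rw [hE', expd_r1c hrr]) only_c
    rw [h1, Finset.erase_insert hr, Finset.erase_insert hc]
    apply ord_congr
    intro i hi j hj
    by_cases hp : i = r1 ∧ j = c'
    · rw [hp.1, hp.2, upd_self, hE, hE', expd_r1c' hrr hcc, expd_rc]
    · rw [upd_ne _ _ hp, old i hi j hj hp]

end expand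

end Pool.Agent.Lib.Pfab339
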