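import Mathlib
import Pool.Agent.Lib.Pfab339.Lower

set_option autoImplicit false
set_option linter.unusedSectionVars false

namespace Pool.Agent.Lib.Pfab339

open Finset

theorem TT.decomp {e : Ent} (h : TT e) (hn : 1 ≤ e.n) :
    ∃ h g : Ent, TT h ∧ Kind g ∧ 1 ≤ g.x ∧ e = Ent.comb h g := by
  cases h with
  | base => simp at hn
  | @add h hh => exact ⟨h, Ent.free, hh, Or.inl rfl, le_rfl, rfl⟩
  | @child h g hh hg hx => exact ⟨h, g, hh, Or.inr hg, hx, rfl⟩

theorem realize : ∀ (k : ℕ) (R C : Finset ℕ) (E : ℕ → ℕ → Ent), Str R C E → 2 ≤ R.card →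
    Nv R C E = k → ∃ (R' C' : Finset ℕ) (E' : ℕ → ℕ → Ent), Str R' C' E' ∧ Nv R' C' E' = 0 ∧
      val R' C' E' = val R C E ∧ ord R' C' E' = ord R C E := by
  intro k
  induction k with
  | zero =>
    intro R C E hS _ hN
    exact ⟨R, C, E, hS, hN, rfl, rfl⟩
  | succ k ih =>
    intro R C E hS h2 hN
    have hex : ∃ i ∈ R, ∃ j ∈ C, 1 ≤ (E i j).n := by
      by_contra hcon
      push Not at hcon
      have : Nv R C E = 0 := by
        rw [Nv_eq]
        refine Finset.sum_eq_zero (fun i hi => Finset.sum_eq_zero (fun j hj => ?_))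
        have := hcon i hi j hj
        omega
      omega
    obtain ⟨i, hi, j, hj, hn⟩ := hex
    have hk := (hS.kind i hi j hj).tt_of_n hn
    obtain ⟨h, g, hh, hg, hgx, he⟩ := hk.1.decomp hn
    obtain ⟨r, hr⟩ := Infinite.exists_notMem_finset R
    obtain ⟨c, hc⟩ := Infinite.exists_notMem_finset C
    obtain ⟨s1, s2, s3⟩ := expand hS hr hc hi hj he hh hg hgx (Or.inl h2)
    have cR : (insert r R).card = R.card + 1 := Finset.card_insert_of_notMem hr
    have hN' : Nv (insert r R) (insert c C) (expd E i j r c h g) = k := by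
      unfold ord at s3
      omega
    obtain ⟨R', C', E', t1, t2, t3, t4⟩ := ih _ _ _ s1 (by omega) hN'
    exact ⟨R', C', E', t1, t2, t3.trans s2, t4.trans s3⟩

theorem realize_root {x n : ℕ} (h : Root x n) :
    ∃ (R C : Finset ℕ) (E : ℕ → ℕ → Ent), Str R C E ∧ Nv R C E = 0 ∧
      val R C E = x ∧ ord R C E = n := by
  obtain ⟨h, g, hh, hg, hgx, hhx, hx, hn⟩ := h
  have hcn : 1 ≤ (Ent.comb h g).n := by simp only [Ent.comb]; omega
  have hcy : 1 ≤ (Ent.comb h g).y := by
    have := hh.y_pos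
    simp only [Ent.comb]; exact Nat.one_le_iff_ne_zero.2 (by positivity)
  have hcx : 1 ≤ (Ent.comb h g).x := by
    simp only [Ent.comb]
    have : 1 ≤ h.x * g.x := Nat.one_le_iff_ne_zero.2 (by positivity)
    omega
  have hS : Str ({0} : Finset ℕ) {0} (fun _ _ => Ent.comb h g) := by
    refine ⟨rfl, fun i _ j _ => Or.inr (Kind.comb hh hg hgx), ?_, ?_⟩
    · intro i _ j _ hf
      exfalso
      have hf' : Ent.comb h g = Ent.free := hf
      rw [hf'] at hcn
      simp at hcn
    · intro S T hS hT hSn hTn hz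
      exfalso
      obtain ⟨a, ha⟩ := hSn
      obtain ⟨b, hb⟩ := hTn
      have hz0 : (Ent.comb h g).x = 0 := hz a ha b hb
      omega
  obtain ⟨s1, s2, s3⟩ := expand hS (r := 1) (c := 1) (by simp) (by simp)
    (Finset.mem_singleton_self 0) (Finset.mem_singleton_self 0) rfl hh hg hgx (Or.inr hhx)
  obtain ⟨R', C', E', t1, t2, t3, t4⟩ := realize _ _ _ _ s1 (by
    rw [Finset.card_insert_of_notMem (by simp), Finset.card_singleton]) rfl
  refine ⟨R', C', E', t1, t2, ?_, ?_⟩
  · rw [t3, s2, val_single 0 0 (fun _ _ => Ent.comb h g) hcy, hx]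
  · rw [t4, s3, ord_single]
    show 1 + (Ent.comb h g).n = n
    omega

theorem per_reindex {α : Type} [DecidableEq α] {n : ℕ} {R C : Finset α} (f : Fin n ≃ R)
    (g : Fin n ≃ C) (w : α → α → ℚ) :
    per R C w = ∑ σ : Equiv.Perm (Fin n), ∏ i, w (f i) (g (σ i)) := by
  unfold per
  refine Fintype.sum_equiv (Equiv.equivCongr f.symm g.symm) _ _ ?_
  intro σ
  refine Fintype.prod_equiv f.symm _ _ ?_
  intro i
  simp [Equiv.equivCongr]

theorem permanent_eq {n : ℕ} (A : Matrix (Fin n) (Fin n) ℕ) :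
    A.permanent = ∑ σ : Equiv.Perm (Fin n), ∏ i, A i (σ i) := by
  rw [← Matrix.permanent_transpose]
  rfl

end Pool.Agent.Lib.Pfab339
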